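import Mathlib

/-!
Basic facts about the monomial ideals `(x_1^d, …, x_n^d)^k` and `(x_1^{e_1}, …, x_n^{e_n})`.
-/

namespace Pool.Agent.Lib_MP_8b82cd_ag

open MvPolynomial

variable {n : ℕ}

/-- `(x_1^d, …, x_n^d)^k`. -/
noncomputable def powI (n d k : ℕ) : Ideal (MvPolynomial (Fin n) ℂ) :=
  (Ideal.span (Set.range fun i : Fin n => (X i : MvPolynomial (Fin n) ℂ) ^ d)) ^ k

/-- `(x_1^{e_1}, …, x_n^{e_n})`. -/
noncomputable def ciI (e : Fin n → ℕ) : Ideal (MvPolynomial (Fin n) ℂ) :=
  Ideal.span (Set.range fun i : Fin n => (X i : MvPolynomial (Fin n) ℂ) ^ e i)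

/-- sum of the variables -/
noncomputable def ell (n : ℕ) : MvPolynomial (Fin n) ℂ := ∑ i, X i

/-- injectivity of multiplication by `L^j` from degree `i` modulo `J`. -/
def InjP (J : Ideal (MvPolynomial (Fin n) ℂ)) (L : MvPolynomial (Fin n) ℂ) (i j : ℕ) : Prop :=
  ∀ f : MvPolynomial (Fin n) ℂ, f.IsHomogeneous i → L ^ j * f ∈ J → f ∈ J

/-- surjectivity of multiplication by `L^j` from degree `i` modulo `J`. -/
def SurjP (J : Ideal (MvPolynomial (Fin n) ℂ)) (L : MvPolynomial (Fin n) ℂ) (i j : ℕ) : Prop :=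
  ∀ g : MvPolynomial (Fin n) ℂ, g.IsHomogeneous (i + j) →
    ∃ f : MvPolynomial (Fin n) ℂ, f.IsHomogeneous i ∧ g - L ^ j * f ∈ J

/-- the ideal of polynomials all of whose monomials lie in the upper set `s` -/
theorem mem_span_mon_iff {s : Set (Fin n →₀ ℕ)} (hs : ∀ a b, a ≤ b → a ∈ s → b ∈ s)
    {f : MvPolynomial (Fin n) ℂ} :
    f ∈ Ideal.span ((fun m => monomial m (1 : ℂ)) '' s) ↔ ∀ m ∈ f.support, m ∈ s := by
  rw [mem_ideal_span_monomial_image]
  constructor
  · intro h m hm
    obtain ⟨a, ha, hle⟩ := h m hm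
    exact hs a m hle ha
  · intro h m hm
    exact ⟨m, h m hm, le_refl m⟩

/-- exponents with floor sum at least `k` -/
def powS (n d k : ℕ) : Set (Fin n →₀ ℕ) := {m | k ≤ ∑ i, m i / d}

theorem powS_upper (n d k : ℕ) : ∀ a b : Fin n →₀ ℕ, a ≤ b → a ∈ powS n d k → b ∈ powS n d k := by
  intro a b hab ha
  exact le_trans ha (Finset.sum_le_sum fun i _ => Nat.div_le_div_right (hab i))

theorem powI_eq (n d k : ℕ) (hd : 0 < d) :
    powI n d k = Ideal.span ((fun m => monomial m (1 : ℂ)) '' powS n d k) := by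
  induction k with
  | zero =>
    unfold powI
    rw [pow_zero, Ideal.one_eq_top]
    symm
    rw [Ideal.eq_top_iff_one]
    apply Ideal.subset_span
    refine ⟨0, by simp [powS], by simp⟩
  | succ k ih =>
    have h1 : powI n d (k + 1) = powI n d k *
        Ideal.span (Set.range fun i : Fin n => (X i : MvPolynomial (Fin n) ℂ) ^ d) := by
      unfold powI
      rw [pow_succ]
    rw [h1, ih, Ideal.span_mul_span']
    apply le_antisymm
    · rw [Ideal.span_le]
      rintro x ⟨a, ⟨m, hm, rfl⟩, b, ⟨i, rfl⟩, rfl⟩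
      apply Ideal.subset_span
      refine ⟨m + Finsupp.single i d, ?_, ?_⟩
      · have hm' : k ≤ ∑ i, m i / d := hm
        show k + 1 ≤ ∑ j, (m + Finsupp.single i d) j / d
        have h2 : ∑ j, (m + Finsupp.single i d) j / d = ∑ j, (m j / d + if j = i then 1 else 0) := by
          apply Finset.sum_congr rfl
          intro j _
          by_cases hj : j = i
          · subst hj
            simp [Nat.add_div_right _ hd]
          · simp [hj]
        rw [h2, Finset.sum_add_distrib]
        simp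
        exact hm'
      · simp [X_pow_eq_monomial, monomial_mul]
    · rw [Ideal.span_le]
      rintro x ⟨m, hm, rfl⟩
      have hm' : k + 1 ≤ ∑ i, m i / d := hm
      have hpos : 0 < ∑ i, m i / d := by omega
      obtain ⟨i, -, hi⟩ := Finset.exists_ne_zero_of_sum_ne_zero hpos.ne'
      have hdi : d ≤ m i := by
        by_contra hlt
        push Not at hlt
        exact hi (Nat.div_eq_of_lt hlt)
      apply Ideal.subset_span
      refine ⟨monomial (m - Finsupp.single i d) 1, ⟨m - Finsupp.single i d, ?_, rfl⟩, X i ^ d,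
        ⟨i, rfl⟩, ?_⟩
      · show k ≤ ∑ j, (m - Finsupp.single i d) j / d
        have h2 : ∑ j, m j / d = ∑ j, ((m - Finsupp.single i d) j / d + if j = i then 1 else 0) := by
          apply Finset.sum_congr rfl
          intro j _
          by_cases hj : j = i
          · subst hj
            simp only [Finsupp.coe_tsub, Pi.sub_apply, Finsupp.single_eq_same, if_true]
            obtain ⟨t, ht⟩ := Nat.exists_eq_add_of_le hdi
            rw [ht, Nat.add_sub_cancel_left, Nat.add_div_left _ hd]
          · simp [hj]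
        rw [Finset.sum_add_distrib] at h2
        simp at h2
        simp
        omega
      · simp only [X_pow_eq_monomial, monomial_mul, mul_one]
        congr 1
        rw [tsub_add_cancel_of_le]
        intro j
        by_cases hj : j = i
        · subst hj; simpa using hdi
        · simp [Ne.symm hj]

theorem mem_powI_iff {d : ℕ} (hd : 0 < d) (k : ℕ) {f : MvPolynomial (Fin n) ℂ} :
    f ∈ powI n d k ↔ ∀ m ∈ f.support, k ≤ ∑ i, m i / d := by
  rw [powI_eq n d k hd, mem_span_mon_iff (powS_upper n d k)]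
  rfl

theorem mem_ciI_iff (e : Fin n → ℕ) {f : MvPolynomial (Fin n) ℂ} :
    f ∈ ciI e ↔ ∀ m ∈ f.support, ∃ i, e i ≤ m i := by
  have h : ciI e = Ideal.span ((fun m => monomial m (1 : ℂ)) ''
      {m : Fin n →₀ ℕ | ∃ i, e i ≤ m i}) := by
    apply le_antisymm
    · unfold ciI
      rw [Ideal.span_le]
      rintro x ⟨i, rfl⟩
      apply Ideal.subset_span
      exact ⟨Finsupp.single i (e i), ⟨i, by simp⟩, by simp [X_pow_eq_monomial]⟩
    · rw [Ideal.span_le]
      rintro x ⟨m, ⟨i, hi⟩, rfl⟩
      have : monomial m (1 : ℂ) = monomial (m - Finsupp.single i (e i)) 1 * X i ^ (e i) := by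
        simp only [X_pow_eq_monomial, monomial_mul, mul_one]
        congr 1
        rw [tsub_add_cancel_of_le]
        intro j
        by_cases hj : j = i
        · subst hj; simpa using hi
        · simp [Ne.symm hj]
      show monomial m (1 : ℂ) ∈ ciI e
      rw [this]
      exact Ideal.mul_mem_left _ _ (Ideal.subset_span ⟨i, rfl⟩)
  rw [h, mem_span_mon_iff]
  · rfl
  · rintro a b hab ⟨i, hi⟩
    exact ⟨i, le_trans hi (hab i)⟩

theorem isHomogeneous_iff {f : MvPolynomial (Fin n) ℂ} {k : ℕ} :
    f.IsHomogeneous k ↔ ∀ m, coeff m f ≠ 0 → ∑ i, m i = k := by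
  constructor
  · intro h m hm
    by_contra hne
    apply hm
    apply h.coeff_eq_zero
    rwa [Finsupp.degree_eq_sum]
  · intro h m hm
    have h1 := h m hm
    have h2 : m.degree = (Finsupp.weight (1 : Fin n → ℕ)) m := by
      rw [Finsupp.degree_eq_weight_one]
      rfl
    rw [← h2, Finsupp.degree_eq_sum]
    exact h1

theorem ell_isHomogeneous (n : ℕ) : (ell n).IsHomogeneous 1 := by
  unfold ell
  apply IsHomogeneous.sum
  intro i _
  exact isHomogeneous_X _ _

theorem ell_pow_mul_isHomogeneous {f : MvPolynomial (Fin n) ℂ} {i : ℕ} (hf : f.IsHomogeneous i)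
    (j : ℕ) : (ell n ^ j * f).IsHomogeneous (i + j) := by
  have := ((ell_isHomogeneous n).pow j).mul hf
  convert this using 1
  ring

theorem InjP.of_le {J : Ideal (MvPolynomial (Fin n) ℂ)} {L : MvPolynomial (Fin n) ℂ} {i j j' : ℕ}
    (hjj : j ≤ j') (h : InjP J L i j') : InjP J L i j := by
  intro f hf hJ
  apply h f hf
  obtain ⟨t, rfl⟩ := Nat.exists_eq_add_of_le hjj
  have : L ^ (j + t) * f = L ^ t * (L ^ j * f) := by ring
  rw [this]
  exact Ideal.mul_mem_left _ _ hJ

end Pool.Agent.Lib_MP_8b82cd_ag
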