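import Mathlib
import Pool.Agent.Lib_MP_8b82cd_ag.Basic

/-!
The `sl₂`-argument: if a lowering operator `F` satisfies `F (L p) = L F p + (σ - 2 deg p) p`,
then the powers of `L` have maximal rank modulo every `F`-stable ideal of top degree `σ`.
-/

namespace Pool.Agent.Lib_MP_8b82cd_ag

open MvPolynomial

variable {n : ℕ}

/-- data of a lowering operator -/
structure Lowering (F : MvPolynomial (Fin n) ℂ →ₗ[ℂ] MvPolynomial (Fin n) ℂ) (σ : ℕ)
    (L : MvPolynomial (Fin n) ℂ) (J : Ideal (MvPolynomial (Fin n) ℂ)) : Prop where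
  hL : L.IsHomogeneous 1
  hF : ∀ (i : ℕ) (p : MvPolynomial (Fin n) ℂ), p.IsHomogeneous (i + 1) → (F p).IsHomogeneous i
  hF0 : ∀ (p : MvPolynomial (Fin n) ℂ), p.IsHomogeneous 0 → F p = 0
  hc : ∀ (i : ℕ) (p : MvPolynomial (Fin n) ℂ), p.IsHomogeneous i →
    F (L * p) = L * F p + ((σ : ℂ) - 2 * i) • p
  hJ : ∀ p ∈ J, F p ∈ J

namespace Lowering

variable {F : MvPolynomial (Fin n) ℂ →ₗ[ℂ] MvPolynomial (Fin n) ℂ} {σ : ℕ}
  {L : MvPolynomial (Fin n) ℂ} {J : Ideal (MvPolynomial (Fin n) ℂ)}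

theorem pow_hom (h : Lowering F σ L J) {p : MvPolynomial (Fin n) ℂ} {i : ℕ}
    (hp : p.IsHomogeneous i) (m : ℕ) : (L ^ m * p).IsHomogeneous (i + m) := by
  have := (h.hL.pow m).mul hp
  convert this using 1
  ring

theorem comm_pow (h : Lowering F σ L J) {p : MvPolynomial (Fin n) ℂ} {i : ℕ}
    (hp : p.IsHomogeneous i) (m : ℕ) :
    F (L ^ (m + 1) * p) = L ^ (m + 1) * F p +
      (((m : ℂ) + 1) * ((σ : ℂ) - 2 * i - m)) • (L ^ m * p) := by
  induction m with
  | zero =>
    have := h.hc i p hp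
    simp only [zero_add, pow_one, pow_zero, one_mul, Nat.cast_zero, sub_zero]
    exact this
  | succ m ih =>
    have h1 : L ^ (m + 1 + 1) * p = L * (L ^ (m + 1) * p) := by ring
    rw [h1, h.hc (i + (m + 1)) _ (h.pow_hom hp (m + 1)), ih]
    rw [mul_add, mul_smul_comm]
    have h2 : L * (L ^ (m + 1) * F p) = L ^ (m + 1 + 1) * F p := by ring
    have h3 : L * (L ^ m * p) = L ^ (m + 1) * p := by ring
    rw [h2, h3, add_assoc, ← add_smul]
    congr 2
    push_cast
    ring

theorem descend (h : Lowering F σ L J) {p : MvPolynomial (Fin n) ℂ} {i s : ℕ}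
    (hp : p.IsHomogeneous i) (his : 2 * i + s = σ) (hFp : F p ∈ J) (m : ℕ) (hm : m ≤ s)
    (hm2 : L ^ m * p ∈ J) : p ∈ J := by
  induction m with
  | zero => simpa using hm2
  | succ m ih =>
    apply ih (by omega)
    have h1 := h.hJ _ hm2
    rw [h.comm_pow hp m] at h1
    have h2 : L ^ (m + 1) * F p ∈ J := Ideal.mul_mem_left _ _ hFp
    have h3 : (((m : ℂ) + 1) * ((σ : ℂ) - 2 * i - m)) • (L ^ m * p) ∈ J := by
      have := J.sub_mem h1 h2
      simpa using this
    have hne : (((m : ℂ) + 1) * ((σ : ℂ) - 2 * i - m)) ≠ 0 := by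
      apply mul_ne_zero
      · exact_mod_cast Nat.succ_ne_zero m
      · have : ((σ : ℂ) - 2 * i - m) = ((s - m : ℕ) : ℂ) := by
          rw [Nat.cast_sub (by omega)]
          have : (σ : ℂ) = 2 * i + s := by exact_mod_cast his.symm
          rw [this]
          ring
        rw [this]
        exact_mod_cast (by omega : s - m ≠ 0)
    have h4 : L ^ m * p = (((m : ℂ) + 1) * ((σ : ℂ) - 2 * i - m))⁻¹ •
        ((((m : ℂ) + 1) * ((σ : ℂ) - 2 * i - m)) • (L ^ m * p)) := by
      rw [smul_smul, inv_mul_cancel₀ hne, one_smul]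
    rw [h4]
    exact Submodule.smul_of_tower_mem J _ h3

theorem inj (h : Lowering F σ L J) : ∀ (i s : ℕ), 2 * i + s = σ →
    ∀ p : MvPolynomial (Fin n) ℂ, p.IsHomogeneous i → L ^ s * p ∈ J → p ∈ J := by
  intro i
  induction i with
  | zero =>
    intro s hs p hp hJ
    exact h.descend hp hs (by rw [h.hF0 p hp]; exact J.zero_mem) s le_rfl hJ
  | succ i ih =>
    intro s hs p hp hJ
    apply h.descend hp hs _ s le_rfl hJ
    apply ih (s + 2) (by omega) (F p) (h.hF i p hp)
    have h1 : L ^ (s + 1) * p ∈ J := by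
      have : L ^ (s + 1) * p = L * (L ^ s * p) := by ring
      rw [this]; exact Ideal.mul_mem_left _ _ hJ
    have h2 : L ^ (s + 1 + 1) * p ∈ J := by
      have : L ^ (s + 1 + 1) * p = L * (L ^ (s + 1) * p) := by ring
      rw [this]; exact Ideal.mul_mem_left _ _ h1
    have h3 := h.hJ _ h2
    rw [h.comm_pow hp (s + 1)] at h3
    have h4 := J.sub_mem h3 (Submodule.smul_of_tower_mem J
      (((((s + 1 : ℕ) : ℂ)) + 1) * ((σ : ℂ) - 2 * ((i + 1 : ℕ) : ℂ) - ((s + 1 : ℕ) : ℂ))) h1)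
    simpa using h4

theorem prim (h : Lowering F σ L J) {i s : ℕ} (hs : 2 * i + s = σ)
    {p : MvPolynomial (Fin n) ℂ} (hp : p.IsHomogeneous i) (hJ : L ^ (s + 1) * p ∈ J) :
    F p ∈ J := by
  cases i with
  | zero => rw [h.hF0 p hp]; exact J.zero_mem
  | succ i =>
    apply h.inj i (s + 2) (by omega) (F p) (h.hF i p hp)
    have h2 : L ^ (s + 1 + 1) * p ∈ J := by
      have : L ^ (s + 1 + 1) * p = L * (L ^ (s + 1) * p) := by ring
      rw [this]; exact Ideal.mul_mem_left _ _ hJ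
    have h3 := h.hJ _ h2
    rw [h.comm_pow hp (s + 1)] at h3
    have h4 := J.sub_mem h3 (Submodule.smul_of_tower_mem J
      (((((s + 1 : ℕ) : ℂ)) + 1) * ((σ : ℂ) - 2 * ((i + 1 : ℕ) : ℂ) - ((s + 1 : ℕ) : ℂ))) hJ)
    simpa using h4

theorem iter_hom (h : Lowering F σ L J) {g : MvPolynomial (Fin n) ℂ} :
    ∀ (m t : ℕ), g.IsHomogeneous (t + m) → ((F ^ m) g).IsHomogeneous t := by
  intro m
  induction m with
  | zero => intro t hg; simpa using hg
  | succ m ih =>
    intro t hg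
    rw [pow_succ', Module.End.mul_apply]
    apply h.hF
    apply ih
    convert hg using 1
    ring

theorem killed (h : Lowering F σ L J) {g : MvPolynomial (Fin n) ℂ} {i s : ℕ}
    (his : 2 * i + s = σ) (hg : g.IsHomogeneous (i + s)) (hLg : L * g ∈ J) :
    ∀ m : ℕ, m ≤ s → L * (F ^ (m + 1)) g - (((m : ℂ) + 1) * ((s : ℂ) - m)) • (F ^ m) g ∈ J := by
  have hσ : (σ : ℂ) = 2 * i + s := by exact_mod_cast his.symm
  intro m
  induction m with
  | zero =>
    intro _
    have h1 := h.hJ _ hLg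
    rw [h.hc _ g hg] at h1
    have h2 : L * (F ^ (0 + 1)) g - ((((0 : ℕ) : ℂ) + 1) * ((s : ℂ) - ((0 : ℕ) : ℂ))) • (F ^ 0) g =
        L * F g + ((σ : ℂ) - 2 * ((i + s : ℕ) : ℂ)) • g := by
      simp only [zero_add, pow_one, pow_zero, Module.End.one_apply]
      rw [sub_eq_add_neg, ← neg_smul]
      congr 2
      rw [hσ]; push_cast; ring
    rw [h2]; exact h1
  | succ m ih =>
    intro hm
    have h0 := ih (by omega)
    have h1 := h.hJ _ h0
    have hhom : ((F ^ (m + 1)) g).IsHomogeneous (i + s - (m + 1)) := by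
      apply h.iter_hom
      convert hg using 1
      omega
    rw [map_sub, h.hc _ _ hhom, map_smul] at h1
    have e1 : F ((F ^ (m + 1)) g) = (F ^ (m + 1 + 1)) g := by
      rw [pow_succ' F (m + 1), Module.End.mul_apply]
    have e2 : F ((F ^ m) g) = (F ^ (m + 1)) g := by
      rw [pow_succ' F m, Module.End.mul_apply]
    rw [e1, e2] at h1
    have h2 : L * (F ^ (m + 1 + 1)) g - ((((m + 1 : ℕ) : ℂ) + 1) * ((s : ℂ) - ((m + 1 : ℕ) : ℂ))) •
        (F ^ (m + 1)) g = L * (F ^ (m + 1 + 1)) g +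
          ((σ : ℂ) - 2 * ((i + s - (m + 1) : ℕ) : ℂ)) • (F ^ (m + 1)) g -
          (((m : ℂ) + 1) * ((s : ℂ) - m)) • (F ^ (m + 1)) g := by
      rw [add_sub_assoc, ← sub_smul, sub_eq_add_neg, ← neg_smul]
      congr 2
      rw [hσ, Nat.cast_sub (by omega)]
      push_cast
      ring
    rw [h2]; exact h1

theorem killed_pow (h : Lowering F σ L J) {g : MvPolynomial (Fin n) ℂ} {i s : ℕ}
    (his : 2 * i + s = σ) (hg : g.IsHomogeneous (i + s)) (hLg : L * g ∈ J) :
    ∀ m : ℕ, m ≤ s → ∃ c : ℂ, c ≠ 0 ∧ L ^ m * (F ^ m) g - c • g ∈ J := by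
  intro m
  induction m with
  | zero => intro _; exact ⟨1, one_ne_zero, by simp⟩
  | succ m ih =>
    intro hm
    obtain ⟨c, hc, h1⟩ := ih (by omega)
    have h2 := h.killed his hg hLg m (by omega)
    refine ⟨(((m : ℂ) + 1) * ((s : ℂ) - m)) * c, ?_, ?_⟩
    · apply mul_ne_zero _ hc
      apply mul_ne_zero
      · exact_mod_cast Nat.succ_ne_zero m
      · rw [← Nat.cast_sub (by omega)]
        exact_mod_cast (by omega : s - m ≠ 0)
    · have h3 := J.mul_mem_left (L ^ m) h2
      have h4 := Submodule.smul_of_tower_mem J (((m : ℂ) + 1) * ((s : ℂ) - m)) h1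
      have h5 := J.add_mem h3 h4
      convert h5 using 1
      simp only [MvPolynomial.smul_eq_C_mul, map_mul]
      ring

theorem surj (h : Lowering F σ L J)
    (htop : ∀ p : MvPolynomial (Fin n) ℂ, p.IsHomogeneous (σ + 1) → p ∈ J) :
    ∀ (i s : ℕ), 2 * i + s = σ →
    ∀ g : MvPolynomial (Fin n) ℂ, g.IsHomogeneous (i + s) →
      ∃ f : MvPolynomial (Fin n) ℂ, f.IsHomogeneous i ∧ g - L ^ s * f ∈ J := by
  have key : ∀ (i s : ℕ), 2 * i + s = σ → ∀ g : MvPolynomial (Fin n) ℂ,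
      g.IsHomogeneous (i + s) → L * g ∈ J →
      ∃ f : MvPolynomial (Fin n) ℂ, f.IsHomogeneous i ∧ g - L ^ s * f ∈ J := by
    intro i s his g hg hLg
    obtain ⟨c, hc, h1⟩ := h.killed_pow his hg hLg s le_rfl
    refine ⟨c⁻¹ • (F ^ s) g, ?_, ?_⟩
    · exact (homogeneousSubmodule (Fin n) ℂ i).smul_mem _ (h.iter_hom s i hg)
    · have h2 := Submodule.smul_of_tower_mem J (-c⁻¹) h1
      convert h2 using 1
      rw [smul_sub, smul_smul, neg_mul, inv_mul_cancel₀ hc, mul_smul_comm, neg_smul, neg_smul,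
        one_smul]
      ring
  intro i
  induction i with
  | zero =>
    intro s hs g hg
    apply key 0 s hs g hg
    apply htop
    have := h.pow_hom hg 1
    rw [pow_one] at this
    convert this using 1
    omega
  | succ i ih =>
    intro s hs g hg
    have hLg : (L * g).IsHomogeneous (i + (s + 2)) := by
      have := h.pow_hom hg 1
      rw [pow_one] at this
      convert this using 1
      ring
    obtain ⟨u, hu, hu2⟩ := ih (s + 2) (by omega) (L * g) hLg
    have hg' : (g - L ^ (s + 1) * u).IsHomogeneous (i + 1 + s) := by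
      apply IsHomogeneous.sub hg
      have := h.pow_hom hu (s + 1)
      have e : i + (s + 1) = i + 1 + s := by omega
      rwa [e] at this
    obtain ⟨f, hf, hf2⟩ := key (i + 1) s hs _ hg' (by
      have e : L * (g - L ^ (s + 1) * u) = L * g - L ^ (s + 2) * u := by ring
      rw [e]; exact hu2)
    refine ⟨L * u + f, ?_, ?_⟩
    · apply IsHomogeneous.add _ hf
      have := h.pow_hom hu 1
      rwa [pow_one] at this
    · convert hf2 using 1
      ring

/-- maximal rank (injective side) -/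
theorem injP (h : Lowering F σ L J) {i j : ℕ} (hij : 2 * i + j ≤ σ) : InjP J L i j := by
  apply InjP.of_le (j' := σ - 2 * i) (by omega)
  intro f hf hJ
  exact h.inj i (σ - 2 * i) (by omega) f hf hJ

/-- maximal rank (surjective side) -/
theorem surjP (h : Lowering F σ L J)
    (htop : ∀ t, σ < t → ∀ p : MvPolynomial (Fin n) ℂ, p.IsHomogeneous t → p ∈ J) {i j : ℕ}
    (hij : σ ≤ 2 * i + j) : SurjP J L i j := by
  intro g hg
  by_cases hbig : σ < i + j
  · refine ⟨0, isHomogeneous_zero _ _ _, ?_⟩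
    simpa using htop _ hbig g hg
  · push Not at hbig
    -- `i0 + s0 = i + j`, `2 * i0 + s0 = σ`
    obtain ⟨f, hf, hf2⟩ := h.surj (htop (σ + 1) (Nat.lt_succ_self σ)) (σ - (i + j))
      (2 * (i + j) - σ) (by omega) g (by convert hg using 1; omega)
    refine ⟨L ^ (2 * i + j - σ) * f, ?_, ?_⟩
    · have := h.pow_hom hf (2 * i + j - σ)
      convert this using 1
      omega
    · have e : L ^ j * (L ^ (2 * i + j - σ) * f) = L ^ (2 * (i + j) - σ) * f := by
        rw [← mul_assoc, ← pow_add]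
        congr 2
        omega
      rw [e]; exact hf2

end Lowering

end Pool.Agent.Lib_MP_8b82cd_ag
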