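import Mathlib
import Pool.Agent.Lib_MP_8b82cd_ag.SL2

/-!
Monomial complete intersections have the strong Lefschetz property in characteristic zero,
via the lowering operator `F_e = Σ ((e_i - 1) ∂_i - x_i ∂_i²)`.
-/

namespace Pool.Agent.Lib_MP_8b82cd_ag

open MvPolynomial

variable {n : ℕ}

/-- the lowering operator of `(x_1^{e_1}, …, x_n^{e_n})` -/
noncomputable def lowF (e : Fin n → ℕ) : MvPolynomial (Fin n) ℂ →ₗ[ℂ] MvPolynomial (Fin n) ℂ :=
  ∑ i, (((e i : ℂ) - 1) • (pderiv i).toLinearMap -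
    (LinearMap.mulLeft ℂ (X i)).comp ((pderiv i).toLinearMap.comp (pderiv i).toLinearMap))

theorem lowF_apply (e : Fin n → ℕ) (p : MvPolynomial (Fin n) ℂ) :
    lowF e p = ∑ i, (((e i : ℂ) - 1) • pderiv i p - X i * pderiv i (pderiv i p)) := by
  simp [lowF, LinearMap.sum_apply]

theorem coeff_lowF (e : Fin n → ℕ) (p : MvPolynomial (Fin n) ℂ) (m : Fin n →₀ ℕ) :
    coeff m (lowF e p) =
      ∑ i, ((m i : ℂ) + 1) * ((e i : ℂ) - 1 - m i) * coeff (m + Finsupp.single i 1) p := by
  classical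
  rw [lowF_apply, coeff_sum]
  apply Finset.sum_congr rfl
  intro i _
  rw [coeff_sub, coeff_smul, coeff_pderiv, coeff_X_mul']
  by_cases hi : m i = 0
  · have : i ∉ m.support := by simpa using hi
    rw [if_neg this, hi]
    simp
  · have : i ∈ m.support := by simpa using hi
    rw [if_pos this, coeff_pderiv, coeff_pderiv]
    have h1 : m - Finsupp.single i 1 + Finsupp.single i 1 = m := by
      apply tsub_add_cancel_of_le
      intro j
      by_cases hj : j = i
      · subst hj; simp; omega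
      · simp [Ne.symm hj]
    have h2 : (((m - Finsupp.single i 1 : Fin n →₀ ℕ) i : ℕ) : ℂ) = (m i : ℂ) - 1 := by
      simp only [Finsupp.coe_tsub, Pi.sub_apply, Finsupp.single_eq_same]
      rw [Nat.cast_sub (by omega)]
      simp
    rw [h1, h2]
    simp only [smul_eq_mul]
    ring

theorem lowering_ci (e : Fin n → ℕ) (σ : ℕ) (hσ : σ + n = ∑ i, e i) :
    Lowering (lowF e) σ (ell n) (ciI e) where
  hL := ell_isHomogeneous n
  hF := by
    intro i p hp
    rw [isHomogeneous_iff] at hp ⊢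
    intro m hm
    rw [coeff_lowF] at hm
    obtain ⟨j, -, hj⟩ := Finset.exists_ne_zero_of_sum_ne_zero hm
    have h1 : coeff (m + Finsupp.single j 1) p ≠ 0 := right_ne_zero_of_mul hj
    have h2 := hp _ h1
    simp [Finset.sum_add_distrib] at h2
    exact h2
  hF0 := by
    intro p hp
    ext m
    rw [coeff_lowF, coeff_zero]
    apply Finset.sum_eq_zero
    intro i _
    have : coeff (m + Finsupp.single i 1) p = 0 := by
      by_contra hne
      have h2 := (isHomogeneous_iff.mp hp) _ hne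
      simp [Finset.sum_add_distrib] at h2
    rw [this, mul_zero]
  hc := by
    intro i p hp
    rw [lowF_apply, lowF_apply]
    have hE : ∑ j, X j * pderiv j p = (i : ℂ) • p := by
      rw [hp.sum_X_mul_pderiv]
      exact (Nat.cast_smul_eq_nsmul ℂ i p).symm
    have hell : ∀ j : Fin n, pderiv j (ell n) = 1 := by
      intro j
      simp [ell, map_sum, pderiv_X, Pi.single_apply]
    have h1 : ∀ j : Fin n, (((e j : ℂ) - 1) • pderiv j (ell n * p) -
        X j * pderiv j (pderiv j (ell n * p))) =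
        ell n * (((e j : ℂ) - 1) • pderiv j p - X j * pderiv j (pderiv j p)) +
        ((e j : ℂ) - 1) • p - (2 : ℂ) • (X j * pderiv j p) := by
      intro j
      simp only [pderiv_mul, hell, map_add, MvPolynomial.smul_eq_C_mul, one_mul]
      have : (C (2 : ℂ) : MvPolynomial (Fin n) ℂ) = 2 :=
        map_ofNat (C : ℂ →+* MvPolynomial (Fin n) ℂ) 2
      rw [this]
      ring
    rw [Finset.sum_congr rfl fun j _ => h1 j, Finset.sum_sub_distrib, Finset.sum_add_distrib,
      ← Finset.mul_sum, ← Finset.smul_sum, hE, ← Finset.sum_smul, add_sub_assoc, smul_smul,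
      ← sub_smul]
    congr 2
    rw [Finset.sum_sub_distrib]
    simp
    have : ((σ : ℂ) + n) = ∑ i, (e i : ℂ) := by exact_mod_cast hσ
    rw [← this]
    ring
  hJ := by
    intro p hp
    rw [mem_ciI_iff] at hp ⊢
    intro m hm
    rw [mem_support_iff, coeff_lowF] at hm
    obtain ⟨j, -, hj⟩ := Finset.exists_ne_zero_of_sum_ne_zero hm
    have h1 : coeff (m + Finsupp.single j 1) p ≠ 0 := right_ne_zero_of_mul hj
    obtain ⟨l, hl⟩ := hp _ (mem_support_iff.mpr h1)
    by_cases hlj : l = j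
    · subst hlj
      refine ⟨l, ?_⟩
      simp at hl
      rcases Nat.lt_or_ge (m l) (e l) with h | h
      · exfalso
        have h3 : e l = m l + 1 := by omega
        apply hj
        rw [h3]
        push_cast
        ring
      · exact h
    · refine ⟨l, ?_⟩
      simpa [Finsupp.single_apply, Ne.symm hlj] using hl

theorem ci_top (e : Fin n → ℕ) (σ : ℕ) (hσ : σ + n = ∑ i, e i) (t : ℕ) (ht : σ < t)
    (p : MvPolynomial (Fin n) ℂ) (hp : p.IsHomogeneous t) : p ∈ ciI e := by
  rw [mem_ciI_iff]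
  intro m hm
  by_contra hne
  push Not at hne
  have h1 := (isHomogeneous_iff.mp hp) m (mem_support_iff.mp hm)
  have h2 : ∑ i, (m i + 1) ≤ ∑ i, e i := Finset.sum_le_sum fun i _ => hne i
  rw [Finset.sum_add_distrib] at h2
  simp at h2
  omega

theorem ci_injP (e : Fin n → ℕ) (σ : ℕ) (hσ : σ + n = ∑ i, e i) {i j : ℕ} (hij : 2 * i + j ≤ σ) :
    InjP (ciI e) (ell n) i j :=
  (lowering_ci e σ hσ).injP hij

theorem ci_surjP (e : Fin n → ℕ) (σ : ℕ) (hσ : σ + n = ∑ i, e i) {i j : ℕ} (hij : σ ≤ 2 * i + j) :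
    SurjP (ciI e) (ell n) i j :=
  (lowering_ci e σ hσ).surjP (ci_top e σ hσ) hij

/-- the polynomials of the form `L ^ j * f` modulo `J` -/
def Img (J : Ideal (MvPolynomial (Fin n) ℂ)) (L : MvPolynomial (Fin n) ℂ) (i j : ℕ) :
    Submodule ℂ (MvPolynomial (Fin n) ℂ) where
  carrier := {g | ∃ f : MvPolynomial (Fin n) ℂ, f.IsHomogeneous i ∧ g - L ^ j * f ∈ J}
  add_mem' := by
    rintro a b ⟨f, hf, hf2⟩ ⟨g, hg, hg2⟩
    refine ⟨f + g, hf.add hg, ?_⟩
    have := J.add_mem hf2 hg2
    convert this using 1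
    ring
  zero_mem' := ⟨0, isHomogeneous_zero _ _ _, by simp⟩
  smul_mem' := by
    rintro c a ⟨f, hf, hf2⟩
    refine ⟨c • f, (homogeneousSubmodule (Fin n) ℂ i).smul_mem c hf, ?_⟩
    have := Submodule.smul_of_tower_mem J c hf2
    convert this using 1
    rw [smul_sub, mul_smul_comm]

theorem mem_Img {J : Ideal (MvPolynomial (Fin n) ℂ)} {L : MvPolynomial (Fin n) ℂ} {i j : ℕ}
    {g : MvPolynomial (Fin n) ℂ} :
    g ∈ Img J L i j ↔ ∃ f : MvPolynomial (Fin n) ℂ, f.IsHomogeneous i ∧ g - L ^ j * f ∈ J :=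
  Iff.rfl

/-- surjectivity can be checked on monomials -/
theorem surjP_of_monomials {J : Ideal (MvPolynomial (Fin n) ℂ)} {L : MvPolynomial (Fin n) ℂ}
    {i j : ℕ} (h : ∀ m : Fin n →₀ ℕ, ∑ l, m l = i + j → monomial m (1 : ℂ) ∈ Img J L i j) :
    SurjP J L i j := by
  intro g hg
  rw [← mem_Img, g.as_sum]
  apply Submodule.sum_mem
  intro m hm
  have h1 : monomial m (coeff m g) = (coeff m g) • monomial m (1 : ℂ) := by
    rw [smul_monomial, smul_eq_mul, mul_one]
  rw [h1]
  exact Submodule.smul_mem _ _ (h m ((isHomogeneous_iff.mp hg) m (mem_support_iff.mp hm)))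

end Pool.Agent.Lib_MP_8b82cd_ag
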