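import Mathlib

/-!
# Powers of monomial complete intersections: definitions

For natural numbers `n, d, k` let `T_{n,d,k} = ℂ[x_1, …, x_n] / (x_1^d, …, x_n^d)^k`.
-/

namespace Pool.Agent.Lib_MP_8b82cd_ag.Lefschetz

open MvPolynomial

/-- The ideal `(x_1^d, …, x_n^d)^k` of `ℂ[x_1, …, x_n]`. -/
noncomputable def idealPow (n d k : ℕ) : Ideal (MvPolynomial (Fin n) ℂ) :=
  (Ideal.span (Set.range fun i : Fin n => (X i : MvPolynomial (Fin n) ℂ) ^ d)) ^ k

/-- The algebra `T_{n,d,k} = ℂ[x_1, …, x_n] / (x_1^d, …, x_n^d)^k`. -/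
abbrev T (n d k : ℕ) : Type := MvPolynomial (Fin n) ℂ ⧸ idealPow n d k

/-- The component of degree `i` of `T_{n,d,k}`: the classes of the forms of degree `i`. -/
noncomputable def component (n d k i : ℕ) : Submodule ℂ (T n d k) :=
  (homogeneousSubmodule (Fin n) ℂ i).map (Ideal.Quotient.mkₐ ℂ (idealPow n d k)).toLinearMap

/-- The class in `T_{n,d,k}` of the linear form `a_1 x_1 + … + a_n x_n`. -/
noncomputable def linForm (n d k : ℕ) (a : Fin n → ℂ) : T n d k :=
  Ideal.Quotient.mk (idealPow n d k) (∑ i, C (a i) * X i)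

/-- Multiplication by `ℓ^j`, from the component of degree `i` to the component of degree `i + j`
of `T_{n,d,k}`, has maximal rank: it is injective or surjective. -/
def MaxRank (n d k : ℕ) (ℓ : T n d k) (i j : ℕ) : Prop :=
  Set.InjOn (fun f : T n d k => ℓ ^ j * f) (component n d k i) ∨
    Set.SurjOn (fun f : T n d k => ℓ ^ j * f) (component n d k i) (component n d k (i + j))

/-- `P` holds for generic `a ∈ ℂ^n`: it holds outside the zero set of a nonzero polynomial. -/
def ForGeneric (n : ℕ) (P : (Fin n → ℂ) → Prop) : Prop :=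
  ∃ g : MvPolynomial (Fin n) ℂ, g ≠ 0 ∧ ∀ a : Fin n → ℂ, eval a g ≠ 0 → P a

/-- The strong Lefschetz property of `T_{n,d,k}`: for a generic linear form `ℓ`, multiplication
by `ℓ^j` from degree `i` to degree `i + j` has maximal rank for every `i` and every `j ≥ 1`. -/
def HasSLP (n d k : ℕ) : Prop :=
  ForGeneric n fun a => ∀ i j : ℕ, 1 ≤ j → MaxRank n d k (linForm n d k a) i j

/-- The weak Lefschetz property of `T_{n,d,k}`: for a generic linear form `ℓ`, multiplication
by `ℓ` from degree `i` to degree `i + 1` has maximal rank for every `i`. -/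
def HasWLP (n d k : ℕ) : Prop :=
  ForGeneric n fun a => ∀ i : ℕ, MaxRank n d k (linForm n d k a) i 1

end Pool.Agent.Lib_MP_8b82cd_ag.Lefschetz
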