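import Mathlib
import Pool.Agent.Lib_MP_8b82cd_ag.Basic

/-!
Failure of the strong Lefschetz property: explicit functionals which kill the image of
`ℓ^((n-2)(d-1)+1)` in degree `dk - 1 + (n-2)(d-1)`.
-/

namespace Pool.Agent.Lib_MP_8b82cd_ag

open MvPolynomial

variable {n : ℕ}

/-- the support condition of the functional -/
def KP (a b : Fin n) (s : ℕ) (γ : Fin n → ℕ) (m : Fin n →₀ ℕ) : Prop :=
  m a + m b = s ∧ ∀ c, c ≠ a → c ≠ b → m c = γ c

open Classical in
/-- the weight of a monomial under the functional -/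
noncomputable def kap (a b : Fin n) (s : ℕ) (γ : Fin n → ℕ) (m : Fin n →₀ ℕ) : ℂ :=
  if KP a b s γ m then (-1) ^ (m a) else 0

theorem kap_pos {a b : Fin n} {s : ℕ} {γ : Fin n → ℕ} {m : Fin n →₀ ℕ} (h : KP a b s γ m) :
    kap a b s γ m = (-1) ^ (m a) := if_pos h

theorem kap_neg {a b : Fin n} {s : ℕ} {γ : Fin n → ℕ} {m : Fin n →₀ ℕ} (h : ¬ KP a b s γ m) :
    kap a b s γ m = 0 := if_neg h

/-- the functional -/
noncomputable def phi (a b : Fin n) (s : ℕ) (γ : Fin n → ℕ) : MvPolynomial (Fin n) ℂ →ₗ[ℂ] ℂ :=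
  (basisMonomials (Fin n) ℂ).constr ℂ (kap a b s γ)

theorem phi_monomial (a b : Fin n) (s : ℕ) (γ : Fin n → ℕ) (m : Fin n →₀ ℕ) (c : ℂ) :
    phi a b s γ (monomial m c) = c * kap a b s γ m := by
  have h1 : monomial m c = c • (basisMonomials (Fin n) ℂ m) := by
    rw [coe_basisMonomials, smul_monomial, smul_eq_mul, mul_one]
  rw [h1, map_smul, phi, Module.Basis.constr_basis, smul_eq_mul]

theorem phi_X_ab (a b : Fin n) (hab : a ≠ b) (s : ℕ) (γ : Fin n → ℕ) (f : MvPolynomial (Fin n) ℂ) :
    phi a b s γ (X a * f) + phi a b s γ (X b * f) = 0 := by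
  induction f using MvPolynomial.induction_on' with
  | monomial m c =>
    have h1 : (X a : MvPolynomial (Fin n) ℂ) * monomial m c =
        monomial (Finsupp.single a 1 + m : Fin n →₀ ℕ) c := by
      rw [X, monomial_mul, one_mul]
    have h2 : (X b : MvPolynomial (Fin n) ℂ) * monomial m c =
        monomial (Finsupp.single b 1 + m : Fin n →₀ ℕ) c := by
      rw [X, monomial_mul, one_mul]
    rw [h1, h2, phi_monomial, phi_monomial, ← mul_add]
    have h3 : kap a b s γ (Finsupp.single a 1 + m) + kap a b s γ (Finsupp.single b 1 + m) = 0 := by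
      have e1 : (Finsupp.single a 1 + m : Fin n →₀ ℕ) a + (Finsupp.single a 1 + m : Fin n →₀ ℕ) b = m a + m b + 1 := by
        simp [hab.symm]; ring
      have e2 : (Finsupp.single b 1 + m : Fin n →₀ ℕ) a + (Finsupp.single b 1 + m : Fin n →₀ ℕ) b = m a + m b + 1 := by
        simp [hab]; ring
      have e3 : (∀ c, c ≠ a → c ≠ b → (Finsupp.single a 1 + m : Fin n →₀ ℕ) c = γ c) ↔
          (∀ c, c ≠ a → c ≠ b → m c = γ c) := by
        apply forall_congr'; intro c
        apply imp_congr_right; intro hca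
        apply imp_congr_right; intro hcb
        simp [hca.symm]
      have e4 : (∀ c, c ≠ a → c ≠ b → (Finsupp.single b 1 + m : Fin n →₀ ℕ) c = γ c) ↔
          (∀ c, c ≠ a → c ≠ b → m c = γ c) := by
        apply forall_congr'; intro c
        apply imp_congr_right; intro hca
        apply imp_congr_right; intro hcb
        simp [hcb.symm]
      have f1 : KP a b s γ (Finsupp.single a 1 + m) ↔
          (m a + m b + 1 = s ∧ ∀ c, c ≠ a → c ≠ b → m c = γ c) := by
        unfold KP; rw [e1, e3]
      have f2 : KP a b s γ (Finsupp.single b 1 + m) ↔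
          (m a + m b + 1 = s ∧ ∀ c, c ≠ a → c ≠ b → m c = γ c) := by
        unfold KP; rw [e2, e4]
      by_cases h : m a + m b + 1 = s ∧ ∀ c, c ≠ a → c ≠ b → m c = γ c
      · rw [kap_pos (f1.mpr h), kap_pos (f2.mpr h)]
        simp [hab, pow_add]
      · rw [kap_neg (fun h' => h (f1.mp h')), kap_neg (fun h' => h (f2.mp h')), add_zero]
    rw [h3, mul_zero]
  | add p q hp hq =>
    rw [mul_add, mul_add, map_add, map_add]
    linear_combination hp + hq

theorem phi_X_c (a b c : Fin n) (hca : c ≠ a) (hcb : c ≠ b) (s : ℕ) (γ : Fin n → ℕ)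
    (f : MvPolynomial (Fin n) ℂ) :
    phi a b s γ (X c * f) = if 1 ≤ γ c then phi a b s (Function.update γ c (γ c - 1)) f else 0 := by
  induction f using MvPolynomial.induction_on' with
  | monomial m r =>
    have h1 : (X c : MvPolynomial (Fin n) ℂ) * monomial m r =
        monomial (Finsupp.single c 1 + m) r := by
      rw [X, monomial_mul, one_mul]
    rw [h1, phi_monomial, phi_monomial]
    have e1 : (Finsupp.single c 1 + m : Fin n →₀ ℕ) a = m a := by simp [hca]
    have e2 : (Finsupp.single c 1 + m : Fin n →₀ ℕ) b = m b := by simp [hcb]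
    split_ifs with h
    · congr 1
      have e3 : (∀ l, l ≠ a → l ≠ b → (Finsupp.single c 1 + m : Fin n →₀ ℕ) l = γ l) ↔
          (∀ l, l ≠ a → l ≠ b → m l = Function.update γ c (γ c - 1) l) := by
        apply forall_congr'; intro l
        apply imp_congr_right; intro hla
        apply imp_congr_right; intro hlb
        by_cases hlc : l = c
        · subst hlc
          simp
          omega
        · simp [Ne.symm hlc, Function.update_of_ne hlc]
      have f1 : KP a b s γ (Finsupp.single c 1 + m) ↔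
          KP a b s (Function.update γ c (γ c - 1)) m := by
        unfold KP; rw [e1, e2, e3]
      by_cases h' : KP a b s (Function.update γ c (γ c - 1)) m
      · rw [kap_pos (f1.mpr h'), kap_pos h', e1]
      · rw [kap_neg (fun h'' => h' (f1.mp h'')), kap_neg h']
    · rw [kap_neg, mul_zero]
      rintro ⟨-, h2⟩
      have := h2 c hca hcb
      simp at this
      omega
  | add p q hp hq =>
    rw [mul_add, map_add, hp, hq]
    split_ifs <;> simp

theorem phi_ell (a b : Fin n) (hab : a ≠ b) (s : ℕ) (γ : Fin n → ℕ) (f : MvPolynomial (Fin n) ℂ) :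
    phi a b s γ (ell n * f) = ∑ c ∈ (Finset.univ.erase a).erase b,
      if 1 ≤ γ c then phi a b s (Function.update γ c (γ c - 1)) f else 0 := by
  have hb : b ∈ Finset.univ.erase a := Finset.mem_erase.mpr ⟨hab.symm, Finset.mem_univ b⟩
  rw [ell, Finset.sum_mul, map_sum, ← Finset.add_sum_erase _ _ (Finset.mem_univ a),
    ← Finset.add_sum_erase _ _ hb, ← add_assoc, phi_X_ab a b hab, zero_add]
  apply Finset.sum_congr rfl
  intro c hc
  have hcb := Finset.ne_of_mem_erase hc
  have hca := Finset.ne_of_mem_erase (Finset.mem_of_mem_erase hc)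
  exact phi_X_c a b c hca hcb s γ f

theorem phi_ell_pow (a b : Fin n) (hab : a ≠ b) (s : ℕ) : ∀ (N : ℕ) (γ : Fin n → ℕ),
    (∑ c ∈ (Finset.univ.erase a).erase b, γ c) ≤ N →
    ∀ f : MvPolynomial (Fin n) ℂ, phi a b s γ (ell n ^ (N + 1) * f) = 0 := by
  intro N
  induction N with
  | zero =>
    intro γ hγ f
    rw [zero_add, pow_one, phi_ell a b hab]
    apply Finset.sum_eq_zero
    intro c hc
    rw [if_neg]
    have := Finset.single_le_sum (f := γ) (fun i _ => Nat.zero_le _) hc
    omega
  | succ N ih =>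
    intro γ hγ f
    have e : ell n ^ (N + 1 + 1) * f = ell n * (ell n ^ (N + 1) * f) := by ring
    rw [e, phi_ell a b hab]
    apply Finset.sum_eq_zero
    intro c hc
    split_ifs with h
    · apply ih
      rw [Finset.sum_update_of_mem hc]
      have h2 : ∑ l ∈ (Finset.univ.erase a).erase b, γ l =
          γ c + ∑ l ∈ ((Finset.univ.erase a).erase b) \ {c}, γ l := by
        rw [Finset.sdiff_singleton_eq_erase, Finset.add_sum_erase _ _ hc]
      omega
    · rfl

theorem phi_eq_sum (a b : Fin n) (s : ℕ) (γ : Fin n → ℕ) (g : MvPolynomial (Fin n) ℂ) :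
    phi a b s γ g = ∑ m ∈ g.support, coeff m g * kap a b s γ m := by
  conv_lhs => rw [g.as_sum]
  rw [map_sum]
  exact Finset.sum_congr rfl fun m _ => phi_monomial a b s γ m _

/-- abstract dimension count -/
theorem dimcount {A B P : Type} [Fintype A] [Fintype B] [Fintype P]
    (Φ : (A → ℂ) →ₗ[ℂ] (B → ℂ)) (Ψ : (B → ℂ) →ₗ[ℂ] (P → ℂ))
    (hinj : Function.Injective Φ) (hsurj : Function.Surjective Ψ) (hcomp : ∀ x, Ψ (Φ x) = 0) :
    Fintype.card A + Fintype.card P ≤ Fintype.card B := by
  have h1 : LinearMap.range Φ ≤ LinearMap.ker Ψ := by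
    rintro _ ⟨x, rfl⟩
    exact hcomp x
  have h2 := Submodule.finrank_mono h1
  have h3 := LinearMap.finrank_range_of_inj hinj
  have h4 := LinearMap.finrank_range_add_finrank_ker Ψ
  have h5 : LinearMap.range Ψ = ⊤ := LinearMap.range_eq_top.mpr hsurj
  rw [h5, finrank_top] at h4
  simp only [Module.finrank_fintype_fun_eq_card] at h3 h4
  omega

/-- monomials of degree `t` outside `(x_1^d, …, x_n^d)^k` -/
def stdExp (n d k t : ℕ) : Finset (Fin n →₀ ℕ) :=
  (Finset.univ.finsuppAntidiag t).filter (fun m => ∑ i, m i / d < k)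

theorem mem_stdExp {d k t : ℕ} {m : Fin n →₀ ℕ} :
    m ∈ stdExp n d k t ↔ ∑ i, m i = t ∧ ∑ i, m i / d < k := by
  simp [stdExp, Finset.mem_filter, Finset.mem_finsuppAntidiag]

/-- the test monomial `x_a^{dk-1} ∏_{c ≠ a, b} x_c^{d-1}` -/
noncomputable def tau (d k : ℕ) (a b : Fin n) : Fin n →₀ ℕ :=
  Finsupp.equivFunOnFinite.symm (fun c => if c = a then d * k - 1 else if c = b then 0 else d - 1)

theorem tau_apply (d k : ℕ) (a b c : Fin n) :
    tau d k a b c = if c = a then d * k - 1 else if c = b then 0 else d - 1 := rfl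

theorem sum_split (a b : Fin n) (hab : a ≠ b) (f : Fin n → ℕ) :
    ∑ c, f c = f a + f b + ∑ c ∈ (Finset.univ.erase a).erase b, f c := by
  have hb : b ∈ Finset.univ.erase a := Finset.mem_erase.mpr ⟨hab.symm, Finset.mem_univ b⟩
  rw [← Finset.add_sum_erase _ _ (Finset.mem_univ a), ← Finset.add_sum_erase _ _ hb, ← add_assoc]

theorem card_erase_erase (a b : Fin n) (hab : a ≠ b) :
    ((Finset.univ.erase a).erase b).card = n - 2 := by
  have hb : b ∈ Finset.univ.erase a := Finset.mem_erase.mpr ⟨hab.symm, Finset.mem_univ b⟩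
  rw [Finset.card_erase_of_mem hb, Finset.card_erase_of_mem (Finset.mem_univ a)]
  simp
  omega

theorem KP_sum {d k : ℕ} {a b : Fin n} (hab : a ≠ b) {m : Fin n →₀ ℕ}
    (h : KP a b (d * k - 1) (fun _ => d - 1) m) :
    ∑ c, m c = (d * k - 1) + (n - 2) * (d - 1) := by
  rw [sum_split a b hab, h.1]
  congr 1
  rw [Finset.sum_congr rfl (g := fun _ => d - 1)]
  · rw [Finset.sum_const, card_erase_erase a b hab, smul_eq_mul]
  · intro c hc
    exact h.2 c (Finset.ne_of_mem_erase (Finset.mem_of_mem_erase hc)) (Finset.ne_of_mem_erase hc)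

theorem KP_floor {d k : ℕ} (hd : 0 < d) (hk : 0 < k) {a b : Fin n} (hab : a ≠ b)
    {m : Fin n →₀ ℕ} (h : KP a b (d * k - 1) (fun _ => d - 1) m) : ∑ c, m c / d < k := by
  rw [sum_split a b hab (fun c => m c / d)]
  have h1 : ∑ c ∈ (Finset.univ.erase a).erase b, m c / d = 0 := by
    apply Finset.sum_eq_zero
    intro c hc
    rw [h.2 c (Finset.ne_of_mem_erase (Finset.mem_of_mem_erase hc)) (Finset.ne_of_mem_erase hc)]
    exact Nat.div_eq_of_lt (Nat.sub_lt hd one_pos)
  rw [h1, add_zero]
  have h2 : m a / d + m b / d ≤ (m a + m b) / d := by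
    apply (Nat.le_div_iff_mul_le hd).mpr
    rw [add_mul]
    have := Nat.div_mul_le_self (m a) d
    have := Nat.div_mul_le_self (m b) d
    omega
  rw [h.1] at h2
  have h3 : (d * k - 1) / d < k := by
    apply (Nat.div_lt_iff_lt_mul hd).mpr
    have : 0 < d * k := Nat.mul_pos hd hk
    rw [mul_comm k d]
    omega
  omega

theorem KP_tau {d k : ℕ} {a b : Fin n} (hab : a ≠ b) :
    KP a b (d * k - 1) (fun _ => d - 1) (tau d k a b) := by
  refine ⟨by simp [tau_apply, hab.symm], ?_⟩
  intro c hca hcb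
  rw [tau_apply, if_neg hca, if_neg hcb]

theorem KP_tau_eq {d k : ℕ} (hd : 2 ≤ d) (hk : 2 ≤ k) {a b a' b' : Fin n} (hab : a < b)
    (hab' : a' < b') (h : KP a' b' (d * k - 1) (fun _ => d - 1) (tau d k a b)) :
    a = a' ∧ b = b' := by
  have hdk : d * 2 ≤ d * k := Nat.mul_le_mul_left d hk
  have h1 : a = a' ∨ a = b' := by
    by_contra hne
    push Not at hne
    have := h.2 a hne.1 hne.2
    rw [tau_apply, if_pos rfl] at this
    beta_reduce at this
    omega
  have h2 : b = a' ∨ b = b' := by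
    by_contra hne
    push Not at hne
    have := h.2 b hne.1 hne.2
    rw [tau_apply, if_neg (ne_of_gt hab), if_pos rfl] at this
    beta_reduce at this
    omega
  rcases h1 with h1 | h1 <;> rcases h2 with h2 | h2
  · subst h1; subst h2; exact absurd hab (lt_irrefl _)
  · exact ⟨h1, h2⟩
  · subst h1; subst h2; exact absurd hab (lt_asymm hab')
  · subst h1; subst h2; exact absurd hab (lt_irrefl _)

theorem phi_powI {d k : ℕ} (hd : 0 < d) (hk : 0 < k) {a b : Fin n} (hab : a ≠ b)
    {f : MvPolynomial (Fin n) ℂ} (hf : f ∈ powI n d k) :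
    phi a b (d * k - 1) (fun _ => d - 1) f = 0 := by
  rw [phi_eq_sum]
  apply Finset.sum_eq_zero
  intro m hm
  rw [kap_neg, mul_zero]
  intro h
  have h1 := (mem_powI_iff hd k).mp hf m hm
  have h2 := KP_floor hd hk hab h
  omega

theorem phi_image {d k : ℕ} {a b : Fin n} (hab : a ≠ b) (f : MvPolynomial (Fin n) ℂ) :
    phi a b (d * k - 1) (fun _ => d - 1) (ell n ^ ((n - 2) * (d - 1) + 1) * f) = 0 := by
  apply phi_ell_pow a b hab
  rw [Finset.sum_const, card_erase_erase a b hab, smul_eq_mul]

theorem not_surjP {d k : ℕ} (hn : 2 ≤ n) (hd : 2 ≤ d) (hk : 2 ≤ k) :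
    ¬ SurjP (powI n d k) (ell n) (d * k - 2) ((n - 2) * (d - 1) + 1) := by
  intro h
  have hab : (⟨0, by omega⟩ : Fin n) ≠ ⟨1, by omega⟩ := by
    intro h; simp at h
  set a : Fin n := ⟨0, by omega⟩
  set b : Fin n := ⟨1, by omega⟩
  have hdk : d * 2 ≤ d * k := Nat.mul_le_mul_left d hk
  have hhom : (monomial (tau d k a b) (1 : ℂ)).IsHomogeneous
      (d * k - 2 + ((n - 2) * (d - 1) + 1)) := by
    rw [isHomogeneous_iff]
    intro m hm
    rw [coeff_monomial] at hm
    have e : tau d k a b = m := by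
      by_contra hne
      simp [hne] at hm
    rw [← e, KP_sum hab (KP_tau hab)]
    omega
  obtain ⟨f, hf, hf2⟩ := h _ hhom
  have h1 := phi_powI (by omega) (by omega) hab hf2
  rw [map_sub, phi_image hab, sub_zero, phi_monomial, kap_pos (KP_tau hab), one_mul] at h1
  exact absurd h1 (pow_ne_zero _ (by norm_num))

theorem powI_low {d k : ℕ} (hd : 0 < d) {i : ℕ} (hi : i < d * k) {f : MvPolynomial (Fin n) ℂ}
    (hf : f.IsHomogeneous i) (hf2 : f ∈ powI n d k) : f = 0 := by
  by_contra hne
  obtain ⟨m, hm⟩ := ne_zero_iff.mp hne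
  have h1 := (mem_powI_iff hd k).mp hf2 m (mem_support_iff.mpr hm)
  have h2 := isHomogeneous_iff.mp hf m hm
  have h3 : d * ∑ l, m l / d ≤ ∑ l, m l := by
    rw [Finset.mul_sum]
    exact Finset.sum_le_sum fun l _ => Nat.mul_div_le (m l) d
  have h4 : d * k ≤ d * ∑ l, m l / d := Nat.mul_le_mul_left d h1
  omega

theorem injP_card {d k : ℕ} (hd : 2 ≤ d) (hk : 2 ≤ k)
    (h : InjP (powI n d k) (ell n) (d * k - 2) ((n - 2) * (d - 1) + 1)) :
    ((Finset.univ : Finset (Fin n)).finsuppAntidiag (d * k - 2)).card +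
      Fintype.card {p : Fin n × Fin n // p.1 < p.2} ≤
    (stdExp n d k (d * k - 1 + (n - 2) * (d - 1))).card := by
  set i := d * k - 2 with hi
  set j := (n - 2) * (d - 1) + 1 with hj
  set t := d * k - 1 + (n - 2) * (d - 1) with ht
  have hdk : d * 2 ≤ d * k := Nat.mul_le_mul_left d hk
  have htij : i + j = t := by omega
  let A := {m // m ∈ (Finset.univ : Finset (Fin n)).finsuppAntidiag i}
  let B := {m // m ∈ stdExp n d k t}
  let P := {p : Fin n × Fin n // p.1 < p.2}
  let toP : (A → ℂ) → MvPolynomial (Fin n) ℂ := fun c => ∑ α : A, c α • monomial α.1 (1 : ℂ)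
  have toP_coeff : ∀ (c : A → ℂ) (α : A), coeff α.1 (toP c) = c α := by
    intro c α
    simp only [toP, coeff_sum, coeff_smul, coeff_monomial]
    rw [Finset.sum_eq_single α]
    · simp
    · intro β _ hβ
      rw [if_neg (fun h => hβ (Subtype.ext h)), smul_zero]
    · intro h; exact absurd (Finset.mem_univ _) h
  have toP_hom : ∀ c : A → ℂ, (toP c).IsHomogeneous i := by
    intro c
    apply IsHomogeneous.sum
    intro α _
    apply (homogeneousSubmodule (Fin n) ℂ i).smul_mem
    apply isHomogeneous_monomial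
    rw [Finsupp.degree_eq_sum]
    exact (Finset.mem_finsuppAntidiag.mp α.2).1
  let Φ : (A → ℂ) →ₗ[ℂ] (B → ℂ) :=
    { toFun := fun c β => coeff β.1 (ell n ^ j * toP c)
      map_add' := by
        intro x y
        ext β
        simp only [toP, Pi.add_apply, add_smul, Finset.sum_add_distrib, mul_add, coeff_add]
      map_smul' := by
        intro r x
        ext β
        simp only [toP, Pi.smul_apply, smul_eq_mul, mul_smul, RingHom.id_apply]
        rw [← Finset.smul_sum, mul_smul_comm, coeff_smul, smul_eq_mul] }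
  let Ψ : (B → ℂ) →ₗ[ℂ] (P → ℂ) :=
    { toFun := fun v p => ∑ β : B, v β * kap p.1.1 p.1.2 (d * k - 1) (fun _ => d - 1) β.1
      map_add' := by
        intro x y
        ext p
        simp only [Pi.add_apply, add_mul, Finset.sum_add_distrib]
      map_smul' := by
        intro r x
        ext p
        simp only [Pi.smul_apply, smul_eq_mul, mul_assoc, RingHom.id_apply, Finset.mul_sum] }
  have hinj : Function.Injective Φ := by
    rw [← LinearMap.ker_eq_bot, LinearMap.ker_eq_bot']
    intro c hc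
    have h1 : ell n ^ j * toP c ∈ powI n d k := by
      rw [mem_powI_iff (by omega)]
      intro m hm
      by_contra hlt
      push Not at hlt
      have hdeg := isHomogeneous_iff.mp (ell_pow_mul_isHomogeneous (toP_hom c) j) m
        (mem_support_iff.mp hm)
      have hmB : m ∈ stdExp n d k t := mem_stdExp.mpr ⟨by omega, hlt⟩
      have := congrFun hc ⟨m, hmB⟩
      exact (mem_support_iff.mp hm) this
    have h2 := powI_low (by omega) (i := i) (by omega) (toP_hom c) (h _ (toP_hom c) h1)
    ext α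
    rw [← toP_coeff c α, h2]
    simp
  have hcomp : ∀ x, Ψ (Φ x) = 0 := by
    intro c
    ext p
    have hab : p.1.1 ≠ p.1.2 := ne_of_lt p.2
    show ∑ β : B, coeff β.1 (ell n ^ j * toP c) *
      kap p.1.1 p.1.2 (d * k - 1) (fun _ => d - 1) β.1 = 0
    rw [← phi_image hab (toP c), phi_eq_sum]
    have hs : ∑ β : B, coeff β.1 (ell n ^ j * toP c) *
        kap p.1.1 p.1.2 (d * k - 1) (fun _ => d - 1) β.1 =
        ∑ β ∈ stdExp n d k t, coeff β (ell n ^ j * toP c) *
        kap p.1.1 p.1.2 (d * k - 1) (fun _ => d - 1) β :=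
      Finset.sum_coe_sort (stdExp n d k t) (fun β => coeff β (ell n ^ j * toP c) *
        kap p.1.1 p.1.2 (d * k - 1) (fun _ => d - 1) β)
    rw [hs, Finset.sum_subset (Finset.subset_union_left (s₂ := (ell n ^ j * toP c).support)),
      ← Finset.sum_subset (Finset.subset_union_right (s₁ := stdExp n d k t))]
    · intro m _ hm
      rw [notMem_support_iff.mp hm, zero_mul]
    · intro m hm hm2
      rcases Finset.mem_union.mp hm with h3 | h3
      · exact absurd h3 hm2
      · rw [kap_neg, mul_zero]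
        intro hK
        apply hm2
        rw [mem_stdExp]
        exact ⟨KP_sum hab hK, KP_floor (by omega) (by omega) hab hK⟩
  have hsurj : Function.Surjective Ψ := by
    intro w
    have htau : ∀ p : P, tau d k p.1.1 p.1.2 ∈ stdExp n d k t := by
      intro p
      have hab : p.1.1 ≠ p.1.2 := ne_of_lt p.2
      rw [mem_stdExp]
      exact ⟨KP_sum hab (KP_tau hab), KP_floor (by omega) (by omega) hab (KP_tau hab)⟩
    let tb : P → B := fun p => ⟨tau d k p.1.1 p.1.2, htau p⟩
    have hΨ : ∀ p q : P, Ψ (Pi.single (tb p) 1) q =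
        if p = q then (-1) ^ (d * k - 1) else 0 := by
      intro p q
      show ∑ β : B, (Pi.single (tb p) 1 : B → ℂ) β *
        kap q.1.1 q.1.2 (d * k - 1) (fun _ => d - 1) β.1 = _
      rw [Finset.sum_eq_single (tb p)]
      · rw [Pi.single_eq_same, one_mul]
        split_ifs with hpq
        · subst hpq
          rw [kap_pos (KP_tau (ne_of_lt p.2))]
          simp [tau_apply]
        · rw [kap_neg]
          intro hK
          obtain ⟨h1, h2⟩ := KP_tau_eq hd hk p.2 q.2 hK
          exact hpq (Subtype.ext (Prod.ext h1 h2))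
      · intro β _ hβ
        rw [Pi.single_eq_of_ne hβ, zero_mul]
      · intro h; exact absurd (Finset.mem_univ _) h
    refine ⟨∑ p : P, (w p * (-1) ^ (d * k - 1)) • (Pi.single (tb p) 1 : B → ℂ), ?_⟩
    ext q
    rw [map_sum, Finset.sum_apply, Finset.sum_eq_single q]
    · rw [map_smul, Pi.smul_apply, hΨ, if_pos rfl, smul_eq_mul, mul_assoc, ← pow_add]
      rw [Even.neg_one_pow ⟨_, rfl⟩, mul_one]
    · intro p _ hp
      rw [map_smul, Pi.smul_apply, hΨ, if_neg hp, smul_zero]
    · intro h; exact absurd (Finset.mem_univ _) h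
  have := dimcount Φ Ψ hinj hsurj hcomp
  simpa [A, B, P] using this

end Pool.Agent.Lib_MP_8b82cd_ag
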