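import Mathlib
import Pool.Agent.Lib_MP_8b82cd_ag.Neg
import Pool.Agent.Lib_MP_8b82cd_ag.CI

/-!
The cases `n ≤ 2`, `d = 1`, `k = 1`.
-/

namespace Pool.Agent.Lib_MP_8b82cd_ag

open MvPolynomial

/-- functional attached to a univariate polynomial -/
noncomputable def phiP (p : Polynomial ℂ) : MvPolynomial (Fin 2) ℂ →ₗ[ℂ] ℂ :=
  (basisMonomials (Fin 2) ℂ).constr ℂ (fun m => (-1) ^ (m 0) * p.eval (m 0 : ℂ))

theorem phiP_monomial (p : Polynomial ℂ) (m : Fin 2 →₀ ℕ) (c : ℂ) :
    phiP p (monomial m c) = c * ((-1) ^ (m 0) * p.eval (m 0 : ℂ)) := by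
  have h1 : monomial m c = c • (basisMonomials (Fin 2) ℂ m) := by
    rw [coe_basisMonomials, smul_monomial, smul_eq_mul, mul_one]
  rw [h1, map_smul, phiP, Module.Basis.constr_basis, smul_eq_mul]

theorem phiP_eq_sum (p : Polynomial ℂ) (g : MvPolynomial (Fin 2) ℂ) :
    phiP p g = ∑ m ∈ g.support, coeff m g * ((-1) ^ (m 0) * p.eval (m 0 : ℂ)) := by
  conv_lhs => rw [g.as_sum]
  rw [map_sum]
  exact Finset.sum_congr rfl fun m _ => phiP_monomial p m _

theorem phiP_ell (p : Polynomial ℂ) (f : MvPolynomial (Fin 2) ℂ) :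
    phiP p (ell 2 * f) = phiP (p - Polynomial.taylor 1 p) f := by
  induction f using MvPolynomial.induction_on' with
  | monomial m c =>
    have h0 : (X 0 : MvPolynomial (Fin 2) ℂ) * monomial m c =
        monomial (Finsupp.single 0 1 + m) c := by
      rw [X, monomial_mul, one_mul]
    have h1 : (X 1 : MvPolynomial (Fin 2) ℂ) * monomial m c =
        monomial (Finsupp.single 1 1 + m) c := by
      rw [X, monomial_mul, one_mul]
    have e0 : (Finsupp.single 0 1 + m : Fin 2 →₀ ℕ) 0 = m 0 + 1 := by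
      simp; ring
    have e1 : (Finsupp.single 1 1 + m : Fin 2 →₀ ℕ) 0 = m 0 := by
      simp
    rw [ell, Fin.sum_univ_two, add_mul, map_add, h0, h1, phiP_monomial, phiP_monomial,
      phiP_monomial, e0, e1, Polynomial.eval_sub, Polynomial.taylor_eval]
    push_cast
    ring
  | add p q hp hq =>
    rw [mul_add, map_add, map_add, hp, hq]

theorem phiP_ell_pow : ∀ (j : ℕ) (p : Polynomial ℂ), p.degree < j →
    ∀ f : MvPolynomial (Fin 2) ℂ, phiP p (ell 2 ^ j * f) = 0 := by
  intro j
  induction j with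
  | zero =>
    intro p hp f
    have : p = 0 := by
      rw [← Polynomial.degree_eq_bot]
      exact Nat.WithBot.lt_zero_iff.mp (by simpa using hp)
    rw [this, phiP_eq_sum]
    simp
  | succ j ih =>
    intro p hp f
    have e : ell 2 ^ (j + 1) * f = ell 2 * (ell 2 ^ j * f) := by ring
    rw [e, phiP_ell]
    apply ih
    by_cases hp0 : p = 0
    · rw [hp0]
      simp
    · have h1 : (p - Polynomial.taylor 1 p).degree < p.degree :=
        Polynomial.degree_sub_lt_left (Polynomial.degree_taylor p 1).symm hp0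
          (Polynomial.leadingCoeff_taylor 1 p).symm
      have h2 : p.degree = (p.natDegree : WithBot ℕ) := Polynomial.degree_eq_natDegree hp0
      rw [h2] at hp h1
      have h3 : p.natDegree < j + 1 := by exact_mod_cast hp
      have h4 : (p.natDegree : WithBot ℕ) ≤ (j : WithBot ℕ) := by
        exact_mod_cast (by omega : p.natDegree ≤ j)
      exact lt_of_lt_of_le h1 h4

/-- monomials of degree `t` inside `(x_1^d, …, x_n^d)^k` -/
def inExp (n d k t : ℕ) : Finset (Fin n →₀ ℕ) :=
  (Finset.univ.finsuppAntidiag t).filter (fun m => ¬ ∑ i, m i / d < k)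

theorem mem_inExp {n d k t : ℕ} {m : Fin n →₀ ℕ} :
    m ∈ inExp n d k t ↔ ∑ i, m i = t ∧ k ≤ ∑ i, m i / d := by
  simp [inExp, Finset.mem_filter, Finset.mem_finsuppAntidiag]

theorem card_std_add_in (n d k t : ℕ) :
    (stdExp n d k t).card + (inExp n d k t).card =
      ((Finset.univ : Finset (Fin n)).finsuppAntidiag t).card := by
  rw [stdExp, inExp]
  exact Finset.card_filter_add_card_filter_not _

theorem node_inj {t : ℕ} {m m' : Fin 2 →₀ ℕ} (h : ∑ i, m i = t) (h' : ∑ i, m' i = t)
    (h0 : m 0 = m' 0) : m = m' := by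
  rw [Fin.sum_univ_two] at h h'
  ext i
  fin_cases i
  · exact h0
  · show m 1 = m' 1
    omega

/-- polynomial vanishing at the first exponents of a set of monomials -/
noncomputable def nodePoly (S : Finset (Fin 2 →₀ ℕ)) : Polynomial ℂ :=
  ∏ w ∈ S, (Polynomial.X - Polynomial.C ((w 0 : ℕ) : ℂ))

theorem nodePoly_degree (S : Finset (Fin 2 →₀ ℕ)) : (nodePoly S).degree = S.card := by
  unfold nodePoly
  rw [Polynomial.degree_prod]
  simp only [Polynomial.degree_X_sub_C, Finset.sum_const, nsmul_eq_mul, mul_one]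

theorem nodePoly_eval (S : Finset (Fin 2 →₀ ℕ)) (x : ℂ) :
    (nodePoly S).eval x = ∏ w ∈ S, (x - ((w 0 : ℕ) : ℂ)) := by
  unfold nodePoly
  rw [Polynomial.eval_prod]
  simp

theorem ell_ne_zero {n : ℕ} (hn : 0 < n) : ell n ≠ 0 := by
  intro h
  have h1 : coeff (Finsupp.single ⟨0, hn⟩ 1) (ell n) = 1 := by
    rw [ell, coeff_sum, Finset.sum_eq_single ⟨0, hn⟩]
    · simp
    · intro b _ hb
      rw [coeff_X, if_neg]
      intro h2
      exact hb (Finsupp.single_left_injective one_ne_zero h2)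
    · intro h; exact absurd (Finset.mem_univ _) h
  rw [h] at h1
  simp at h1

theorem card_antidiag_two (t : ℕ) :
    ((Finset.univ : Finset (Fin 2)).finsuppAntidiag t).card = t + 1 := by
  rw [Finset.card_finsuppAntidiag_nat_eq_choose]
  simp only [Finset.card_univ, Fintype.card_fin]
  have : 2 + t - 1 = t + 1 := by omega
  rw [this, Nat.choose_symm_of_eq_add (b := 1) rfl, Nat.choose_one_right]

theorem two_injP {d k : ℕ} (hd : 0 < d) {i j : ℕ} (h : (inExp 2 d k (i + j)).card ≤ j) :
    InjP (powI 2 d k) (ell 2) i j := by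
  intro f hf hJ
  have hgh := ell_pow_mul_isHomogeneous hf j
  set g := ell 2 ^ j * f with hg
  have hg0 : g = 0 := by
    by_contra hne
    obtain ⟨m, hm⟩ := ne_zero_iff.mp hne
    have hsub : ∀ m ∈ g.support, m ∈ inExp 2 d k (i + j) := by
      intro m hm
      rw [mem_inExp]
      exact ⟨isHomogeneous_iff.mp hgh m (mem_support_iff.mp hm),
        (mem_powI_iff hd k).mp hJ m hm⟩
    have hmR := hsub m (mem_support_iff.mpr hm)
    let p := nodePoly ((inExp 2 d k (i + j)).erase m)
    have hdeg : p.degree < j := by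
      rw [nodePoly_degree, Finset.card_erase_of_mem hmR]
      have : 0 < (inExp 2 d k (i + j)).card := Finset.card_pos.mpr ⟨m, hmR⟩
      exact_mod_cast (by omega : (inExp 2 d k (i + j)).card - 1 < j)
    have h1 := phiP_ell_pow j p hdeg f
    rw [← hg, phiP_eq_sum, Finset.sum_eq_single m] at h1
    · rw [nodePoly_eval] at h1
      rcases mul_eq_zero.mp h1 with h2 | h2
      · exact hm h2
      · rcases mul_eq_zero.mp h2 with h3 | h3
        · exact absurd h3 (pow_ne_zero _ (by norm_num))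
        · obtain ⟨w, hw, hw2⟩ := Finset.prod_eq_zero_iff.mp h3
          have hw3 : m 0 = w 0 := by
            have := sub_eq_zero.mp hw2
            exact_mod_cast this
          have hwR := Finset.mem_of_mem_erase hw
          exact Finset.ne_of_mem_erase hw
            (node_inj (mem_inExp.mp hwR).1 (mem_inExp.mp hmR).1 hw3.symm)
    · intro b hb hbm
      have hbR := hsub b hb
      rw [nodePoly_eval, Finset.prod_eq_zero (i := b) (Finset.mem_erase.mpr ⟨hbm, hbR⟩)]
      · ring
      · ring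
    · intro h2; exact absurd (mem_support_iff.mpr hm) h2
  have hf0 : f = 0 := by
    rcases mul_eq_zero.mp (hg ▸ hg0) with h1 | h1
    · exact absurd h1 (pow_ne_zero _ (ell_ne_zero two_pos))
    · exact h1
  rw [hf0]
  exact (powI 2 d k).zero_mem

/-- abstract surjectivity by dimension count -/
theorem dimsurj {A V R P : Type} [Fintype A] [Fintype V] [Fintype R] [Fintype P]
    (Φ : (A → ℂ) →ₗ[ℂ] (V → ℂ)) (Θ : (A → ℂ) →ₗ[ℂ] (R → ℂ)) (Ψ : (R → ℂ) →ₗ[ℂ] (P → ℂ))
    (hinj : ∀ x, Φ x = 0 → Θ x = 0 → x = 0) (hsurj : Function.Surjective Ψ)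
    (hcomp : ∀ x, Φ x = 0 → Ψ (Θ x) = 0)
    (hcard : Fintype.card V + Fintype.card R = Fintype.card A + Fintype.card P) :
    Function.Surjective Φ := by
  have h1 : Module.finrank ℂ (LinearMap.ker Φ) ≤ Module.finrank ℂ (LinearMap.ker Ψ) := by
    let F : LinearMap.ker Φ →ₗ[ℂ] LinearMap.ker Ψ :=
      LinearMap.codRestrict _ (Θ.comp (LinearMap.ker Φ).subtype) (fun x => hcomp x.1 x.2)
    apply LinearMap.finrank_le_finrank_of_injective (f := F)
    rw [← LinearMap.ker_eq_bot, LinearMap.ker_eq_bot']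
    intro x hx
    have h2 : Θ x.1 = 0 := congrArg Subtype.val hx
    exact Subtype.ext (hinj x.1 x.2 h2)
  have h2 := LinearMap.finrank_range_add_finrank_ker Φ
  have h3 := LinearMap.finrank_range_add_finrank_ker Ψ
  have h4 : LinearMap.range Ψ = ⊤ := LinearMap.range_eq_top.mpr hsurj
  rw [h4, finrank_top] at h3
  simp only [Module.finrank_fintype_fun_eq_card] at h2 h3
  rw [← LinearMap.range_eq_top]
  apply Submodule.eq_top_of_finrank_eq
  rw [Module.finrank_fintype_fun_eq_card]
  have h5 : Module.finrank ℂ (LinearMap.range Φ) ≤ Fintype.card V := by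
    have := Submodule.finrank_le (LinearMap.range Φ)
    rwa [Module.finrank_fintype_fun_eq_card] at this
  omega

/-- the polynomial with given coefficients in degree `i` -/
noncomputable def toPoly (n i : ℕ) :
    ({m // m ∈ (Finset.univ : Finset (Fin n)).finsuppAntidiag i} → ℂ) →ₗ[ℂ]
      MvPolynomial (Fin n) ℂ where
  toFun c := ∑ α, c α • monomial α.1 (1 : ℂ)
  map_add' := by
    intro x y
    simp only [Pi.add_apply, add_smul, Finset.sum_add_distrib]
  map_smul' := by
    intro r x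
    simp only [Pi.smul_apply, smul_eq_mul, mul_smul, RingHom.id_apply]
    rw [← Finset.smul_sum]

theorem toPoly_coeff {n i : ℕ}
    (c : {m // m ∈ (Finset.univ : Finset (Fin n)).finsuppAntidiag i} → ℂ)
    (α : {m // m ∈ (Finset.univ : Finset (Fin n)).finsuppAntidiag i}) :
    coeff α.1 (toPoly n i c) = c α := by
  show coeff α.1 (∑ α, c α • monomial α.1 (1 : ℂ)) = c α
  simp only [coeff_sum, coeff_smul, coeff_monomial]
  rw [Finset.sum_eq_single α]
  · simp
  · intro β _ hβ
    rw [if_neg (fun h => hβ (Subtype.ext h)), smul_zero]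
  · intro h; exact absurd (Finset.mem_univ _) h

theorem toPoly_hom {n i : ℕ}
    (c : {m // m ∈ (Finset.univ : Finset (Fin n)).finsuppAntidiag i} → ℂ) :
    (toPoly n i c).IsHomogeneous i := by
  apply IsHomogeneous.sum
  intro α _
  apply (homogeneousSubmodule (Fin n) ℂ i).smul_mem
  apply isHomogeneous_monomial
  rw [Finsupp.degree_eq_sum]
  exact (Finset.mem_finsuppAntidiag.mp α.2).1

/-- coefficients in a finite set of monomials -/
noncomputable def coefMap {n : ℕ} (S : Finset (Fin n →₀ ℕ)) :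
    MvPolynomial (Fin n) ℂ →ₗ[ℂ] ({m // m ∈ S} → ℂ) where
  toFun f := fun β => coeff β.1 f
  map_add' := by intro x y; ext β; simp
  map_smul' := by intro r x; ext β; simp

theorem two_surjP {d k : ℕ} (hd : 0 < d) {i j : ℕ} (h : j ≤ (inExp 2 d k (i + j)).card) :
    SurjP (powI 2 d k) (ell 2) i j := by
  obtain ⟨R', hR', hR'c⟩ := Finset.exists_subset_card_eq h
  let E := (toPoly 2 i)
  let M := LinearMap.mulLeft ℂ (ell 2 ^ j)
  let Φ := (coefMap (stdExp 2 d k (i + j))).comp (M.comp E)
  let Θ := (coefMap (inExp 2 d k (i + j))).comp (M.comp E)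
  let Ψ : ({m // m ∈ inExp 2 d k (i + j)} → ℂ) →ₗ[ℂ] ({w // w ∈ R'} → ℂ) :=
    { toFun := fun v w => ∑ β, v β * ((-1) ^ (β.1 0) *
        (nodePoly (R'.erase w.1)).eval ((β.1 0 : ℕ) : ℂ))
      map_add' := by
        intro x y
        ext p
        simp only [Pi.add_apply, add_mul, Finset.sum_add_distrib]
      map_smul' := by
        intro r x
        ext p
        simp only [Pi.smul_apply, smul_eq_mul, mul_assoc, RingHom.id_apply, Finset.mul_sum] }
  have hΦ : ∀ c, ∀ β : {m // m ∈ stdExp 2 d k (i + j)},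
      Φ c β = coeff β.1 (ell 2 ^ j * E c) := fun c β => rfl
  have hΘ : ∀ c, ∀ β : {m // m ∈ inExp 2 d k (i + j)},
      Θ c β = coeff β.1 (ell 2 ^ j * E c) := fun c β => rfl
  have hΦs : Function.Surjective Φ := by
    apply dimsurj Φ Θ Ψ
    · intro c h1 h2
      have h3 : ell 2 ^ j * E c = 0 := by
        by_contra hne
        obtain ⟨m, hm⟩ := ne_zero_iff.mp hne
        have hdeg := isHomogeneous_iff.mp (ell_pow_mul_isHomogeneous (toPoly_hom c) j) m hm
        rcases Nat.lt_or_ge (∑ l, m l / d) k with h4 | h4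
        · exact hm (congrFun h1 ⟨m, mem_stdExp.mpr ⟨hdeg, h4⟩⟩)
        · exact hm (congrFun h2 ⟨m, mem_inExp.mpr ⟨hdeg, h4⟩⟩)
      have h4 : E c = 0 := by
        rcases mul_eq_zero.mp h3 with h5 | h5
        · exact absurd h5 (pow_ne_zero _ (ell_ne_zero two_pos))
        · exact h5
      ext α
      rw [← toPoly_coeff c α]
      show coeff α.1 (E c) = 0
      rw [h4, coeff_zero]
    · intro w
      let tb : {w // w ∈ R'} → {m // m ∈ inExp 2 d k (i + j)} := fun w => ⟨w.1, hR' w.2⟩
      have hnode : ∀ p q : {w // w ∈ R'}, p ≠ q →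
          (nodePoly (R'.erase q.1)).eval ((p.1 0 : ℕ) : ℂ) = 0 := by
        intro p q hpq
        rw [nodePoly_eval]
        apply Finset.prod_eq_zero (i := p.1)
        · exact Finset.mem_erase.mpr ⟨fun h => hpq (Subtype.ext h), p.2⟩
        · ring
      have hnode2 : ∀ p : {w // w ∈ R'},
          (nodePoly (R'.erase p.1)).eval ((p.1 0 : ℕ) : ℂ) ≠ 0 := by
        intro p h0
        rw [nodePoly_eval] at h0
        obtain ⟨w, hw, hw2⟩ := Finset.prod_eq_zero_iff.mp h0
        have hw3 : p.1 0 = w 0 := by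
          have := sub_eq_zero.mp hw2
          exact_mod_cast this
        have hwR := hR' (Finset.mem_of_mem_erase hw)
        exact Finset.ne_of_mem_erase hw
          (node_inj (mem_inExp.mp hwR).1 (mem_inExp.mp (hR' p.2)).1 hw3.symm)
      have hΨ : ∀ p q : {w // w ∈ R'}, Ψ (Pi.single (tb p) 1) q =
          (-1) ^ (p.1 0) * (nodePoly (R'.erase q.1)).eval ((p.1 0 : ℕ) : ℂ) := by
        intro p q
        show ∑ β, (Pi.single (tb p) 1 : {m // m ∈ inExp 2 d k (i + j)} → ℂ) β *
          ((-1) ^ (β.1 0) * (nodePoly (R'.erase q.1)).eval ((β.1 0 : ℕ) : ℂ)) = _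
        rw [Finset.sum_eq_single (tb p)]
        · rw [Pi.single_eq_same, one_mul]
        · intro β _ hβ
          rw [Pi.single_eq_of_ne hβ, zero_mul]
        · intro h; exact absurd (Finset.mem_univ _) h
      refine ⟨∑ p : {w // w ∈ R'}, (w p * ((-1) ^ (p.1 0) *
        (nodePoly (R'.erase p.1)).eval ((p.1 0 : ℕ) : ℂ))⁻¹) •
          (Pi.single (tb p) 1 : {m // m ∈ inExp 2 d k (i + j)} → ℂ), ?_⟩
      ext q
      rw [map_sum, Finset.sum_apply, Finset.sum_eq_single q]
      · rw [map_smul, Pi.smul_apply, hΨ, smul_eq_mul, mul_assoc, inv_mul_cancel₀, mul_one]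
        exact mul_ne_zero (pow_ne_zero _ (by norm_num)) (hnode2 q)
      · intro p _ hp
        rw [map_smul, Pi.smul_apply, hΨ, hnode p q hp, mul_zero, smul_zero]
      · intro h; exact absurd (Finset.mem_univ _) h
    · intro c h1
      ext w
      have hdeg : (nodePoly (R'.erase w.1)).degree < j := by
        rw [nodePoly_degree, Finset.card_erase_of_mem w.2]
        have : 0 < R'.card := Finset.card_pos.mpr ⟨w.1, w.2⟩
        exact_mod_cast (by omega : R'.card - 1 < j)
      have h2 := phiP_ell_pow j _ hdeg (E c)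
      rw [phiP_eq_sum] at h2
      show ∑ β : {m // m ∈ inExp 2 d k (i + j)}, coeff β.1 (ell 2 ^ j * E c) * ((-1) ^ (β.1 0) *
        (nodePoly (R'.erase w.1)).eval ((β.1 0 : ℕ) : ℂ)) = 0
      rw [← h2]
      have hs : ∑ β : {m // m ∈ inExp 2 d k (i + j)}, coeff β.1 (ell 2 ^ j * E c) *
          ((-1) ^ (β.1 0) * (nodePoly (R'.erase w.1)).eval ((β.1 0 : ℕ) : ℂ)) =
          ∑ β ∈ inExp 2 d k (i + j), coeff β (ell 2 ^ j * E c) *
          ((-1) ^ (β 0) * (nodePoly (R'.erase w.1)).eval ((β 0 : ℕ) : ℂ)) :=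
        Finset.sum_coe_sort (inExp 2 d k (i + j)) (fun β => coeff β (ell 2 ^ j * E c) *
          ((-1) ^ (β 0) * (nodePoly (R'.erase w.1)).eval ((β 0 : ℕ) : ℂ)))
      rw [hs]
      symm
      apply Finset.sum_subset
      · intro m hm
        have hm' := mem_support_iff.mp hm
        have hd2 := isHomogeneous_iff.mp (ell_pow_mul_isHomogeneous (toPoly_hom c) j) m hm'
        rcases Nat.lt_or_ge (∑ l, m l / d) k with h4 | h4
        · exact absurd (congrFun h1 ⟨m, mem_stdExp.mpr ⟨hd2, h4⟩⟩) hm'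
        · exact mem_inExp.mpr ⟨hd2, h4⟩
      · intro m _ hm
        rw [notMem_support_iff.mp hm, zero_mul]
    · simp only [Fintype.card_coe]
      rw [card_std_add_in, card_antidiag_two, card_antidiag_two, hR'c]
      omega
  intro g hg
  obtain ⟨c, hc⟩ := hΦs (coefMap (stdExp 2 d k (i + j)) g)
  refine ⟨E c, toPoly_hom c, ?_⟩
  rw [mem_powI_iff hd]
  intro m hm
  by_contra hlt
  push Not at hlt
  have hm' := mem_support_iff.mp hm
  have hdeg := isHomogeneous_iff.mp (hg.sub (ell_pow_mul_isHomogeneous (toPoly_hom c) j)) m hm'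
  have h1 := congrFun hc ⟨m, mem_stdExp.mpr ⟨hdeg, hlt⟩⟩
  apply hm'
  rw [coeff_sub]
  have h2 : coeff m (ell 2 ^ j * E c) = coeff m g := h1
  rw [h2, sub_self]

/-- `n = 2` -/
theorem two_all {d k : ℕ} (hd : 0 < d) (i j : ℕ) :
    InjP (powI 2 d k) (ell 2) i j ∨ SurjP (powI 2 d k) (ell 2) i j := by
  rcases Nat.le_total (inExp 2 d k (i + j)).card j with h | h
  · exact Or.inl (two_injP hd h)
  · exact Or.inr (two_surjP hd h)

/-- `k = 1` -/
theorem k_one_all {n d : ℕ} (hd : 0 < d) (i j : ℕ) :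
    InjP (powI n d 1) (ell n) i j ∨ SurjP (powI n d 1) (ell n) i j := by
  have h : powI n d 1 = ciI (fun _ : Fin n => d) := by unfold powI ciI; rw [pow_one]
  rw [h]
  have hs : n * (d - 1) + n = ∑ _i : Fin n, d := by
    obtain ⟨e, rfl⟩ : ∃ e, d = e + 1 := ⟨d - 1, by omega⟩
    simp; ring
  rcases Nat.le_total (2 * i + j) (n * (d - 1)) with h1 | h1
  · exact Or.inl (ci_injP _ _ hs h1)
  · exact Or.inr (ci_surjP _ _ hs h1)

/-- `n = 1` -/
theorem n_one_all {d k : ℕ} (hd : 0 < d) (hk : 0 < k) (i j : ℕ) :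
    InjP (powI 1 d k) (ell 1) i j ∨ SurjP (powI 1 d k) (ell 1) i j := by
  have h : powI 1 d k = ciI (fun _ : Fin 1 => d * k) := by
    ext f
    rw [mem_powI_iff hd, mem_ciI_iff]
    apply forall_congr'; intro m
    apply imp_congr_right; intro _
    simp only [Fin.sum_univ_one, Fin.exists_fin_one]
    rw [Nat.le_div_iff_mul_le hd, mul_comm]
  rw [h]
  have hs : (d * k - 1) + 1 = ∑ _i : Fin 1, d * k := by
    have : 0 < d * k := Nat.mul_pos hd hk
    simp; omega
  rcases Nat.le_total (2 * i + j) (d * k - 1) with h1 | h1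
  · exact Or.inl (ci_injP _ _ hs h1)
  · exact Or.inr (ci_surjP _ _ hs h1)

/-- `d = 1` -/
theorem d_one_all {n k : ℕ} (hn : 0 < n) (i j : ℕ) :
    InjP (powI n 1 k) (ell n) i j ∨ SurjP (powI n 1 k) (ell n) i j := by
  rcases Nat.lt_or_ge (i + j) k with h | h
  · left
    intro f hf hJ
    have h1 := powI_low one_pos (i := i + j) (by omega) (ell_pow_mul_isHomogeneous hf j) hJ
    rcases mul_eq_zero.mp h1 with h2 | h2
    · exact absurd h2 (pow_ne_zero _ (ell_ne_zero hn))
    · rw [h2]; exact Ideal.zero_mem _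
  · right
    intro g hg
    refine ⟨0, isHomogeneous_zero _ _ _, ?_⟩
    rw [mul_zero, sub_zero, mem_powI_iff one_pos]
    intro m hm
    have := isHomogeneous_iff.mp hg m (mem_support_iff.mp hm)
    simp only [Nat.div_one]
    omega

end Pool.Agent.Lib_MP_8b82cd_ag
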