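import Mathlib
import Pool.Agent.Lib_MP_8b82cd_ag.Neg

/-!
Counting: the strong Lefschetz property fails for `T_{n,d,k}`, `n ≥ 3`, `d, k ≥ 2`, with the
exception of `d = k = 2` and `n = 3`, `{d, k} = {2, 3}`.
-/

namespace Pool.Agent.Lib_MP_8b82cd_ag

open MvPolynomial

variable {n : ℕ}

theorem std_card_le {d k : ℕ} (hn : 2 ≤ n) (hd : 2 ≤ d) (hk : 2 ≤ k) :
    (stdExp n d k (d * k - 1 + (n - 2) * (d - 1))).card ≤
      ((Finset.univ : Finset (Fin n)).finsuppAntidiag (k - 1)).card *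
      ((Finset.univ : Finset (Fin n)).finsuppAntidiag (d - 1)).card := by
  rw [← Finset.card_product]
  let F : (Fin n →₀ ℕ) → (Fin n →₀ ℕ) × (Fin n →₀ ℕ) := fun m =>
    (Finsupp.equivFunOnFinite.symm (fun c => m c / d),
      Finsupp.equivFunOnFinite.symm (fun c => d - 1 - m c % d))
  apply Finset.card_le_card_of_injOn F
  · intro m hm
    obtain ⟨h1, h2⟩ := mem_stdExp.mp hm
    have h3 : ∑ c, m c = d * ∑ c, m c / d + ∑ c, m c % d := by
      rw [Finset.mul_sum, ← Finset.sum_add_distrib]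
      exact Finset.sum_congr rfl fun c _ => (Nat.div_add_mod (m c) d).symm
    have h4 : ∑ c : Fin n, (d - 1 - m c % d) + ∑ c, m c % d = n * (d - 1) := by
      rw [← Finset.sum_add_distrib]
      rw [Finset.sum_congr rfl (g := fun _ => d - 1)]
      · simp
      · intro c _
        have := Nat.mod_lt (m c) (by omega : 0 < d)
        omega
    obtain ⟨N, rfl⟩ : ∃ N, n = N + 2 := ⟨n - 2, by omega⟩
    obtain ⟨e, rfl⟩ : ∃ e, d = e + 1 := ⟨d - 1, by omega⟩
    obtain ⟨l, rfl⟩ : ∃ l, k = l + 1 := ⟨k - 1, by omega⟩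
    simp only [Nat.add_sub_cancel] at h1 h4 ⊢
    have h5 : (e + 1) * (l + 1) = (e + 1) * l + e + 1 := by ring
    have h6 : (N + 2) * e = N * e + 2 * e := by ring
    have hq : ∑ c, m c / (e + 1) = l := by
      apply le_antisymm (by omega)
      by_contra hlt
      push Not at hlt
      have h7 : (e + 1) * (∑ c, m c / (e + 1) + 1) ≤ (e + 1) * l := Nat.mul_le_mul_left _ hlt
      have h8 : (e + 1) * (∑ c, m c / (e + 1) + 1) = (e + 1) * (∑ c, m c / (e + 1)) + e + 1 := by
        ring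
      omega
    have hr : ∑ c : Fin (N + 2), (e - m c % (e + 1)) = e := by
      rw [hq] at h3
      omega
    simp only [F, Finset.coe_product, Set.mem_prod, Finset.mem_coe, Finset.mem_finsuppAntidiag,
      Finsupp.equivFunOnFinite_symm_apply_apply, Nat.add_sub_cancel]
    exact ⟨⟨hq, Finset.subset_univ _⟩, ⟨hr, Finset.subset_univ _⟩⟩
  · intro m1 _ m2 _ h
    have h1 := congrArg Prod.fst h
    have h2 := congrArg Prod.snd h
    ext c
    have h3 : m1 c / d = m2 c / d := by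
      have := DFunLike.congr_fun h1 c
      simpa [F] using this
    have h4 : d - 1 - m1 c % d = d - 1 - m2 c % d := by
      have := DFunLike.congr_fun h2 c
      simpa [F] using this
    have h5 := Nat.mod_lt (m1 c) (by omega : 0 < d)
    have h6 := Nat.mod_lt (m2 c) (by omega : 0 < d)
    have h7 : m1 c % d = m2 c % d := by omega
    rw [← Nat.div_add_mod (m1 c) d, ← Nat.div_add_mod (m2 c) d, h3, h7]

theorem growth {a b : ℕ} (hab : 2 ≤ a * b) (N : ℕ) (hN : 1 ≤ N)
    (h : (N + a).choose N * (N + b).choose N ≤ (N + (a * b + a + b - 1)).choose N) :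
    (N + 1 + a).choose (N + 1) * (N + 1 + b).choose (N + 1) ≤
      (N + 1 + (a * b + a + b - 1)).choose (N + 1) := by
  obtain ⟨i, hi⟩ : ∃ i, a * b + a + b = i + 1 := ⟨a * b + a + b - 1, by omega⟩
  rw [hi, Nat.add_sub_cancel] at h ⊢
  have e1 := Nat.add_one_mul_choose_eq (N + a) N
  have e2 := Nat.add_one_mul_choose_eq (N + b) N
  have e3 := Nat.add_one_mul_choose_eq (N + i) N
  have f1 : N + 1 + a = N + a + 1 := by ring
  have f2 : N + 1 + b = N + b + 1 := by ring
  have f3 : N + 1 + i = N + i + 1 := by ring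
  rw [f1, f2, f3]
  set A := (N + a).choose N
  set B := (N + b).choose N
  set C := (N + i).choose N
  set A' := (N + a + 1).choose (N + 1)
  set B' := (N + b + 1).choose (N + 1)
  set C' := (N + i + 1).choose (N + 1)
  have key : (N + a + 1) * (N + b + 1) ≤ (N + 1) * (N + i + 1) := by
    have h1 : (N + a + 1) * (N + b + 1) = (N + 1) * (N + 1) + (N + 1) * (a + b) + a * b := by ring
    have h2 : (N + 1) * (N + i + 1) = (N + 1) * N + (N + 1) * (i + 1) := by ring
    rw [h1, h2, ← hi]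
    have h3 : (N + 1) * (a * b + a + b) = N * (a * b) + a * b + (N + 1) * (a + b) := by ring
    have h4 : N * 2 ≤ N * (a * b) := Nat.mul_le_mul_left N hab
    nlinarith
  have h5 : (A' * B') * ((N + 1) * (N + 1)) ≤ C' * ((N + 1) * (N + 1)) := by
    calc (A' * B') * ((N + 1) * (N + 1)) = (A' * (N + 1)) * (B' * (N + 1)) := by ring
      _ = ((N + a + 1) * A) * ((N + b + 1) * B) := by rw [← e1, ← e2]
      _ = ((N + a + 1) * (N + b + 1)) * (A * B) := by ring
      _ ≤ ((N + 1) * (N + i + 1)) * C := Nat.mul_le_mul key h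
      _ = (N + 1) * ((N + i + 1) * C) := by ring
      _ = (N + 1) * (C' * (N + 1)) := by rw [e3]
      _ = C' * ((N + 1) * (N + 1)) := by ring
  exact Nat.le_of_mul_le_mul_right h5 (by positivity)

theorem growth_from {a b : ℕ} (hab : 2 ≤ a * b) (N0 : ℕ) (hN0 : 1 ≤ N0)
    (h : (N0 + a).choose N0 * (N0 + b).choose N0 ≤ (N0 + (a * b + a + b - 1)).choose N0)
    (N : ℕ) (hN : N0 ≤ N) :
    (N + a).choose N * (N + b).choose N ≤ (N + (a * b + a + b - 1)).choose N := by
  induction N, hN using Nat.le_induction with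
  | base => exact h
  | succ N hN ih => exact growth hab N (by omega) ih

theorem base_two {a b : ℕ} (hab : 4 ≤ a * b) :
    (2 + a).choose 2 * (2 + b).choose 2 ≤ (2 + (a * b + a + b - 1)).choose 2 := by
  obtain ⟨i, hi⟩ : ∃ i, a * b + a + b = i + 1 := ⟨a * b + a + b - 1, by omega⟩
  rw [hi, Nat.add_sub_cancel]
  have hc : ∀ x : ℕ, (2 + x).choose 2 * 2 = (x + 1) * (x + 2) := by
    intro x
    have e := Nat.add_one_mul_choose_eq (x + 1) 1
    simp only [Nat.choose_one_right] at e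
    have f : 2 + x = x + 1 + 1 := by ring
    rw [f, ← e]
    ring
  have h1 := hc a
  have h2 := hc b
  have h3 := hc i
  have h4 : (2 + a).choose 2 * (2 + b).choose 2 * 4 ≤ (2 + i).choose 2 * 4 := by
    calc (2 + a).choose 2 * (2 + b).choose 2 * 4 = ((2 + a).choose 2 * 2) * ((2 + b).choose 2 * 2) := by
          ring
      _ = ((a + 1) * (a + 2)) * ((b + 1) * (b + 2)) := by rw [h1, h2]
      _ = (a * b + a + b + 1) * (a * b + 2 * a + 2 * b + 4) := by ring
      _ ≤ (a * b + a + b + 1) * (2 * (a * b + a + b)) := Nat.mul_le_mul_left _ (by omega)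
      _ = (i + 2) * (2 * (i + 1)) := by rw [hi]
      _ = ((i + 1) * (i + 2)) * 2 := by ring
      _ = ((2 + i).choose 2 * 2) * 2 := by rw [h3]
      _ = (2 + i).choose 2 * 4 := by ring
  omega

/-- the numerical inequality -/
theorem num_ineq {a b : ℕ} (ha : 1 ≤ a) (hb : 1 ≤ b) (n : ℕ) (hn : 3 ≤ n)
    (h1 : ¬ (a = 1 ∧ b = 1)) (h2 : ¬ (n = 3 ∧ a = 1 ∧ b = 2)) (h3 : ¬ (n = 3 ∧ a = 2 ∧ b = 1)) :
    (n + a - 1).choose a * (n + b - 1).choose b <
      (n + (a * b + a + b - 1) - 1).choose (a * b + a + b - 1) +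
        Fintype.card {p : Fin n × Fin n // p.1 < p.2} := by
  obtain ⟨N, rfl⟩ : ∃ N, n = N + 1 := ⟨n - 1, by omega⟩
  have hsym : ∀ x : ℕ, (N + 1 + x - 1).choose x = (N + x).choose N := by
    intro x
    have : N + 1 + x - 1 = N + x := by omega
    rw [this, Nat.choose_symm_add]
  rw [hsym, hsym, hsym]
  have hP : 1 ≤ Fintype.card {p : Fin (N + 1) × Fin (N + 1) // p.1 < p.2} := by
    apply Fintype.card_pos_iff.mpr
    exact ⟨⟨(⟨0, by omega⟩, ⟨1, by omega⟩), Nat.zero_lt_one⟩⟩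
  have hab : 2 ≤ a * b := by
    rcases Nat.lt_or_ge a 2 with h | h
    · have : a = 1 := by omega
      subst this
      have : b ≠ 1 := fun h' => h1 ⟨rfl, h'⟩
      omega
    · calc 2 = 2 * 1 := by ring
        _ ≤ a * b := Nat.mul_le_mul h hb
  rcases Nat.lt_or_ge (a * b) 4 with h4 | h4
  · -- small cases
    have hcases : (a = 1 ∧ b = 2) ∨ (a = 2 ∧ b = 1) ∨ (a = 1 ∧ b = 3) ∨ (a = 3 ∧ b = 1) := by
      have ha4 : a < 4 := by nlinarith
      have hb4 : b < 4 := by nlinarith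
      interval_cases a <;> interval_cases b <;> simp_all
    rcases Nat.lt_or_ge N 5 with hN | hN
    · have hN2 : 2 ≤ N := by omega
      rcases hcases with ⟨rfl, rfl⟩ | ⟨rfl, rfl⟩ | ⟨rfl, rfl⟩ | ⟨rfl, rfl⟩ <;>
        interval_cases N <;> first | (exfalso; omega) | decide
    · have h5 : (N + a).choose N * (N + b).choose N ≤ (N + (a * b + a + b - 1)).choose N := by
        apply growth_from hab 5 (by omega) _ N hN
        rcases hcases with ⟨rfl, rfl⟩ | ⟨rfl, rfl⟩ | ⟨rfl, rfl⟩ | ⟨rfl, rfl⟩ <;> decide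
      omega
  · have h5 := growth_from hab 2 (by omega) (base_two h4) N (by omega)
    omega

theorem not_injP {d k : ℕ} (hn : 3 ≤ n) (hd : 2 ≤ d) (hk : 2 ≤ k) (h1 : ¬ (d = 2 ∧ k = 2))
    (h2 : ¬ (n = 3 ∧ d = 2 ∧ k = 3)) (h3 : ¬ (n = 3 ∧ d = 3 ∧ k = 2)) :
    ¬ InjP (powI n d k) (ell n) (d * k - 2) ((n - 2) * (d - 1) + 1) := by
  intro h
  have h4 := injP_card hd hk h
  have h5 := std_card_le (by omega : 2 ≤ n) hd hk
  rw [Finset.card_finsuppAntidiag_nat_eq_choose, Finset.card_finsuppAntidiag_nat_eq_choose] at h5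
  rw [Finset.card_finsuppAntidiag_nat_eq_choose] at h4
  simp only [Finset.card_univ, Fintype.card_fin] at h4 h5
  obtain ⟨b, rfl⟩ : ∃ b, d = b + 1 := ⟨d - 1, by omega⟩
  obtain ⟨a, rfl⟩ : ∃ a, k = a + 1 := ⟨k - 1, by omega⟩
  have h6 := num_ineq (a := a) (b := b) (by omega) (by omega) n hn (by omega) (by omega) (by omega)
  simp only [Nat.add_sub_cancel] at h4 h5
  have h7 : (b + 1) * (a + 1) - 2 = a * b + a + b - 1 := by
    have : (b + 1) * (a + 1) = a * b + a + b + 1 := by ring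
    omega
  rw [h7] at h4
  omega

end Pool.Agent.Lib_MP_8b82cd_ag
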