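import Mathlib
import Pool.Agent.Lib_MP_8b82cd_ag.N2

/-!
The two sporadic cases `T_{3,2,3}` and `T_{3,3,2}`: explicit certificates.
-/

namespace Pool.Agent.Lib_MP_8b82cd_ag

open MvPolynomial

/-- exponent vector in three variables -/
noncomputable def mk3 (a b c : ℕ) : Fin 3 →₀ ℕ := Finsupp.equivFunOnFinite.symm ![a, b, c]

theorem mk3_zero (a b c : ℕ) : mk3 a b c 0 = a := rfl
theorem mk3_one (a b c : ℕ) : mk3 a b c 1 = b := rfl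
theorem mk3_two (a b c : ℕ) : mk3 a b c 2 = c := rfl

theorem mk3_eta (m : Fin 3 →₀ ℕ) : m = mk3 (m 0) (m 1) (m 2) := by
  ext i
  fin_cases i <;> rfl

theorem mk3_add0 (a b c : ℕ) : mk3 a b c + Finsupp.single 0 1 = mk3 (a + 1) b c := by
  ext i
  fin_cases i <;> simp [mk3]

theorem mk3_add1 (a b c : ℕ) : mk3 a b c + Finsupp.single 1 1 = mk3 a (b + 1) c := by
  ext i
  fin_cases i <;> simp [mk3]

theorem mk3_add2 (a b c : ℕ) : mk3 a b c + Finsupp.single 2 1 = mk3 a b (c + 1) := by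
  ext i
  fin_cases i <;> simp [mk3]

theorem monomial_mk3 (a b c : ℕ) :
    monomial (mk3 a b c) (1 : ℂ) = X 0 ^ a * X 1 ^ b * X 2 ^ c := by
  simp only [X_pow_eq_monomial, monomial_mul, mul_one]
  have e : mk3 a b c = Finsupp.single 0 a + Finsupp.single 1 b + Finsupp.single 2 c := by
    ext i
    fin_cases i <;> simp [mk3]
  rw [e]

theorem coeff_ell3 (f : MvPolynomial (Fin 3) ℂ) (a b c : ℕ) :
    coeff (mk3 a b c) (ell 3 * f) =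
      (if a = 0 then 0 else coeff (mk3 (a - 1) b c) f) +
      (if b = 0 then 0 else coeff (mk3 a (b - 1) c) f) +
      (if c = 0 then 0 else coeff (mk3 a b (c - 1)) f) := by
  classical
  rw [ell, Fin.sum_univ_three, add_mul, add_mul, coeff_add, coeff_add, coeff_X_mul', coeff_X_mul',
    coeff_X_mul']
  simp only [Finsupp.mem_support_iff, mk3_zero, mk3_one, mk3_two]
  congr 1
  · congr 1
    · by_cases h : a = 0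
      · simp [h]
      · rw [if_pos h, if_neg h]
        congr 1
        ext i
        fin_cases i <;> simp [mk3]
    · by_cases h : b = 0
      · simp [h]
      · rw [if_pos h, if_neg h]
        congr 1
        ext i
        fin_cases i <;> simp [mk3]
  · by_cases h : c = 0
    · simp [h]
    · rw [if_pos h, if_neg h]
      congr 1
      ext i
      fin_cases i <;> simp [mk3]

theorem hterm {x y z : MvPolynomial (Fin 3) ℂ} (hx : x.IsHomogeneous 1) (hy : y.IsHomogeneous 1)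
    (hz : z.IsHomogeneous 1) (N : ℤ) (a b c i : ℕ) (h : a + b + c = i) :
    ((N : MvPolynomial (Fin 3) ℂ) * (x ^ a * y ^ b * z ^ c)).IsHomogeneous i := by
  have e : (N : MvPolynomial (Fin 3) ℂ) = C (N : ℂ) :=
    (map_intCast (C : ℂ →+* MvPolynomial (Fin 3) ℂ) N).symm
  rw [e]
  apply IsHomogeneous.C_mul
  have := ((hx.pow a).mul (hy.pow b)).mul (hz.pow c)
  convert this using 1
  omega

theorem img_of_nat_mul {J : Ideal (MvPolynomial (Fin 3) ℂ)} {L g : MvPolynomial (Fin 3) ℂ}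
    {i j : ℕ} (N : ℕ) (hN : N ≠ 0) (h : (N : MvPolynomial (Fin 3) ℂ) * g ∈ Img J L i j) :
    g ∈ Img J L i j := by
  have h1 := Submodule.smul_mem _ ((N : ℂ)⁻¹) h
  have e : (N : MvPolynomial (Fin 3) ℂ) = C (N : ℂ) :=
    (map_natCast (C : ℂ →+* MvPolynomial (Fin 3) ℂ) N).symm
  rw [e, MvPolynomial.smul_eq_C_mul, ← mul_assoc, ← map_mul, inv_mul_cancel₀, map_one, one_mul] at h1
  · exact h1
  · exact_mod_cast hN

theorem s23_511 {J : Ideal (MvPolynomial (Fin 3) ℂ)} {x y z : MvPolynomial (Fin 3) ℂ}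
    (hx : x.IsHomogeneous 1) (hy : y.IsHomogeneous 1) (hz : z.IsHomogeneous 1)
    (hJ : ∀ a b c : ℕ, a + b + c = 3 → x ^ (2 * a) * y ^ (2 * b) * z ^ (2 * c) ∈ J) :
    x ^ 5 * y ^ 1 * z ^ 1 ∈ Img J (x + y + z) 2 5 := by
  apply img_of_nat_mul 112 (by norm_num)
  refine ⟨(((8 : ℤ) : MvPolynomial (Fin 3) ℂ) * (x ^ 2 * y ^ 0 * z ^ 0)) +
      (((-5 : ℤ) : MvPolynomial (Fin 3) ℂ) * (x ^ 1 * y ^ 1 * z ^ 0)) +
      (((-5 : ℤ) : MvPolynomial (Fin 3) ℂ) * (x ^ 1 * y ^ 0 * z ^ 1)) +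
      (((1 : ℤ) : MvPolynomial (Fin 3) ℂ) * (x ^ 0 * y ^ 2 * z ^ 0)) +
      (((2 : ℤ) : MvPolynomial (Fin 3) ℂ) * (x ^ 0 * y ^ 1 * z ^ 1)) +
      (((1 : ℤ) : MvPolynomial (Fin 3) ℂ) * (x ^ 0 * y ^ 0 * z ^ 2)), ?_, ?_⟩
  · repeat' apply IsHomogeneous.add
    all_goals exact hterm hx hy hz _ _ _ _ _ rfl
  · have e : ((112 : ℕ) : MvPolynomial (Fin 3) ℂ) * (x ^ 5 * y ^ 1 * z ^ 1) - (x + y + z) ^ 5 * (
      (((8 : ℤ) : MvPolynomial (Fin 3) ℂ) * (x ^ 2 * y ^ 0 * z ^ 0)) +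
      (((-5 : ℤ) : MvPolynomial (Fin 3) ℂ) * (x ^ 1 * y ^ 1 * z ^ 0)) +
      (((-5 : ℤ) : MvPolynomial (Fin 3) ℂ) * (x ^ 1 * y ^ 0 * z ^ 1)) +
      (((1 : ℤ) : MvPolynomial (Fin 3) ℂ) * (x ^ 0 * y ^ 2 * z ^ 0)) +
      (((2 : ℤ) : MvPolynomial (Fin 3) ℂ) * (x ^ 0 * y ^ 1 * z ^ 1)) +
      (((1 : ℤ) : MvPolynomial (Fin 3) ℂ) * (x ^ 0 * y ^ 0 * z ^ 2))) =
        ((-8) * (x ^ 1 * y ^ 0 * z ^ 0) + (-35) * (x ^ 0 * y ^ 1 * z ^ 0) + (-35) * (x ^ 0 * y ^ 0 * z ^ 1)) * (x ^ (2 * 3) * y ^ (2 * 0) * z ^ (2 * 0)) +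
        ((-56) * (x ^ 1 * y ^ 0 * z ^ 0) + (-35) * (x ^ 0 * y ^ 1 * z ^ 0) + (-105) * (x ^ 0 * y ^ 0 * z ^ 1)) * (x ^ (2 * 2) * y ^ (2 * 1) * z ^ (2 * 0)) +
        ((-56) * (x ^ 1 * y ^ 0 * z ^ 0) + (-105) * (x ^ 0 * y ^ 1 * z ^ 0) + (-35) * (x ^ 0 * y ^ 0 * z ^ 1)) * (x ^ (2 * 2) * y ^ (2 * 0) * z ^ (2 * 1)) +
        ((7) * (x ^ 0 * y ^ 1 * z ^ 0) + (35) * (x ^ 0 * y ^ 0 * z ^ 1)) * (x ^ (2 * 1) * y ^ (2 * 2) * z ^ (2 * 0)) +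
        ((70) * (x ^ 0 * y ^ 1 * z ^ 0) + (70) * (x ^ 0 * y ^ 0 * z ^ 1)) * (x ^ (2 * 1) * y ^ (2 * 1) * z ^ (2 * 1)) +
        ((35) * (x ^ 0 * y ^ 1 * z ^ 0) + (7) * (x ^ 0 * y ^ 0 * z ^ 1)) * (x ^ (2 * 1) * y ^ (2 * 0) * z ^ (2 * 2)) +
        ((-1) * (x ^ 0 * y ^ 1 * z ^ 0) + (-7) * (x ^ 0 * y ^ 0 * z ^ 1)) * (x ^ (2 * 0) * y ^ (2 * 3) * z ^ (2 * 0)) +
        ((-21) * (x ^ 0 * y ^ 1 * z ^ 0) + (-35) * (x ^ 0 * y ^ 0 * z ^ 1)) * (x ^ (2 * 0) * y ^ (2 * 2) * z ^ (2 * 1)) +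
        ((-35) * (x ^ 0 * y ^ 1 * z ^ 0) + (-21) * (x ^ 0 * y ^ 0 * z ^ 1)) * (x ^ (2 * 0) * y ^ (2 * 1) * z ^ (2 * 2)) +
        ((-7) * (x ^ 0 * y ^ 1 * z ^ 0) + (-1) * (x ^ 0 * y ^ 0 * z ^ 1)) * (x ^ (2 * 0) * y ^ (2 * 0) * z ^ (2 * 3)) := by
      push_cast
      ring
    rw [e]
    repeat' apply J.add_mem
    all_goals exact J.mul_mem_left _ (hJ _ _ _ rfl)

theorem s23_331 {J : Ideal (MvPolynomial (Fin 3) ℂ)} {x y z : MvPolynomial (Fin 3) ℂ}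
    (hx : x.IsHomogeneous 1) (hy : y.IsHomogeneous 1) (hz : z.IsHomogeneous 1)
    (hJ : ∀ a b c : ℕ, a + b + c = 3 → x ^ (2 * a) * y ^ (2 * b) * z ^ (2 * c) ∈ J) :
    x ^ 3 * y ^ 3 * z ^ 1 ∈ Img J (x + y + z) 2 5 := by
  apply img_of_nat_mul 560 (by norm_num)
  refine ⟨(((-6 : ℤ) : MvPolynomial (Fin 3) ℂ) * (x ^ 2 * y ^ 0 * z ^ 0)) +
      (((30 : ℤ) : MvPolynomial (Fin 3) ℂ) * (x ^ 1 * y ^ 1 * z ^ 0)) +
      (((-5 : ℤ) : MvPolynomial (Fin 3) ℂ) * (x ^ 1 * y ^ 0 * z ^ 1)) +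
      (((-6 : ℤ) : MvPolynomial (Fin 3) ℂ) * (x ^ 0 * y ^ 2 * z ^ 0)) +
      (((-5 : ℤ) : MvPolynomial (Fin 3) ℂ) * (x ^ 0 * y ^ 1 * z ^ 1)) +
      (((1 : ℤ) : MvPolynomial (Fin 3) ℂ) * (x ^ 0 * y ^ 0 * z ^ 2)), ?_, ?_⟩
  · repeat' apply IsHomogeneous.add
    all_goals exact hterm hx hy hz _ _ _ _ _ rfl
  · have e : ((560 : ℕ) : MvPolynomial (Fin 3) ℂ) * (x ^ 3 * y ^ 3 * z ^ 1) - (x + y + z) ^ 5 * (
      (((-6 : ℤ) : MvPolynomial (Fin 3) ℂ) * (x ^ 2 * y ^ 0 * z ^ 0)) +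
      (((30 : ℤ) : MvPolynomial (Fin 3) ℂ) * (x ^ 1 * y ^ 1 * z ^ 0)) +
      (((-5 : ℤ) : MvPolynomial (Fin 3) ℂ) * (x ^ 1 * y ^ 0 * z ^ 1)) +
      (((-6 : ℤ) : MvPolynomial (Fin 3) ℂ) * (x ^ 0 * y ^ 2 * z ^ 0)) +
      (((-5 : ℤ) : MvPolynomial (Fin 3) ℂ) * (x ^ 0 * y ^ 1 * z ^ 1)) +
      (((1 : ℤ) : MvPolynomial (Fin 3) ℂ) * (x ^ 0 * y ^ 0 * z ^ 2))) =
        ((6) * (x ^ 1 * y ^ 0 * z ^ 0) + (35) * (x ^ 0 * y ^ 0 * z ^ 1)) * (x ^ (2 * 3) * y ^ (2 * 0) * z ^ (2 * 0)) +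
        ((-84) * (x ^ 1 * y ^ 0 * z ^ 0) + (-210) * (x ^ 0 * y ^ 1 * z ^ 0) + (-315) * (x ^ 0 * y ^ 0 * z ^ 1)) * (x ^ (2 * 2) * y ^ (2 * 1) * z ^ (2 * 0)) +
        ((84) * (x ^ 1 * y ^ 0 * z ^ 0) + (105) * (x ^ 0 * y ^ 0 * z ^ 1)) * (x ^ (2 * 2) * y ^ (2 * 0) * z ^ (2 * 1)) +
        ((-210) * (x ^ 1 * y ^ 0 * z ^ 0) + (-84) * (x ^ 0 * y ^ 1 * z ^ 0) + (-315) * (x ^ 0 * y ^ 0 * z ^ 1)) * (x ^ (2 * 1) * y ^ (2 * 2) * z ^ (2 * 0)) +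
        ((-420) * (x ^ 1 * y ^ 0 * z ^ 0) + (-420) * (x ^ 0 * y ^ 1 * z ^ 0) + (-210) * (x ^ 0 * y ^ 0 * z ^ 1)) * (x ^ (2 * 1) * y ^ (2 * 1) * z ^ (2 * 1)) +
        ((70) * (x ^ 1 * y ^ 0 * z ^ 0) + (21) * (x ^ 0 * y ^ 0 * z ^ 1)) * (x ^ (2 * 1) * y ^ (2 * 0) * z ^ (2 * 2)) +
        ((6) * (x ^ 0 * y ^ 1 * z ^ 0) + (35) * (x ^ 0 * y ^ 0 * z ^ 1)) * (x ^ (2 * 0) * y ^ (2 * 3) * z ^ (2 * 0)) +
        ((84) * (x ^ 0 * y ^ 1 * z ^ 0) + (105) * (x ^ 0 * y ^ 0 * z ^ 1)) * (x ^ (2 * 0) * y ^ (2 * 2) * z ^ (2 * 1)) +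
        ((70) * (x ^ 0 * y ^ 1 * z ^ 0) + (21) * (x ^ 0 * y ^ 0 * z ^ 1)) * (x ^ (2 * 0) * y ^ (2 * 1) * z ^ (2 * 2)) +
        ((-1) * (x ^ 0 * y ^ 0 * z ^ 1)) * (x ^ (2 * 0) * y ^ (2 * 0) * z ^ (2 * 3)) := by
      push_cast
      ring
    rw [e]
    repeat' apply J.add_mem
    all_goals exact J.mul_mem_left _ (hJ _ _ _ rfl)

theorem s23_510 {J : Ideal (MvPolynomial (Fin 3) ℂ)} {x y z : MvPolynomial (Fin 3) ℂ}
    (hx : x.IsHomogeneous 1) (hy : y.IsHomogeneous 1) (hz : z.IsHomogeneous 1)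
    (hJ : ∀ a b c : ℕ, a + b + c = 3 → x ^ (2 * a) * y ^ (2 * b) * z ^ (2 * c) ∈ J) :
    x ^ 5 * y ^ 1 * z ^ 0 ∈ Img J (x + y + z) 5 1 := by
  apply img_of_nat_mul 2 (by norm_num)
  refine ⟨(((1 : ℤ) : MvPolynomial (Fin 3) ℂ) * (x ^ 5 * y ^ 0 * z ^ 0)) +
      (((1 : ℤ) : MvPolynomial (Fin 3) ℂ) * (x ^ 4 * y ^ 1 * z ^ 0)) +
      (((-1 : ℤ) : MvPolynomial (Fin 3) ℂ) * (x ^ 4 * y ^ 0 * z ^ 1)), ?_, ?_⟩
  · repeat' apply IsHomogeneous.add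
    all_goals exact hterm hx hy hz _ _ _ _ _ rfl
  · have e : ((2 : ℕ) : MvPolynomial (Fin 3) ℂ) * (x ^ 5 * y ^ 1 * z ^ 0) - (x + y + z) ^ 1 * (
      (((1 : ℤ) : MvPolynomial (Fin 3) ℂ) * (x ^ 5 * y ^ 0 * z ^ 0)) +
      (((1 : ℤ) : MvPolynomial (Fin 3) ℂ) * (x ^ 4 * y ^ 1 * z ^ 0)) +
      (((-1 : ℤ) : MvPolynomial (Fin 3) ℂ) * (x ^ 4 * y ^ 0 * z ^ 1))) =
        ((-1) * (x ^ 0 * y ^ 0 * z ^ 0)) * (x ^ (2 * 3) * y ^ (2 * 0) * z ^ (2 * 0)) +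
        ((-1) * (x ^ 0 * y ^ 0 * z ^ 0)) * (x ^ (2 * 2) * y ^ (2 * 1) * z ^ (2 * 0)) +
        ((1) * (x ^ 0 * y ^ 0 * z ^ 0)) * (x ^ (2 * 2) * y ^ (2 * 0) * z ^ (2 * 1)) := by
      push_cast
      ring
    rw [e]
    repeat' apply J.add_mem
    all_goals exact J.mul_mem_left _ (hJ _ _ _ rfl)

theorem s23_411 {J : Ideal (MvPolynomial (Fin 3) ℂ)} {x y z : MvPolynomial (Fin 3) ℂ}
    (hx : x.IsHomogeneous 1) (hy : y.IsHomogeneous 1) (hz : z.IsHomogeneous 1)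
    (hJ : ∀ a b c : ℕ, a + b + c = 3 → x ^ (2 * a) * y ^ (2 * b) * z ^ (2 * c) ∈ J) :
    x ^ 4 * y ^ 1 * z ^ 1 ∈ Img J (x + y + z) 5 1 := by
  apply img_of_nat_mul 2 (by norm_num)
  refine ⟨(((-1 : ℤ) : MvPolynomial (Fin 3) ℂ) * (x ^ 5 * y ^ 0 * z ^ 0)) +
      (((1 : ℤ) : MvPolynomial (Fin 3) ℂ) * (x ^ 4 * y ^ 1 * z ^ 0)) +
      (((1 : ℤ) : MvPolynomial (Fin 3) ℂ) * (x ^ 4 * y ^ 0 * z ^ 1)), ?_, ?_⟩
  · repeat' apply IsHomogeneous.add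
    all_goals exact hterm hx hy hz _ _ _ _ _ rfl
  · have e : ((2 : ℕ) : MvPolynomial (Fin 3) ℂ) * (x ^ 4 * y ^ 1 * z ^ 1) - (x + y + z) ^ 1 * (
      (((-1 : ℤ) : MvPolynomial (Fin 3) ℂ) * (x ^ 5 * y ^ 0 * z ^ 0)) +
      (((1 : ℤ) : MvPolynomial (Fin 3) ℂ) * (x ^ 4 * y ^ 1 * z ^ 0)) +
      (((1 : ℤ) : MvPolynomial (Fin 3) ℂ) * (x ^ 4 * y ^ 0 * z ^ 1))) =
        ((1) * (x ^ 0 * y ^ 0 * z ^ 0)) * (x ^ (2 * 3) * y ^ (2 * 0) * z ^ (2 * 0)) +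
        ((-1) * (x ^ 0 * y ^ 0 * z ^ 0)) * (x ^ (2 * 2) * y ^ (2 * 1) * z ^ (2 * 0)) +
        ((-1) * (x ^ 0 * y ^ 0 * z ^ 0)) * (x ^ (2 * 2) * y ^ (2 * 0) * z ^ (2 * 1)) := by
      push_cast
      ring
    rw [e]
    repeat' apply J.add_mem
    all_goals exact J.mul_mem_left _ (hJ _ _ _ rfl)

theorem s23_330 {J : Ideal (MvPolynomial (Fin 3) ℂ)} {x y z : MvPolynomial (Fin 3) ℂ}
    (hx : x.IsHomogeneous 1) (hy : y.IsHomogeneous 1) (hz : z.IsHomogeneous 1)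
    (hJ : ∀ a b c : ℕ, a + b + c = 3 → x ^ (2 * a) * y ^ (2 * b) * z ^ (2 * c) ∈ J) :
    x ^ 3 * y ^ 3 * z ^ 0 ∈ Img J (x + y + z) 5 1 := by
  apply img_of_nat_mul 2 (by norm_num)
  refine ⟨(((1 : ℤ) : MvPolynomial (Fin 3) ℂ) * (x ^ 3 * y ^ 2 * z ^ 0)) +
      (((1 : ℤ) : MvPolynomial (Fin 3) ℂ) * (x ^ 2 * y ^ 3 * z ^ 0)) +
      (((-1 : ℤ) : MvPolynomial (Fin 3) ℂ) * (x ^ 2 * y ^ 2 * z ^ 1)), ?_, ?_⟩
  · repeat' apply IsHomogeneous.add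
    all_goals exact hterm hx hy hz _ _ _ _ _ rfl
  · have e : ((2 : ℕ) : MvPolynomial (Fin 3) ℂ) * (x ^ 3 * y ^ 3 * z ^ 0) - (x + y + z) ^ 1 * (
      (((1 : ℤ) : MvPolynomial (Fin 3) ℂ) * (x ^ 3 * y ^ 2 * z ^ 0)) +
      (((1 : ℤ) : MvPolynomial (Fin 3) ℂ) * (x ^ 2 * y ^ 3 * z ^ 0)) +
      (((-1 : ℤ) : MvPolynomial (Fin 3) ℂ) * (x ^ 2 * y ^ 2 * z ^ 1))) =
        ((-1) * (x ^ 0 * y ^ 0 * z ^ 0)) * (x ^ (2 * 2) * y ^ (2 * 1) * z ^ (2 * 0)) +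
        ((-1) * (x ^ 0 * y ^ 0 * z ^ 0)) * (x ^ (2 * 1) * y ^ (2 * 2) * z ^ (2 * 0)) +
        ((1) * (x ^ 0 * y ^ 0 * z ^ 0)) * (x ^ (2 * 1) * y ^ (2 * 1) * z ^ (2 * 1)) := by
      push_cast
      ring
    rw [e]
    repeat' apply J.add_mem
    all_goals exact J.mul_mem_left _ (hJ _ _ _ rfl)

theorem s23_321 {J : Ideal (MvPolynomial (Fin 3) ℂ)} {x y z : MvPolynomial (Fin 3) ℂ}
    (hx : x.IsHomogeneous 1) (hy : y.IsHomogeneous 1) (hz : z.IsHomogeneous 1)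
    (hJ : ∀ a b c : ℕ, a + b + c = 3 → x ^ (2 * a) * y ^ (2 * b) * z ^ (2 * c) ∈ J) :
    x ^ 3 * y ^ 2 * z ^ 1 ∈ Img J (x + y + z) 5 1 := by
  apply img_of_nat_mul 2 (by norm_num)
  refine ⟨(((1 : ℤ) : MvPolynomial (Fin 3) ℂ) * (x ^ 3 * y ^ 2 * z ^ 0)) +
      (((-1 : ℤ) : MvPolynomial (Fin 3) ℂ) * (x ^ 2 * y ^ 3 * z ^ 0)) +
      (((1 : ℤ) : MvPolynomial (Fin 3) ℂ) * (x ^ 2 * y ^ 2 * z ^ 1)), ?_, ?_⟩
  · repeat' apply IsHomogeneous.add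
    all_goals exact hterm hx hy hz _ _ _ _ _ rfl
  · have e : ((2 : ℕ) : MvPolynomial (Fin 3) ℂ) * (x ^ 3 * y ^ 2 * z ^ 1) - (x + y + z) ^ 1 * (
      (((1 : ℤ) : MvPolynomial (Fin 3) ℂ) * (x ^ 3 * y ^ 2 * z ^ 0)) +
      (((-1 : ℤ) : MvPolynomial (Fin 3) ℂ) * (x ^ 2 * y ^ 3 * z ^ 0)) +
      (((1 : ℤ) : MvPolynomial (Fin 3) ℂ) * (x ^ 2 * y ^ 2 * z ^ 1))) =
        ((-1) * (x ^ 0 * y ^ 0 * z ^ 0)) * (x ^ (2 * 2) * y ^ (2 * 1) * z ^ (2 * 0)) +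
        ((1) * (x ^ 0 * y ^ 0 * z ^ 0)) * (x ^ (2 * 1) * y ^ (2 * 2) * z ^ (2 * 0)) +
        ((-1) * (x ^ 0 * y ^ 0 * z ^ 0)) * (x ^ (2 * 1) * y ^ (2 * 1) * z ^ (2 * 1)) := by
      push_cast
      ring
    rw [e]
    repeat' apply J.add_mem
    all_goals exact J.mul_mem_left _ (hJ _ _ _ rfl)

theorem s32_522 {J : Ideal (MvPolynomial (Fin 3) ℂ)} {x y z : MvPolynomial (Fin 3) ℂ}
    (hx : x.IsHomogeneous 1) (hy : y.IsHomogeneous 1) (hz : z.IsHomogeneous 1)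
    (hJ : ∀ a b c : ℕ, a + b + c = 2 → x ^ (3 * a) * y ^ (3 * b) * z ^ (3 * c) ∈ J) :
    x ^ 5 * y ^ 2 * z ^ 2 ∈ Img J (x + y + z) 1 8 := by
  apply img_of_nat_mul 2268 (by norm_num)
  refine ⟨(((7 : ℤ) : MvPolynomial (Fin 3) ℂ) * (x ^ 1 * y ^ 0 * z ^ 0)) +
      (((-2 : ℤ) : MvPolynomial (Fin 3) ℂ) * (x ^ 0 * y ^ 1 * z ^ 0)) +
      (((-2 : ℤ) : MvPolynomial (Fin 3) ℂ) * (x ^ 0 * y ^ 0 * z ^ 1)), ?_, ?_⟩
  · repeat' apply IsHomogeneous.add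
    all_goals exact hterm hx hy hz _ _ _ _ _ rfl
  · have e : ((2268 : ℕ) : MvPolynomial (Fin 3) ℂ) * (x ^ 5 * y ^ 2 * z ^ 2) - (x + y + z) ^ 8 * (
      (((7 : ℤ) : MvPolynomial (Fin 3) ℂ) * (x ^ 1 * y ^ 0 * z ^ 0)) +
      (((-2 : ℤ) : MvPolynomial (Fin 3) ℂ) * (x ^ 0 * y ^ 1 * z ^ 0)) +
      (((-2 : ℤ) : MvPolynomial (Fin 3) ℂ) * (x ^ 0 * y ^ 0 * z ^ 1))) =
        ((-7) * (x ^ 3 * y ^ 0 * z ^ 0) + (-54) * (x ^ 2 * y ^ 1 * z ^ 0) + (-54) * (x ^ 2 * y ^ 0 * z ^ 1) + (-180) * (x ^ 1 * y ^ 2 * z ^ 0) + (-360) * (x ^ 1 * y ^ 1 * z ^ 1) + (-180) * (x ^ 1 * y ^ 0 * z ^ 2) + (-336) * (x ^ 0 * y ^ 3 * z ^ 0) + (-1008) * (x ^ 0 * y ^ 2 * z ^ 1) + (-1008) * (x ^ 0 * y ^ 1 * z ^ 2) + (-336) * (x ^ 0 * y ^ 0 * z ^ 3)) * (x ^ (3 * 2) * y ^ (3 * 0) * z ^ (3 * 0)) +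
        ((-378) * (x ^ 2 * y ^ 1 * z ^ 0) + (-1512) * (x ^ 2 * y ^ 0 * z ^ 1) + (-252) * (x ^ 1 * y ^ 2 * z ^ 0) + (-1260) * (x ^ 1 * y ^ 1 * z ^ 1) + (-2520) * (x ^ 1 * y ^ 0 * z ^ 2) + (-84) * (x ^ 0 * y ^ 3 * z ^ 0) + (-504) * (x ^ 0 * y ^ 2 * z ^ 1) + (-1260) * (x ^ 0 * y ^ 1 * z ^ 2) + (-1680) * (x ^ 0 * y ^ 0 * z ^ 3)) * (x ^ (3 * 1) * y ^ (3 * 1) * z ^ (3 * 0)) +
        ((-1512) * (x ^ 2 * y ^ 1 * z ^ 0) + (-378) * (x ^ 2 * y ^ 0 * z ^ 1) + (-2520) * (x ^ 1 * y ^ 2 * z ^ 0) + (-1260) * (x ^ 1 * y ^ 1 * z ^ 1) + (-252) * (x ^ 1 * y ^ 0 * z ^ 2) + (-1260) * (x ^ 0 * y ^ 2 * z ^ 1) + (-504) * (x ^ 0 * y ^ 1 * z ^ 2) + (-84) * (x ^ 0 * y ^ 0 * z ^ 3)) * (x ^ (3 * 1) * y ^ (3 * 0) * z ^ (3 * 1)) +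
        ((9) * (x ^ 1 * y ^ 2 * z ^ 0) + (72) * (x ^ 1 * y ^ 1 * z ^ 1) + (252) * (x ^ 1 * y ^ 0 * z ^ 2) + (2) * (x ^ 0 * y ^ 3 * z ^ 0) + (18) * (x ^ 0 * y ^ 2 * z ^ 1) + (72) * (x ^ 0 * y ^ 1 * z ^ 2) + (168) * (x ^ 0 * y ^ 0 * z ^ 3)) * (x ^ (3 * 0) * y ^ (3 * 2) * z ^ (3 * 0)) +
        ((504) * (x ^ 1 * y ^ 2 * z ^ 0) + (630) * (x ^ 1 * y ^ 1 * z ^ 1) + (504) * (x ^ 1 * y ^ 0 * z ^ 2) + (252) * (x ^ 0 * y ^ 2 * z ^ 1) + (252) * (x ^ 0 * y ^ 1 * z ^ 2) + (168) * (x ^ 0 * y ^ 0 * z ^ 3)) * (x ^ (3 * 0) * y ^ (3 * 1) * z ^ (3 * 1)) +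
        ((252) * (x ^ 1 * y ^ 2 * z ^ 0) + (72) * (x ^ 1 * y ^ 1 * z ^ 1) + (9) * (x ^ 1 * y ^ 0 * z ^ 2) + (72) * (x ^ 0 * y ^ 2 * z ^ 1) + (18) * (x ^ 0 * y ^ 1 * z ^ 2) + (2) * (x ^ 0 * y ^ 0 * z ^ 3)) * (x ^ (3 * 0) * y ^ (3 * 0) * z ^ (3 * 2)) := by
      push_cast
      ring
    rw [e]
    repeat' apply J.add_mem
    all_goals exact J.mul_mem_left _ (hJ _ _ _ rfl)

theorem s32_422 {J : Ideal (MvPolynomial (Fin 3) ℂ)} {x y z : MvPolynomial (Fin 3) ℂ}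
    (hx : x.IsHomogeneous 1) (hy : y.IsHomogeneous 1) (hz : z.IsHomogeneous 1)
    (hJ : ∀ a b c : ℕ, a + b + c = 2 → x ^ (3 * a) * y ^ (3 * b) * z ^ (3 * c) ∈ J) :
    x ^ 4 * y ^ 2 * z ^ 2 ∈ Img J (x + y + z) 3 5 := by
  apply img_of_nat_mul 1890 (by norm_num)
  refine ⟨(((-102 : ℤ) : MvPolynomial (Fin 3) ℂ) * (x ^ 3 * y ^ 0 * z ^ 0)) +
      (((125 : ℤ) : MvPolynomial (Fin 3) ℂ) * (x ^ 2 * y ^ 1 * z ^ 0)) +
      (((125 : ℤ) : MvPolynomial (Fin 3) ℂ) * (x ^ 2 * y ^ 0 * z ^ 1)) +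
      (((-25 : ℤ) : MvPolynomial (Fin 3) ℂ) * (x ^ 1 * y ^ 2 * z ^ 0)) +
      (((-120 : ℤ) : MvPolynomial (Fin 3) ℂ) * (x ^ 1 * y ^ 1 * z ^ 1)) +
      (((-25 : ℤ) : MvPolynomial (Fin 3) ℂ) * (x ^ 1 * y ^ 0 * z ^ 2)) +
      (((35 : ℤ) : MvPolynomial (Fin 3) ℂ) * (x ^ 0 * y ^ 2 * z ^ 1)) +
      (((35 : ℤ) : MvPolynomial (Fin 3) ℂ) * (x ^ 0 * y ^ 1 * z ^ 2)), ?_, ?_⟩
  · repeat' apply IsHomogeneous.add
    all_goals exact hterm hx hy hz _ _ _ _ _ rfl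
  · have e : ((1890 : ℕ) : MvPolynomial (Fin 3) ℂ) * (x ^ 4 * y ^ 2 * z ^ 2) - (x + y + z) ^ 5 * (
      (((-102 : ℤ) : MvPolynomial (Fin 3) ℂ) * (x ^ 3 * y ^ 0 * z ^ 0)) +
      (((125 : ℤ) : MvPolynomial (Fin 3) ℂ) * (x ^ 2 * y ^ 1 * z ^ 0)) +
      (((125 : ℤ) : MvPolynomial (Fin 3) ℂ) * (x ^ 2 * y ^ 0 * z ^ 1)) +
      (((-25 : ℤ) : MvPolynomial (Fin 3) ℂ) * (x ^ 1 * y ^ 2 * z ^ 0)) +
      (((-120 : ℤ) : MvPolynomial (Fin 3) ℂ) * (x ^ 1 * y ^ 1 * z ^ 1)) +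
      (((-25 : ℤ) : MvPolynomial (Fin 3) ℂ) * (x ^ 1 * y ^ 0 * z ^ 2)) +
      (((35 : ℤ) : MvPolynomial (Fin 3) ℂ) * (x ^ 0 * y ^ 2 * z ^ 1)) +
      (((35 : ℤ) : MvPolynomial (Fin 3) ℂ) * (x ^ 0 * y ^ 1 * z ^ 2))) =
        ((102) * (x ^ 2 * y ^ 0 * z ^ 0) + (385) * (x ^ 1 * y ^ 1 * z ^ 0) + (385) * (x ^ 1 * y ^ 0 * z ^ 1) + (420) * (x ^ 0 * y ^ 2 * z ^ 0) + (910) * (x ^ 0 * y ^ 1 * z ^ 1) + (420) * (x ^ 0 * y ^ 0 * z ^ 2)) * (x ^ (3 * 2) * y ^ (3 * 0) * z ^ (3 * 0)) +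
        ((-105) * (x ^ 2 * y ^ 0 * z ^ 0) + (-490) * (x ^ 1 * y ^ 1 * z ^ 0) + (-1435) * (x ^ 1 * y ^ 0 * z ^ 1) + (-273) * (x ^ 0 * y ^ 2 * z ^ 0) + (-1015) * (x ^ 0 * y ^ 1 * z ^ 1) + (-1680) * (x ^ 0 * y ^ 0 * z ^ 2)) * (x ^ (3 * 1) * y ^ (3 * 1) * z ^ (3 * 0)) +
        ((-105) * (x ^ 2 * y ^ 0 * z ^ 0) + (-1435) * (x ^ 1 * y ^ 1 * z ^ 0) + (-490) * (x ^ 1 * y ^ 0 * z ^ 1) + (-1680) * (x ^ 0 * y ^ 2 * z ^ 0) + (-1015) * (x ^ 0 * y ^ 1 * z ^ 1) + (-273) * (x ^ 0 * y ^ 0 * z ^ 2)) * (x ^ (3 * 1) * y ^ (3 * 0) * z ^ (3 * 1)) +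
        ((25) * (x ^ 1 * y ^ 1 * z ^ 0) + (70) * (x ^ 1 * y ^ 0 * z ^ 1) + (-35) * (x ^ 0 * y ^ 1 * z ^ 1) + (-210) * (x ^ 0 * y ^ 0 * z ^ 2)) * (x ^ (3 * 0) * y ^ (3 * 2) * z ^ (3 * 0)) +
        ((-175) * (x ^ 1 * y ^ 1 * z ^ 0) + (-175) * (x ^ 1 * y ^ 0 * z ^ 1) + (-525) * (x ^ 0 * y ^ 2 * z ^ 0) + (-700) * (x ^ 0 * y ^ 1 * z ^ 1) + (-525) * (x ^ 0 * y ^ 0 * z ^ 2)) * (x ^ (3 * 0) * y ^ (3 * 1) * z ^ (3 * 1)) +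
        ((70) * (x ^ 1 * y ^ 1 * z ^ 0) + (25) * (x ^ 1 * y ^ 0 * z ^ 1) + (-210) * (x ^ 0 * y ^ 2 * z ^ 0) + (-35) * (x ^ 0 * y ^ 1 * z ^ 1)) * (x ^ (3 * 0) * y ^ (3 * 0) * z ^ (3 * 2)) := by
      push_cast
      ring
    rw [e]
    repeat' apply J.add_mem
    all_goals exact J.mul_mem_left _ (hJ _ _ _ rfl)

theorem s32_521 {J : Ideal (MvPolynomial (Fin 3) ℂ)} {x y z : MvPolynomial (Fin 3) ℂ}
    (hx : x.IsHomogeneous 1) (hy : y.IsHomogeneous 1) (hz : z.IsHomogeneous 1)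
    (hJ : ∀ a b c : ℕ, a + b + c = 2 → x ^ (3 * a) * y ^ (3 * b) * z ^ (3 * c) ∈ J) :
    x ^ 5 * y ^ 2 * z ^ 1 ∈ Img J (x + y + z) 3 5 := by
  apply img_of_nat_mul 252 (by norm_num)
  refine ⟨(((12 : ℤ) : MvPolynomial (Fin 3) ℂ) * (x ^ 3 * y ^ 0 * z ^ 0)) +
      (((5 : ℤ) : MvPolynomial (Fin 3) ℂ) * (x ^ 2 * y ^ 1 * z ^ 0)) +
      (((-25 : ℤ) : MvPolynomial (Fin 3) ℂ) * (x ^ 2 * y ^ 0 * z ^ 1)) +
      (((-5 : ℤ) : MvPolynomial (Fin 3) ℂ) * (x ^ 1 * y ^ 2 * z ^ 0)) +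
      (((14 : ℤ) : MvPolynomial (Fin 3) ℂ) * (x ^ 1 * y ^ 1 * z ^ 1)) +
      (((5 : ℤ) : MvPolynomial (Fin 3) ℂ) * (x ^ 1 * y ^ 0 * z ^ 2)) +
      (((2 : ℤ) : MvPolynomial (Fin 3) ℂ) * (x ^ 0 * y ^ 3 * z ^ 0)) +
      (((-3 : ℤ) : MvPolynomial (Fin 3) ℂ) * (x ^ 0 * y ^ 2 * z ^ 1)) +
      (((-5 : ℤ) : MvPolynomial (Fin 3) ℂ) * (x ^ 0 * y ^ 1 * z ^ 2)), ?_, ?_⟩
  · repeat' apply IsHomogeneous.add
    all_goals exact hterm hx hy hz _ _ _ _ _ rfl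
  · have e : ((252 : ℕ) : MvPolynomial (Fin 3) ℂ) * (x ^ 5 * y ^ 2 * z ^ 1) - (x + y + z) ^ 5 * (
      (((12 : ℤ) : MvPolynomial (Fin 3) ℂ) * (x ^ 3 * y ^ 0 * z ^ 0)) +
      (((5 : ℤ) : MvPolynomial (Fin 3) ℂ) * (x ^ 2 * y ^ 1 * z ^ 0)) +
      (((-25 : ℤ) : MvPolynomial (Fin 3) ℂ) * (x ^ 2 * y ^ 0 * z ^ 1)) +
      (((-5 : ℤ) : MvPolynomial (Fin 3) ℂ) * (x ^ 1 * y ^ 2 * z ^ 0)) +
      (((14 : ℤ) : MvPolynomial (Fin 3) ℂ) * (x ^ 1 * y ^ 1 * z ^ 1)) +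
      (((5 : ℤ) : MvPolynomial (Fin 3) ℂ) * (x ^ 1 * y ^ 0 * z ^ 2)) +
      (((2 : ℤ) : MvPolynomial (Fin 3) ℂ) * (x ^ 0 * y ^ 3 * z ^ 0)) +
      (((-3 : ℤ) : MvPolynomial (Fin 3) ℂ) * (x ^ 0 * y ^ 2 * z ^ 1)) +
      (((-5 : ℤ) : MvPolynomial (Fin 3) ℂ) * (x ^ 0 * y ^ 1 * z ^ 2))) =
        ((-12) * (x ^ 2 * y ^ 0 * z ^ 0) + (-65) * (x ^ 1 * y ^ 1 * z ^ 0) + (-35) * (x ^ 1 * y ^ 0 * z ^ 1) + (-140) * (x ^ 0 * y ^ 2 * z ^ 0) + (-154) * (x ^ 0 * y ^ 1 * z ^ 1)) * (x ^ (3 * 2) * y ^ (3 * 0) * z ^ (3 * 0)) +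
        ((-147) * (x ^ 2 * y ^ 0 * z ^ 0) + (-70) * (x ^ 1 * y ^ 1 * z ^ 0) + (-175) * (x ^ 1 * y ^ 0 * z ^ 1) + (-7) * (x ^ 0 * y ^ 2 * z ^ 0) + (-35) * (x ^ 0 * y ^ 1 * z ^ 1)) * (x ^ (3 * 1) * y ^ (3 * 1) * z ^ (3 * 0)) +
        ((105) * (x ^ 2 * y ^ 0 * z ^ 0) + (245) * (x ^ 1 * y ^ 1 * z ^ 0) + (140) * (x ^ 1 * y ^ 0 * z ^ 1) + (140) * (x ^ 0 * y ^ 2 * z ^ 0) + (175) * (x ^ 0 * y ^ 1 * z ^ 1) + (63) * (x ^ 0 * y ^ 0 * z ^ 2)) * (x ^ (3 * 1) * y ^ (3 * 0) * z ^ (3 * 1)) +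
        ((-5) * (x ^ 1 * y ^ 1 * z ^ 0) + (-14) * (x ^ 1 * y ^ 0 * z ^ 1) + (-2) * (x ^ 0 * y ^ 2 * z ^ 0) + (-7) * (x ^ 0 * y ^ 1 * z ^ 1)) * (x ^ (3 * 0) * y ^ (3 * 2) * z ^ (3 * 0)) +
        ((35) * (x ^ 1 * y ^ 1 * z ^ 0) + (35) * (x ^ 1 * y ^ 0 * z ^ 1) + (35) * (x ^ 0 * y ^ 2 * z ^ 0) + (70) * (x ^ 0 * y ^ 1 * z ^ 1) + (63) * (x ^ 0 * y ^ 0 * z ^ 2)) * (x ^ (3 * 0) * y ^ (3 * 1) * z ^ (3 * 1)) +
        ((-14) * (x ^ 1 * y ^ 1 * z ^ 0) + (-5) * (x ^ 1 * y ^ 0 * z ^ 1) + (28) * (x ^ 0 * y ^ 2 * z ^ 0) + (5) * (x ^ 0 * y ^ 1 * z ^ 1)) * (x ^ (3 * 0) * y ^ (3 * 0) * z ^ (3 * 2)) := by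
      push_cast
      ring
    rw [e]
    repeat' apply J.add_mem
    all_goals exact J.mul_mem_left _ (hJ _ _ _ rfl)

theorem s32_322 {J : Ideal (MvPolynomial (Fin 3) ℂ)} {x y z : MvPolynomial (Fin 3) ℂ}
    (hx : x.IsHomogeneous 1) (hy : y.IsHomogeneous 1) (hz : z.IsHomogeneous 1)
    (hJ : ∀ a b c : ℕ, a + b + c = 2 → x ^ (3 * a) * y ^ (3 * b) * z ^ (3 * c) ∈ J) :
    x ^ 3 * y ^ 2 * z ^ 2 ∈ Img J (x + y + z) 5 2 := by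
  apply img_of_nat_mul 6 (by norm_num)
  refine ⟨(((3 : ℤ) : MvPolynomial (Fin 3) ℂ) * (x ^ 5 * y ^ 0 * z ^ 0)) +
      (((-2 : ℤ) : MvPolynomial (Fin 3) ℂ) * (x ^ 4 * y ^ 1 * z ^ 0)) +
      (((-2 : ℤ) : MvPolynomial (Fin 3) ℂ) * (x ^ 4 * y ^ 0 * z ^ 1)) +
      (((1 : ℤ) : MvPolynomial (Fin 3) ℂ) * (x ^ 3 * y ^ 2 * z ^ 0)) +
      (((2 : ℤ) : MvPolynomial (Fin 3) ℂ) * (x ^ 3 * y ^ 1 * z ^ 1)) +
      (((1 : ℤ) : MvPolynomial (Fin 3) ℂ) * (x ^ 3 * y ^ 0 * z ^ 2)), ?_, ?_⟩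
  · repeat' apply IsHomogeneous.add
    all_goals exact hterm hx hy hz _ _ _ _ _ rfl
  · have e : ((6 : ℕ) : MvPolynomial (Fin 3) ℂ) * (x ^ 3 * y ^ 2 * z ^ 2) - (x + y + z) ^ 2 * (
      (((3 : ℤ) : MvPolynomial (Fin 3) ℂ) * (x ^ 5 * y ^ 0 * z ^ 0)) +
      (((-2 : ℤ) : MvPolynomial (Fin 3) ℂ) * (x ^ 4 * y ^ 1 * z ^ 0)) +
      (((-2 : ℤ) : MvPolynomial (Fin 3) ℂ) * (x ^ 4 * y ^ 0 * z ^ 1)) +
      (((1 : ℤ) : MvPolynomial (Fin 3) ℂ) * (x ^ 3 * y ^ 2 * z ^ 0)) +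
      (((2 : ℤ) : MvPolynomial (Fin 3) ℂ) * (x ^ 3 * y ^ 1 * z ^ 1)) +
      (((1 : ℤ) : MvPolynomial (Fin 3) ℂ) * (x ^ 3 * y ^ 0 * z ^ 2))) =
        ((-3) * (x ^ 1 * y ^ 0 * z ^ 0) + (-4) * (x ^ 0 * y ^ 1 * z ^ 0) + (-4) * (x ^ 0 * y ^ 0 * z ^ 1)) * (x ^ (3 * 2) * y ^ (3 * 0) * z ^ (3 * 0)) +
        ((-1) * (x ^ 0 * y ^ 1 * z ^ 0) + (-4) * (x ^ 0 * y ^ 0 * z ^ 1)) * (x ^ (3 * 1) * y ^ (3 * 1) * z ^ (3 * 0)) +
        ((-4) * (x ^ 0 * y ^ 1 * z ^ 0) + (-1) * (x ^ 0 * y ^ 0 * z ^ 1)) * (x ^ (3 * 1) * y ^ (3 * 0) * z ^ (3 * 1)) := by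
      push_cast
      ring
    rw [e]
    repeat' apply J.add_mem
    all_goals exact J.mul_mem_left _ (hJ _ _ _ rfl)

theorem s32_421 {J : Ideal (MvPolynomial (Fin 3) ℂ)} {x y z : MvPolynomial (Fin 3) ℂ}
    (hx : x.IsHomogeneous 1) (hy : y.IsHomogeneous 1) (hz : z.IsHomogeneous 1)
    (hJ : ∀ a b c : ℕ, a + b + c = 2 → x ^ (3 * a) * y ^ (3 * b) * z ^ (3 * c) ∈ J) :
    x ^ 4 * y ^ 2 * z ^ 1 ∈ Img J (x + y + z) 5 2 := by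
  apply img_of_nat_mul 3 (by norm_num)
  refine ⟨(((-1 : ℤ) : MvPolynomial (Fin 3) ℂ) * (x ^ 5 * y ^ 0 * z ^ 0)) +
      (((1 : ℤ) : MvPolynomial (Fin 3) ℂ) * (x ^ 4 * y ^ 0 * z ^ 1)) +
      (((1 : ℤ) : MvPolynomial (Fin 3) ℂ) * (x ^ 3 * y ^ 2 * z ^ 0)) +
      (((-1 : ℤ) : MvPolynomial (Fin 3) ℂ) * (x ^ 3 * y ^ 0 * z ^ 2)), ?_, ?_⟩
  · repeat' apply IsHomogeneous.add
    all_goals exact hterm hx hy hz _ _ _ _ _ rfl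
  · have e : ((3 : ℕ) : MvPolynomial (Fin 3) ℂ) * (x ^ 4 * y ^ 2 * z ^ 1) - (x + y + z) ^ 2 * (
      (((-1 : ℤ) : MvPolynomial (Fin 3) ℂ) * (x ^ 5 * y ^ 0 * z ^ 0)) +
      (((1 : ℤ) : MvPolynomial (Fin 3) ℂ) * (x ^ 4 * y ^ 0 * z ^ 1)) +
      (((1 : ℤ) : MvPolynomial (Fin 3) ℂ) * (x ^ 3 * y ^ 2 * z ^ 0)) +
      (((-1 : ℤ) : MvPolynomial (Fin 3) ℂ) * (x ^ 3 * y ^ 0 * z ^ 2))) =
        ((1) * (x ^ 1 * y ^ 0 * z ^ 0) + (2) * (x ^ 0 * y ^ 1 * z ^ 0) + (1) * (x ^ 0 * y ^ 0 * z ^ 1)) * (x ^ (3 * 2) * y ^ (3 * 0) * z ^ (3 * 0)) +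
        ((1) * (x ^ 1 * y ^ 0 * z ^ 0) + (2) * (x ^ 0 * y ^ 1 * z ^ 0) + (1) * (x ^ 0 * y ^ 0 * z ^ 1)) * (x ^ (3 * 1) * y ^ (3 * 0) * z ^ (3 * 1)) +
        ((-2) * (x ^ 1 * y ^ 0 * z ^ 0) + (-1) * (x ^ 0 * y ^ 1 * z ^ 0) + (-2) * (x ^ 0 * y ^ 0 * z ^ 1)) * (x ^ (3 * 1) * y ^ (3 * 1) * z ^ (3 * 0)) := by
      push_cast
      ring
    rw [e]
    repeat' apply J.add_mem
    all_goals exact J.mul_mem_left _ (hJ _ _ _ rfl)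

theorem s32_520 {J : Ideal (MvPolynomial (Fin 3) ℂ)} {x y z : MvPolynomial (Fin 3) ℂ}
    (hx : x.IsHomogeneous 1) (hy : y.IsHomogeneous 1) (hz : z.IsHomogeneous 1)
    (hJ : ∀ a b c : ℕ, a + b + c = 2 → x ^ (3 * a) * y ^ (3 * b) * z ^ (3 * c) ∈ J) :
    x ^ 5 * y ^ 2 * z ^ 0 ∈ Img J (x + y + z) 5 2 := by
  apply img_of_nat_mul 6 (by norm_num)
  refine ⟨(((1 : ℤ) : MvPolynomial (Fin 3) ℂ) * (x ^ 5 * y ^ 0 * z ^ 0)) +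
      (((2 : ℤ) : MvPolynomial (Fin 3) ℂ) * (x ^ 4 * y ^ 1 * z ^ 0)) +
      (((-2 : ℤ) : MvPolynomial (Fin 3) ℂ) * (x ^ 4 * y ^ 0 * z ^ 1)) +
      (((1 : ℤ) : MvPolynomial (Fin 3) ℂ) * (x ^ 3 * y ^ 2 * z ^ 0)) +
      (((-2 : ℤ) : MvPolynomial (Fin 3) ℂ) * (x ^ 3 * y ^ 1 * z ^ 1)) +
      (((3 : ℤ) : MvPolynomial (Fin 3) ℂ) * (x ^ 3 * y ^ 0 * z ^ 2)), ?_, ?_⟩
  · repeat' apply IsHomogeneous.add
    all_goals exact hterm hx hy hz _ _ _ _ _ rfl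
  · have e : ((6 : ℕ) : MvPolynomial (Fin 3) ℂ) * (x ^ 5 * y ^ 2 * z ^ 0) - (x + y + z) ^ 2 * (
      (((1 : ℤ) : MvPolynomial (Fin 3) ℂ) * (x ^ 5 * y ^ 0 * z ^ 0)) +
      (((2 : ℤ) : MvPolynomial (Fin 3) ℂ) * (x ^ 4 * y ^ 1 * z ^ 0)) +
      (((-2 : ℤ) : MvPolynomial (Fin 3) ℂ) * (x ^ 4 * y ^ 0 * z ^ 1)) +
      (((1 : ℤ) : MvPolynomial (Fin 3) ℂ) * (x ^ 3 * y ^ 2 * z ^ 0)) +
      (((-2 : ℤ) : MvPolynomial (Fin 3) ℂ) * (x ^ 3 * y ^ 1 * z ^ 1)) +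
      (((3 : ℤ) : MvPolynomial (Fin 3) ℂ) * (x ^ 3 * y ^ 0 * z ^ 2))) =
        ((-1) * (x ^ 1 * y ^ 0 * z ^ 0) + (-4) * (x ^ 0 * y ^ 1 * z ^ 0)) * (x ^ (3 * 2) * y ^ (3 * 0) * z ^ (3 * 0)) +
        ((-4) * (x ^ 1 * y ^ 0 * z ^ 0) + (-1) * (x ^ 0 * y ^ 1 * z ^ 0)) * (x ^ (3 * 1) * y ^ (3 * 1) * z ^ (3 * 0)) +
        ((-4) * (x ^ 1 * y ^ 0 * z ^ 0) + (-4) * (x ^ 0 * y ^ 1 * z ^ 0) + (-3) * (x ^ 0 * y ^ 0 * z ^ 1)) * (x ^ (3 * 1) * y ^ (3 * 0) * z ^ (3 * 1)) := by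
      push_cast
      ring
    rw [e]
    repeat' apply J.add_mem
    all_goals exact J.mul_mem_left _ (hJ _ _ _ rfl)

theorem s32_511 {J : Ideal (MvPolynomial (Fin 3) ℂ)} {x y z : MvPolynomial (Fin 3) ℂ}
    (hx : x.IsHomogeneous 1) (hy : y.IsHomogeneous 1) (hz : z.IsHomogeneous 1)
    (hJ : ∀ a b c : ℕ, a + b + c = 2 → x ^ (3 * a) * y ^ (3 * b) * z ^ (3 * c) ∈ J) :
    x ^ 5 * y ^ 1 * z ^ 1 ∈ Img J (x + y + z) 5 2 := by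
  apply img_of_nat_mul 3 (by norm_num)
  refine ⟨(((1 : ℤ) : MvPolynomial (Fin 3) ℂ) * (x ^ 5 * y ^ 0 * z ^ 0)) +
      (((-1 : ℤ) : MvPolynomial (Fin 3) ℂ) * (x ^ 3 * y ^ 2 * z ^ 0)) +
      (((1 : ℤ) : MvPolynomial (Fin 3) ℂ) * (x ^ 3 * y ^ 1 * z ^ 1)) +
      (((-1 : ℤ) : MvPolynomial (Fin 3) ℂ) * (x ^ 3 * y ^ 0 * z ^ 2)), ?_, ?_⟩
  · repeat' apply IsHomogeneous.add
    all_goals exact hterm hx hy hz _ _ _ _ _ rfl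
  · have e : ((3 : ℕ) : MvPolynomial (Fin 3) ℂ) * (x ^ 5 * y ^ 1 * z ^ 1) - (x + y + z) ^ 2 * (
      (((1 : ℤ) : MvPolynomial (Fin 3) ℂ) * (x ^ 5 * y ^ 0 * z ^ 0)) +
      (((-1 : ℤ) : MvPolynomial (Fin 3) ℂ) * (x ^ 3 * y ^ 2 * z ^ 0)) +
      (((1 : ℤ) : MvPolynomial (Fin 3) ℂ) * (x ^ 3 * y ^ 1 * z ^ 1)) +
      (((-1 : ℤ) : MvPolynomial (Fin 3) ℂ) * (x ^ 3 * y ^ 0 * z ^ 2))) =
        ((-1) * (x ^ 1 * y ^ 0 * z ^ 0) + (-2) * (x ^ 0 * y ^ 1 * z ^ 0) + (-2) * (x ^ 0 * y ^ 0 * z ^ 1)) * (x ^ (3 * 2) * y ^ (3 * 0) * z ^ (3 * 0)) +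
        ((2) * (x ^ 1 * y ^ 0 * z ^ 0) + (1) * (x ^ 0 * y ^ 1 * z ^ 0) + (1) * (x ^ 0 * y ^ 0 * z ^ 1)) * (x ^ (3 * 1) * y ^ (3 * 1) * z ^ (3 * 0)) +
        ((1) * (x ^ 0 * y ^ 1 * z ^ 0) + (2) * (x ^ 1 * y ^ 0 * z ^ 0) + (1) * (x ^ 0 * y ^ 0 * z ^ 1)) * (x ^ (3 * 1) * y ^ (3 * 0) * z ^ (3 * 1)) := by
      push_cast
      ring
    rw [e]
    repeat' apply J.add_mem
    all_goals exact J.mul_mem_left _ (hJ _ _ _ rfl)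

theorem powI_gen3 {d k : ℕ} (p q r : Fin 3) (a b c : ℕ) (h : a + b + c = k) :
    (X p : MvPolynomial (Fin 3) ℂ) ^ (d * a) * X q ^ (d * b) * X r ^ (d * c) ∈ powI 3 d k := by
  have hm : ∀ l : Fin 3, (X l : MvPolynomial (Fin 3) ℂ) ^ d ∈
      Ideal.span (Set.range fun i : Fin 3 => (X i : MvPolynomial (Fin 3) ℂ) ^ d) :=
    fun l => Ideal.subset_span ⟨l, rfl⟩
  unfold powI
  rw [← h, pow_add, pow_add]
  apply Ideal.mul_mem_mul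
  · apply Ideal.mul_mem_mul
    · rw [pow_mul]; exact Ideal.pow_mem_pow (hm p) _
    · rw [pow_mul]; exact Ideal.pow_mem_pow (hm q) _
  · rw [pow_mul]; exact Ideal.pow_mem_pow (hm r) _

theorem img_of_nonstd {d k i j : ℕ} (hd : 0 < d) (m : Fin 3 →₀ ℕ) (h : k ≤ ∑ l, m l / d) :
    monomial m (1 : ℂ) ∈ Img (powI 3 d k) (ell 3) i j := by
  refine ⟨0, isHomogeneous_zero _ _ _, ?_⟩
  rw [mul_zero, sub_zero, mem_powI_iff hd]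
  intro m' hm'
  rw [mem_support_iff, coeff_monomial] at hm'
  have : m = m' := by
    by_contra hne
    simp [hne] at hm'
  rw [← this]; exact h

theorem std23_7 : ∀ a b c : Fin 8, a.val + b.val + c.val = 7 →
      a.val / 2 + b.val / 2 + c.val / 2 < 3 →
        (a.val, b.val, c.val) ∈ [(5, 1, 1), (3, 3, 1), (3, 1, 3), (1, 5, 1), (1, 3, 3), (1, 1, 5)] := by
  decide +kernel

theorem surj23_2_5 : SurjP (powI 3 2 3) (ell 3) 2 5 := by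
  apply surjP_of_monomials
  intro m hm
  rw [Fin.sum_univ_three] at hm
  rcases Nat.lt_or_ge (m 0 / 2 + m 1 / 2 + m 2 / 2) 3 with h | h
  · have hc := std23_7 ⟨m 0, by omega⟩ ⟨m 1, by omega⟩ ⟨m 2, by omega⟩ hm h
    simp only [List.mem_cons, Prod.mk.injEq, List.not_mem_nil, or_false] at hc
    rw [mk3_eta m, monomial_mk3]
    rcases hc with ⟨h0, h1, h2⟩ | ⟨h0, h1, h2⟩ | ⟨h0, h1, h2⟩ | ⟨h0, h1, h2⟩ | ⟨h0, h1, h2⟩ | ⟨h0, h1, h2⟩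
    · rw [h0, h1, h2]
      have hs : (X 0 : MvPolynomial (Fin 3) ℂ) + X 1 + X 2 = ell 3 := by
        rw [ell, Fin.sum_univ_three] <;> ring
      have h3 := s23_511 (J := powI 3 2 3) (isHomogeneous_X ℂ 0) (isHomogeneous_X ℂ 1)
        (isHomogeneous_X ℂ 2) (fun a b c h => powI_gen3 0 1 2 a b c h)
      rw [hs] at h3
      convert h3 using 1 <;> ring
    · rw [h0, h1, h2]
      have hs : (X 0 : MvPolynomial (Fin 3) ℂ) + X 1 + X 2 = ell 3 := by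
        rw [ell, Fin.sum_univ_three] <;> ring
      have h3 := s23_331 (J := powI 3 2 3) (isHomogeneous_X ℂ 0) (isHomogeneous_X ℂ 1)
        (isHomogeneous_X ℂ 2) (fun a b c h => powI_gen3 0 1 2 a b c h)
      rw [hs] at h3
      convert h3 using 1 <;> ring
    · rw [h0, h1, h2]
      have hs : (X 0 : MvPolynomial (Fin 3) ℂ) + X 2 + X 1 = ell 3 := by
        rw [ell, Fin.sum_univ_three] <;> ring
      have h3 := s23_331 (J := powI 3 2 3) (isHomogeneous_X ℂ 0) (isHomogeneous_X ℂ 2)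
        (isHomogeneous_X ℂ 1) (fun a b c h => powI_gen3 0 2 1 a b c h)
      rw [hs] at h3
      convert h3 using 1 <;> ring
    · rw [h0, h1, h2]
      have hs : (X 1 : MvPolynomial (Fin 3) ℂ) + X 0 + X 2 = ell 3 := by
        rw [ell, Fin.sum_univ_three] <;> ring
      have h3 := s23_511 (J := powI 3 2 3) (isHomogeneous_X ℂ 1) (isHomogeneous_X ℂ 0)
        (isHomogeneous_X ℂ 2) (fun a b c h => powI_gen3 1 0 2 a b c h)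
      rw [hs] at h3
      convert h3 using 1 <;> ring
    · rw [h0, h1, h2]
      have hs : (X 1 : MvPolynomial (Fin 3) ℂ) + X 2 + X 0 = ell 3 := by
        rw [ell, Fin.sum_univ_three] <;> ring
      have h3 := s23_331 (J := powI 3 2 3) (isHomogeneous_X ℂ 1) (isHomogeneous_X ℂ 2)
        (isHomogeneous_X ℂ 0) (fun a b c h => powI_gen3 1 2 0 a b c h)
      rw [hs] at h3
      convert h3 using 1 <;> ring
    · rw [h0, h1, h2]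
      have hs : (X 2 : MvPolynomial (Fin 3) ℂ) + X 0 + X 1 = ell 3 := by
        rw [ell, Fin.sum_univ_three] <;> ring
      have h3 := s23_511 (J := powI 3 2 3) (isHomogeneous_X ℂ 2) (isHomogeneous_X ℂ 0)
        (isHomogeneous_X ℂ 1) (fun a b c h => powI_gen3 2 0 1 a b c h)
      rw [hs] at h3
      convert h3 using 1 <;> ring
  · apply img_of_nonstd (by norm_num)
    rw [Fin.sum_univ_three]
    exact h

theorem std23_6 : ∀ a b c : Fin 7, a.val + b.val + c.val = 6 →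
      a.val / 2 + b.val / 2 + c.val / 2 < 3 →
        (a.val, b.val, c.val) ∈ [(5, 1, 0), (5, 0, 1), (4, 1, 1), (3, 3, 0), (3, 2, 1), (3, 1, 2), (3, 0, 3), (2, 3, 1), (2, 1, 3), (1, 5, 0), (1, 4, 1), (1, 3, 2), (1, 2, 3), (1, 1, 4), (1, 0, 5), (0, 5, 1), (0, 3, 3), (0, 1, 5)] := by
  decide +kernel

theorem surj23_5_1 : SurjP (powI 3 2 3) (ell 3) 5 1 := by
  apply surjP_of_monomials
  intro m hm
  rw [Fin.sum_univ_three] at hm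
  rcases Nat.lt_or_ge (m 0 / 2 + m 1 / 2 + m 2 / 2) 3 with h | h
  · have hc := std23_6 ⟨m 0, by omega⟩ ⟨m 1, by omega⟩ ⟨m 2, by omega⟩ hm h
    simp only [List.mem_cons, Prod.mk.injEq, List.not_mem_nil, or_false] at hc
    rw [mk3_eta m, monomial_mk3]
    rcases hc with ⟨h0, h1, h2⟩ | ⟨h0, h1, h2⟩ | ⟨h0, h1, h2⟩ | ⟨h0, h1, h2⟩ | ⟨h0, h1, h2⟩ | ⟨h0, h1, h2⟩ | ⟨h0, h1, h2⟩ | ⟨h0, h1, h2⟩ | ⟨h0, h1, h2⟩ | ⟨h0, h1, h2⟩ | ⟨h0, h1, h2⟩ | ⟨h0, h1, h2⟩ | ⟨h0, h1, h2⟩ | ⟨h0, h1, h2⟩ | ⟨h0, h1, h2⟩ | ⟨h0, h1, h2⟩ | ⟨h0, h1, h2⟩ | ⟨h0, h1, h2⟩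
    · rw [h0, h1, h2]
      have hs : (X 0 : MvPolynomial (Fin 3) ℂ) + X 1 + X 2 = ell 3 := by
        rw [ell, Fin.sum_univ_three] <;> ring
      have h3 := s23_510 (J := powI 3 2 3) (isHomogeneous_X ℂ 0) (isHomogeneous_X ℂ 1)
        (isHomogeneous_X ℂ 2) (fun a b c h => powI_gen3 0 1 2 a b c h)
      rw [hs] at h3
      convert h3 using 1 <;> ring
    · rw [h0, h1, h2]
      have hs : (X 0 : MvPolynomial (Fin 3) ℂ) + X 2 + X 1 = ell 3 := by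
        rw [ell, Fin.sum_univ_three] <;> ring
      have h3 := s23_510 (J := powI 3 2 3) (isHomogeneous_X ℂ 0) (isHomogeneous_X ℂ 2)
        (isHomogeneous_X ℂ 1) (fun a b c h => powI_gen3 0 2 1 a b c h)
      rw [hs] at h3
      convert h3 using 1 <;> ring
    · rw [h0, h1, h2]
      have hs : (X 0 : MvPolynomial (Fin 3) ℂ) + X 1 + X 2 = ell 3 := by
        rw [ell, Fin.sum_univ_three] <;> ring
      have h3 := s23_411 (J := powI 3 2 3) (isHomogeneous_X ℂ 0) (isHomogeneous_X ℂ 1)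
        (isHomogeneous_X ℂ 2) (fun a b c h => powI_gen3 0 1 2 a b c h)
      rw [hs] at h3
      convert h3 using 1 <;> ring
    · rw [h0, h1, h2]
      have hs : (X 0 : MvPolynomial (Fin 3) ℂ) + X 1 + X 2 = ell 3 := by
        rw [ell, Fin.sum_univ_three] <;> ring
      have h3 := s23_330 (J := powI 3 2 3) (isHomogeneous_X ℂ 0) (isHomogeneous_X ℂ 1)
        (isHomogeneous_X ℂ 2) (fun a b c h => powI_gen3 0 1 2 a b c h)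
      rw [hs] at h3
      convert h3 using 1 <;> ring
    · rw [h0, h1, h2]
      have hs : (X 0 : MvPolynomial (Fin 3) ℂ) + X 1 + X 2 = ell 3 := by
        rw [ell, Fin.sum_univ_three] <;> ring
      have h3 := s23_321 (J := powI 3 2 3) (isHomogeneous_X ℂ 0) (isHomogeneous_X ℂ 1)
        (isHomogeneous_X ℂ 2) (fun a b c h => powI_gen3 0 1 2 a b c h)
      rw [hs] at h3
      convert h3 using 1 <;> ring
    · rw [h0, h1, h2]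
      have hs : (X 0 : MvPolynomial (Fin 3) ℂ) + X 2 + X 1 = ell 3 := by
        rw [ell, Fin.sum_univ_three] <;> ring
      have h3 := s23_321 (J := powI 3 2 3) (isHomogeneous_X ℂ 0) (isHomogeneous_X ℂ 2)
        (isHomogeneous_X ℂ 1) (fun a b c h => powI_gen3 0 2 1 a b c h)
      rw [hs] at h3
      convert h3 using 1 <;> ring
    · rw [h0, h1, h2]
      have hs : (X 0 : MvPolynomial (Fin 3) ℂ) + X 2 + X 1 = ell 3 := by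
        rw [ell, Fin.sum_univ_three] <;> ring
      have h3 := s23_330 (J := powI 3 2 3) (isHomogeneous_X ℂ 0) (isHomogeneous_X ℂ 2)
        (isHomogeneous_X ℂ 1) (fun a b c h => powI_gen3 0 2 1 a b c h)
      rw [hs] at h3
      convert h3 using 1 <;> ring
    · rw [h0, h1, h2]
      have hs : (X 1 : MvPolynomial (Fin 3) ℂ) + X 0 + X 2 = ell 3 := by
        rw [ell, Fin.sum_univ_three] <;> ring
      have h3 := s23_321 (J := powI 3 2 3) (isHomogeneous_X ℂ 1) (isHomogeneous_X ℂ 0)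
        (isHomogeneous_X ℂ 2) (fun a b c h => powI_gen3 1 0 2 a b c h)
      rw [hs] at h3
      convert h3 using 1 <;> ring
    · rw [h0, h1, h2]
      have hs : (X 2 : MvPolynomial (Fin 3) ℂ) + X 0 + X 1 = ell 3 := by
        rw [ell, Fin.sum_univ_three] <;> ring
      have h3 := s23_321 (J := powI 3 2 3) (isHomogeneous_X ℂ 2) (isHomogeneous_X ℂ 0)
        (isHomogeneous_X ℂ 1) (fun a b c h => powI_gen3 2 0 1 a b c h)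
      rw [hs] at h3
      convert h3 using 1 <;> ring
    · rw [h0, h1, h2]
      have hs : (X 1 : MvPolynomial (Fin 3) ℂ) + X 0 + X 2 = ell 3 := by
        rw [ell, Fin.sum_univ_three] <;> ring
      have h3 := s23_510 (J := powI 3 2 3) (isHomogeneous_X ℂ 1) (isHomogeneous_X ℂ 0)
        (isHomogeneous_X ℂ 2) (fun a b c h => powI_gen3 1 0 2 a b c h)
      rw [hs] at h3
      convert h3 using 1 <;> ring
    · rw [h0, h1, h2]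
      have hs : (X 1 : MvPolynomial (Fin 3) ℂ) + X 0 + X 2 = ell 3 := by
        rw [ell, Fin.sum_univ_three] <;> ring
      have h3 := s23_411 (J := powI 3 2 3) (isHomogeneous_X ℂ 1) (isHomogeneous_X ℂ 0)
        (isHomogeneous_X ℂ 2) (fun a b c h => powI_gen3 1 0 2 a b c h)
      rw [hs] at h3
      convert h3 using 1 <;> ring
    · rw [h0, h1, h2]
      have hs : (X 1 : MvPolynomial (Fin 3) ℂ) + X 2 + X 0 = ell 3 := by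
        rw [ell, Fin.sum_univ_three] <;> ring
      have h3 := s23_321 (J := powI 3 2 3) (isHomogeneous_X ℂ 1) (isHomogeneous_X ℂ 2)
        (isHomogeneous_X ℂ 0) (fun a b c h => powI_gen3 1 2 0 a b c h)
      rw [hs] at h3
      convert h3 using 1 <;> ring
    · rw [h0, h1, h2]
      have hs : (X 2 : MvPolynomial (Fin 3) ℂ) + X 1 + X 0 = ell 3 := by
        rw [ell, Fin.sum_univ_three] <;> ring
      have h3 := s23_321 (J := powI 3 2 3) (isHomogeneous_X ℂ 2) (isHomogeneous_X ℂ 1)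
        (isHomogeneous_X ℂ 0) (fun a b c h => powI_gen3 2 1 0 a b c h)
      rw [hs] at h3
      convert h3 using 1 <;> ring
    · rw [h0, h1, h2]
      have hs : (X 2 : MvPolynomial (Fin 3) ℂ) + X 0 + X 1 = ell 3 := by
        rw [ell, Fin.sum_univ_three] <;> ring
      have h3 := s23_411 (J := powI 3 2 3) (isHomogeneous_X ℂ 2) (isHomogeneous_X ℂ 0)
        (isHomogeneous_X ℂ 1) (fun a b c h => powI_gen3 2 0 1 a b c h)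
      rw [hs] at h3
      convert h3 using 1 <;> ring
    · rw [h0, h1, h2]
      have hs : (X 2 : MvPolynomial (Fin 3) ℂ) + X 0 + X 1 = ell 3 := by
        rw [ell, Fin.sum_univ_three] <;> ring
      have h3 := s23_510 (J := powI 3 2 3) (isHomogeneous_X ℂ 2) (isHomogeneous_X ℂ 0)
        (isHomogeneous_X ℂ 1) (fun a b c h => powI_gen3 2 0 1 a b c h)
      rw [hs] at h3
      convert h3 using 1 <;> ring
    · rw [h0, h1, h2]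
      have hs : (X 1 : MvPolynomial (Fin 3) ℂ) + X 2 + X 0 = ell 3 := by
        rw [ell, Fin.sum_univ_three] <;> ring
      have h3 := s23_510 (J := powI 3 2 3) (isHomogeneous_X ℂ 1) (isHomogeneous_X ℂ 2)
        (isHomogeneous_X ℂ 0) (fun a b c h => powI_gen3 1 2 0 a b c h)
      rw [hs] at h3
      convert h3 using 1 <;> ring
    · rw [h0, h1, h2]
      have hs : (X 1 : MvPolynomial (Fin 3) ℂ) + X 2 + X 0 = ell 3 := by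
        rw [ell, Fin.sum_univ_three] <;> ring
      have h3 := s23_330 (J := powI 3 2 3) (isHomogeneous_X ℂ 1) (isHomogeneous_X ℂ 2)
        (isHomogeneous_X ℂ 0) (fun a b c h => powI_gen3 1 2 0 a b c h)
      rw [hs] at h3
      convert h3 using 1 <;> ring
    · rw [h0, h1, h2]
      have hs : (X 2 : MvPolynomial (Fin 3) ℂ) + X 1 + X 0 = ell 3 := by
        rw [ell, Fin.sum_univ_three] <;> ring
      have h3 := s23_510 (J := powI 3 2 3) (isHomogeneous_X ℂ 2) (isHomogeneous_X ℂ 1)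
        (isHomogeneous_X ℂ 0) (fun a b c h => powI_gen3 2 1 0 a b c h)
      rw [hs] at h3
      convert h3 using 1 <;> ring
  · apply img_of_nonstd (by norm_num)
    rw [Fin.sum_univ_three]
    exact h

theorem std32_9 : ∀ a b c : Fin 10, a.val + b.val + c.val = 9 →
      a.val / 3 + b.val / 3 + c.val / 3 < 2 →
        (a.val, b.val, c.val) ∈ [(5, 2, 2), (2, 5, 2), (2, 2, 5)] := by
  decide +kernel

theorem surj32_1_8 : SurjP (powI 3 3 2) (ell 3) 1 8 := by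
  apply surjP_of_monomials
  intro m hm
  rw [Fin.sum_univ_three] at hm
  rcases Nat.lt_or_ge (m 0 / 3 + m 1 / 3 + m 2 / 3) 2 with h | h
  · have hc := std32_9 ⟨m 0, by omega⟩ ⟨m 1, by omega⟩ ⟨m 2, by omega⟩ hm h
    simp only [List.mem_cons, Prod.mk.injEq, List.not_mem_nil, or_false] at hc
    rw [mk3_eta m, monomial_mk3]
    rcases hc with ⟨h0, h1, h2⟩ | ⟨h0, h1, h2⟩ | ⟨h0, h1, h2⟩
    · rw [h0, h1, h2]
      have hs : (X 0 : MvPolynomial (Fin 3) ℂ) + X 1 + X 2 = ell 3 := by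
        rw [ell, Fin.sum_univ_three] <;> ring
      have h3 := s32_522 (J := powI 3 3 2) (isHomogeneous_X ℂ 0) (isHomogeneous_X ℂ 1)
        (isHomogeneous_X ℂ 2) (fun a b c h => powI_gen3 0 1 2 a b c h)
      rw [hs] at h3
      convert h3 using 1 <;> ring
    · rw [h0, h1, h2]
      have hs : (X 1 : MvPolynomial (Fin 3) ℂ) + X 0 + X 2 = ell 3 := by
        rw [ell, Fin.sum_univ_three] <;> ring
      have h3 := s32_522 (J := powI 3 3 2) (isHomogeneous_X ℂ 1) (isHomogeneous_X ℂ 0)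
        (isHomogeneous_X ℂ 2) (fun a b c h => powI_gen3 1 0 2 a b c h)
      rw [hs] at h3
      convert h3 using 1 <;> ring
    · rw [h0, h1, h2]
      have hs : (X 2 : MvPolynomial (Fin 3) ℂ) + X 0 + X 1 = ell 3 := by
        rw [ell, Fin.sum_univ_three] <;> ring
      have h3 := s32_522 (J := powI 3 3 2) (isHomogeneous_X ℂ 2) (isHomogeneous_X ℂ 0)
        (isHomogeneous_X ℂ 1) (fun a b c h => powI_gen3 2 0 1 a b c h)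
      rw [hs] at h3
      convert h3 using 1 <;> ring
  · apply img_of_nonstd (by norm_num)
    rw [Fin.sum_univ_three]
    exact h

theorem std32_8 : ∀ a b c : Fin 9, a.val + b.val + c.val = 8 →
      a.val / 3 + b.val / 3 + c.val / 3 < 2 →
        (a.val, b.val, c.val) ∈ [(5, 2, 1), (5, 1, 2), (4, 2, 2), (2, 5, 1), (2, 4, 2), (2, 2, 4), (2, 1, 5), (1, 5, 2), (1, 2, 5)] := by
  decide +kernel

theorem surj32_3_5 : SurjP (powI 3 3 2) (ell 3) 3 5 := by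
  apply surjP_of_monomials
  intro m hm
  rw [Fin.sum_univ_three] at hm
  rcases Nat.lt_or_ge (m 0 / 3 + m 1 / 3 + m 2 / 3) 2 with h | h
  · have hc := std32_8 ⟨m 0, by omega⟩ ⟨m 1, by omega⟩ ⟨m 2, by omega⟩ hm h
    simp only [List.mem_cons, Prod.mk.injEq, List.not_mem_nil, or_false] at hc
    rw [mk3_eta m, monomial_mk3]
    rcases hc with ⟨h0, h1, h2⟩ | ⟨h0, h1, h2⟩ | ⟨h0, h1, h2⟩ | ⟨h0, h1, h2⟩ | ⟨h0, h1, h2⟩ | ⟨h0, h1, h2⟩ | ⟨h0, h1, h2⟩ | ⟨h0, h1, h2⟩ | ⟨h0, h1, h2⟩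
    · rw [h0, h1, h2]
      have hs : (X 0 : MvPolynomial (Fin 3) ℂ) + X 1 + X 2 = ell 3 := by
        rw [ell, Fin.sum_univ_three] <;> ring
      have h3 := s32_521 (J := powI 3 3 2) (isHomogeneous_X ℂ 0) (isHomogeneous_X ℂ 1)
        (isHomogeneous_X ℂ 2) (fun a b c h => powI_gen3 0 1 2 a b c h)
      rw [hs] at h3
      convert h3 using 1 <;> ring
    · rw [h0, h1, h2]
      have hs : (X 0 : MvPolynomial (Fin 3) ℂ) + X 2 + X 1 = ell 3 := by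
        rw [ell, Fin.sum_univ_three] <;> ring
      have h3 := s32_521 (J := powI 3 3 2) (isHomogeneous_X ℂ 0) (isHomogeneous_X ℂ 2)
        (isHomogeneous_X ℂ 1) (fun a b c h => powI_gen3 0 2 1 a b c h)
      rw [hs] at h3
      convert h3 using 1 <;> ring
    · rw [h0, h1, h2]
      have hs : (X 0 : MvPolynomial (Fin 3) ℂ) + X 1 + X 2 = ell 3 := by
        rw [ell, Fin.sum_univ_three] <;> ring
      have h3 := s32_422 (J := powI 3 3 2) (isHomogeneous_X ℂ 0) (isHomogeneous_X ℂ 1)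
        (isHomogeneous_X ℂ 2) (fun a b c h => powI_gen3 0 1 2 a b c h)
      rw [hs] at h3
      convert h3 using 1 <;> ring
    · rw [h0, h1, h2]
      have hs : (X 1 : MvPolynomial (Fin 3) ℂ) + X 0 + X 2 = ell 3 := by
        rw [ell, Fin.sum_univ_three] <;> ring
      have h3 := s32_521 (J := powI 3 3 2) (isHomogeneous_X ℂ 1) (isHomogeneous_X ℂ 0)
        (isHomogeneous_X ℂ 2) (fun a b c h => powI_gen3 1 0 2 a b c h)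
      rw [hs] at h3
      convert h3 using 1 <;> ring
    · rw [h0, h1, h2]
      have hs : (X 1 : MvPolynomial (Fin 3) ℂ) + X 0 + X 2 = ell 3 := by
        rw [ell, Fin.sum_univ_three] <;> ring
      have h3 := s32_422 (J := powI 3 3 2) (isHomogeneous_X ℂ 1) (isHomogeneous_X ℂ 0)
        (isHomogeneous_X ℂ 2) (fun a b c h => powI_gen3 1 0 2 a b c h)
      rw [hs] at h3
      convert h3 using 1 <;> ring
    · rw [h0, h1, h2]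
      have hs : (X 2 : MvPolynomial (Fin 3) ℂ) + X 0 + X 1 = ell 3 := by
        rw [ell, Fin.sum_univ_three] <;> ring
      have h3 := s32_422 (J := powI 3 3 2) (isHomogeneous_X ℂ 2) (isHomogeneous_X ℂ 0)
        (isHomogeneous_X ℂ 1) (fun a b c h => powI_gen3 2 0 1 a b c h)
      rw [hs] at h3
      convert h3 using 1 <;> ring
    · rw [h0, h1, h2]
      have hs : (X 2 : MvPolynomial (Fin 3) ℂ) + X 0 + X 1 = ell 3 := by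
        rw [ell, Fin.sum_univ_three] <;> ring
      have h3 := s32_521 (J := powI 3 3 2) (isHomogeneous_X ℂ 2) (isHomogeneous_X ℂ 0)
        (isHomogeneous_X ℂ 1) (fun a b c h => powI_gen3 2 0 1 a b c h)
      rw [hs] at h3
      convert h3 using 1 <;> ring
    · rw [h0, h1, h2]
      have hs : (X 1 : MvPolynomial (Fin 3) ℂ) + X 2 + X 0 = ell 3 := by
        rw [ell, Fin.sum_univ_three] <;> ring
      have h3 := s32_521 (J := powI 3 3 2) (isHomogeneous_X ℂ 1) (isHomogeneous_X ℂ 2)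
        (isHomogeneous_X ℂ 0) (fun a b c h => powI_gen3 1 2 0 a b c h)
      rw [hs] at h3
      convert h3 using 1 <;> ring
    · rw [h0, h1, h2]
      have hs : (X 2 : MvPolynomial (Fin 3) ℂ) + X 1 + X 0 = ell 3 := by
        rw [ell, Fin.sum_univ_three] <;> ring
      have h3 := s32_521 (J := powI 3 3 2) (isHomogeneous_X ℂ 2) (isHomogeneous_X ℂ 1)
        (isHomogeneous_X ℂ 0) (fun a b c h => powI_gen3 2 1 0 a b c h)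
      rw [hs] at h3
      convert h3 using 1 <;> ring
  · apply img_of_nonstd (by norm_num)
    rw [Fin.sum_univ_three]
    exact h

theorem std32_7 : ∀ a b c : Fin 8, a.val + b.val + c.val = 7 →
      a.val / 3 + b.val / 3 + c.val / 3 < 2 →
        (a.val, b.val, c.val) ∈ [(5, 2, 0), (5, 1, 1), (5, 0, 2), (4, 2, 1), (4, 1, 2), (3, 2, 2), (2, 5, 0), (2, 4, 1), (2, 3, 2), (2, 2, 3), (2, 1, 4), (2, 0, 5), (1, 5, 1), (1, 4, 2), (1, 2, 4), (1, 1, 5), (0, 5, 2), (0, 2, 5)] := by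
  decide +kernel

theorem surj32_5_2 : SurjP (powI 3 3 2) (ell 3) 5 2 := by
  apply surjP_of_monomials
  intro m hm
  rw [Fin.sum_univ_three] at hm
  rcases Nat.lt_or_ge (m 0 / 3 + m 1 / 3 + m 2 / 3) 2 with h | h
  · have hc := std32_7 ⟨m 0, by omega⟩ ⟨m 1, by omega⟩ ⟨m 2, by omega⟩ hm h
    simp only [List.mem_cons, Prod.mk.injEq, List.not_mem_nil, or_false] at hc
    rw [mk3_eta m, monomial_mk3]
    rcases hc with ⟨h0, h1, h2⟩ | ⟨h0, h1, h2⟩ | ⟨h0, h1, h2⟩ | ⟨h0, h1, h2⟩ | ⟨h0, h1, h2⟩ | ⟨h0, h1, h2⟩ | ⟨h0, h1, h2⟩ | ⟨h0, h1, h2⟩ | ⟨h0, h1, h2⟩ | ⟨h0, h1, h2⟩ | ⟨h0, h1, h2⟩ | ⟨h0, h1, h2⟩ | ⟨h0, h1, h2⟩ | ⟨h0, h1, h2⟩ | ⟨h0, h1, h2⟩ | ⟨h0, h1, h2⟩ | ⟨h0, h1, h2⟩ | ⟨h0, h1, h2⟩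
    · rw [h0, h1, h2]
      have hs : (X 0 : MvPolynomial (Fin 3) ℂ) + X 1 + X 2 = ell 3 := by
        rw [ell, Fin.sum_univ_three] <;> ring
      have h3 := s32_520 (J := powI 3 3 2) (isHomogeneous_X ℂ 0) (isHomogeneous_X ℂ 1)
        (isHomogeneous_X ℂ 2) (fun a b c h => powI_gen3 0 1 2 a b c h)
      rw [hs] at h3
      convert h3 using 1 <;> ring
    · rw [h0, h1, h2]
      have hs : (X 0 : MvPolynomial (Fin 3) ℂ) + X 1 + X 2 = ell 3 := by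
        rw [ell, Fin.sum_univ_three] <;> ring
      have h3 := s32_511 (J := powI 3 3 2) (isHomogeneous_X ℂ 0) (isHomogeneous_X ℂ 1)
        (isHomogeneous_X ℂ 2) (fun a b c h => powI_gen3 0 1 2 a b c h)
      rw [hs] at h3
      convert h3 using 1 <;> ring
    · rw [h0, h1, h2]
      have hs : (X 0 : MvPolynomial (Fin 3) ℂ) + X 2 + X 1 = ell 3 := by
        rw [ell, Fin.sum_univ_three] <;> ring
      have h3 := s32_520 (J := powI 3 3 2) (isHomogeneous_X ℂ 0) (isHomogeneous_X ℂ 2)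
        (isHomogeneous_X ℂ 1) (fun a b c h => powI_gen3 0 2 1 a b c h)
      rw [hs] at h3
      convert h3 using 1 <;> ring
    · rw [h0, h1, h2]
      have hs : (X 0 : MvPolynomial (Fin 3) ℂ) + X 1 + X 2 = ell 3 := by
        rw [ell, Fin.sum_univ_three] <;> ring
      have h3 := s32_421 (J := powI 3 3 2) (isHomogeneous_X ℂ 0) (isHomogeneous_X ℂ 1)
        (isHomogeneous_X ℂ 2) (fun a b c h => powI_gen3 0 1 2 a b c h)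
      rw [hs] at h3
      convert h3 using 1 <;> ring
    · rw [h0, h1, h2]
      have hs : (X 0 : MvPolynomial (Fin 3) ℂ) + X 2 + X 1 = ell 3 := by
        rw [ell, Fin.sum_univ_three] <;> ring
      have h3 := s32_421 (J := powI 3 3 2) (isHomogeneous_X ℂ 0) (isHomogeneous_X ℂ 2)
        (isHomogeneous_X ℂ 1) (fun a b c h => powI_gen3 0 2 1 a b c h)
      rw [hs] at h3
      convert h3 using 1 <;> ring
    · rw [h0, h1, h2]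
      have hs : (X 0 : MvPolynomial (Fin 3) ℂ) + X 1 + X 2 = ell 3 := by
        rw [ell, Fin.sum_univ_three] <;> ring
      have h3 := s32_322 (J := powI 3 3 2) (isHomogeneous_X ℂ 0) (isHomogeneous_X ℂ 1)
        (isHomogeneous_X ℂ 2) (fun a b c h => powI_gen3 0 1 2 a b c h)
      rw [hs] at h3
      convert h3 using 1 <;> ring
    · rw [h0, h1, h2]
      have hs : (X 1 : MvPolynomial (Fin 3) ℂ) + X 0 + X 2 = ell 3 := by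
        rw [ell, Fin.sum_univ_three] <;> ring
      have h3 := s32_520 (J := powI 3 3 2) (isHomogeneous_X ℂ 1) (isHomogeneous_X ℂ 0)
        (isHomogeneous_X ℂ 2) (fun a b c h => powI_gen3 1 0 2 a b c h)
      rw [hs] at h3
      convert h3 using 1 <;> ring
    · rw [h0, h1, h2]
      have hs : (X 1 : MvPolynomial (Fin 3) ℂ) + X 0 + X 2 = ell 3 := by
        rw [ell, Fin.sum_univ_three] <;> ring
      have h3 := s32_421 (J := powI 3 3 2) (isHomogeneous_X ℂ 1) (isHomogeneous_X ℂ 0)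
        (isHomogeneous_X ℂ 2) (fun a b c h => powI_gen3 1 0 2 a b c h)
      rw [hs] at h3
      convert h3 using 1 <;> ring
    · rw [h0, h1, h2]
      have hs : (X 1 : MvPolynomial (Fin 3) ℂ) + X 0 + X 2 = ell 3 := by
        rw [ell, Fin.sum_univ_three] <;> ring
      have h3 := s32_322 (J := powI 3 3 2) (isHomogeneous_X ℂ 1) (isHomogeneous_X ℂ 0)
        (isHomogeneous_X ℂ 2) (fun a b c h => powI_gen3 1 0 2 a b c h)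
      rw [hs] at h3
      convert h3 using 1 <;> ring
    · rw [h0, h1, h2]
      have hs : (X 2 : MvPolynomial (Fin 3) ℂ) + X 0 + X 1 = ell 3 := by
        rw [ell, Fin.sum_univ_three] <;> ring
      have h3 := s32_322 (J := powI 3 3 2) (isHomogeneous_X ℂ 2) (isHomogeneous_X ℂ 0)
        (isHomogeneous_X ℂ 1) (fun a b c h => powI_gen3 2 0 1 a b c h)
      rw [hs] at h3
      convert h3 using 1 <;> ring
    · rw [h0, h1, h2]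
      have hs : (X 2 : MvPolynomial (Fin 3) ℂ) + X 0 + X 1 = ell 3 := by
        rw [ell, Fin.sum_univ_three] <;> ring
      have h3 := s32_421 (J := powI 3 3 2) (isHomogeneous_X ℂ 2) (isHomogeneous_X ℂ 0)
        (isHomogeneous_X ℂ 1) (fun a b c h => powI_gen3 2 0 1 a b c h)
      rw [hs] at h3
      convert h3 using 1 <;> ring
    · rw [h0, h1, h2]
      have hs : (X 2 : MvPolynomial (Fin 3) ℂ) + X 0 + X 1 = ell 3 := by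
        rw [ell, Fin.sum_univ_three] <;> ring
      have h3 := s32_520 (J := powI 3 3 2) (isHomogeneous_X ℂ 2) (isHomogeneous_X ℂ 0)
        (isHomogeneous_X ℂ 1) (fun a b c h => powI_gen3 2 0 1 a b c h)
      rw [hs] at h3
      convert h3 using 1 <;> ring
    · rw [h0, h1, h2]
      have hs : (X 1 : MvPolynomial (Fin 3) ℂ) + X 0 + X 2 = ell 3 := by
        rw [ell, Fin.sum_univ_three] <;> ring
      have h3 := s32_511 (J := powI 3 3 2) (isHomogeneous_X ℂ 1) (isHomogeneous_X ℂ 0)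
        (isHomogeneous_X ℂ 2) (fun a b c h => powI_gen3 1 0 2 a b c h)
      rw [hs] at h3
      convert h3 using 1 <;> ring
    · rw [h0, h1, h2]
      have hs : (X 1 : MvPolynomial (Fin 3) ℂ) + X 2 + X 0 = ell 3 := by
        rw [ell, Fin.sum_univ_three] <;> ring
      have h3 := s32_421 (J := powI 3 3 2) (isHomogeneous_X ℂ 1) (isHomogeneous_X ℂ 2)
        (isHomogeneous_X ℂ 0) (fun a b c h => powI_gen3 1 2 0 a b c h)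
      rw [hs] at h3
      convert h3 using 1 <;> ring
    · rw [h0, h1, h2]
      have hs : (X 2 : MvPolynomial (Fin 3) ℂ) + X 1 + X 0 = ell 3 := by
        rw [ell, Fin.sum_univ_three] <;> ring
      have h3 := s32_421 (J := powI 3 3 2) (isHomogeneous_X ℂ 2) (isHomogeneous_X ℂ 1)
        (isHomogeneous_X ℂ 0) (fun a b c h => powI_gen3 2 1 0 a b c h)
      rw [hs] at h3
      convert h3 using 1 <;> ring
    · rw [h0, h1, h2]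
      have hs : (X 2 : MvPolynomial (Fin 3) ℂ) + X 0 + X 1 = ell 3 := by
        rw [ell, Fin.sum_univ_three] <;> ring
      have h3 := s32_511 (J := powI 3 3 2) (isHomogeneous_X ℂ 2) (isHomogeneous_X ℂ 0)
        (isHomogeneous_X ℂ 1) (fun a b c h => powI_gen3 2 0 1 a b c h)
      rw [hs] at h3
      convert h3 using 1 <;> ring
    · rw [h0, h1, h2]
      have hs : (X 1 : MvPolynomial (Fin 3) ℂ) + X 2 + X 0 = ell 3 := by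
        rw [ell, Fin.sum_univ_three] <;> ring
      have h3 := s32_520 (J := powI 3 3 2) (isHomogeneous_X ℂ 1) (isHomogeneous_X ℂ 2)
        (isHomogeneous_X ℂ 0) (fun a b c h => powI_gen3 1 2 0 a b c h)
      rw [hs] at h3
      convert h3 using 1 <;> ring
    · rw [h0, h1, h2]
      have hs : (X 2 : MvPolynomial (Fin 3) ℂ) + X 1 + X 0 = ell 3 := by
        rw [ell, Fin.sum_univ_three] <;> ring
      have h3 := s32_520 (J := powI 3 3 2) (isHomogeneous_X ℂ 2) (isHomogeneous_X ℂ 1)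
        (isHomogeneous_X ℂ 0) (fun a b c h => powI_gen3 2 1 0 a b c h)
      rw [hs] at h3
      convert h3 using 1 <;> ring
  · apply img_of_nonstd (by norm_num)
    rw [Fin.sum_univ_three]
    exact h

theorem ell_pow_zero_coeff {d k j : ℕ} (hd : 0 < d) {f : MvPolynomial (Fin 3) ℂ}
    (hJ : ell 3 ^ j * f ∈ powI 3 d k) (a b c : ℕ) (h : a / d + b / d + c / d < k) :
    coeff (mk3 a b c) (ell 3 ^ j * f) = 0 := by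
  by_contra hne
  have h1 := (mem_powI_iff hd k).mp hJ _ (mem_support_iff.mpr hne)
  rw [Fin.sum_univ_three, mk3_zero, mk3_one, mk3_two] at h1
  omega

theorem eq_zero_of_coeff3 {i : ℕ} {f : MvPolynomial (Fin 3) ℂ} (hf : f.IsHomogeneous i)
    (h : ∀ a < i + 1, ∀ b < i + 1, ∀ c < i + 1, a + b + c = i → coeff (mk3 a b c) f = 0) :
    f = 0 := by
  rw [eq_zero_iff]
  intro m
  by_contra hne
  have h1 := isHomogeneous_iff.mp hf m hne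
  rw [Fin.sum_univ_three] at h1
  rw [mk3_eta m] at hne
  exact hne (h (m 0) (by omega) (m 1) (by omega) (m 2) (by omega) h1)

theorem inj23_4_2 : InjP (powI 3 2 3) (ell 3) 4 2 := by
  intro f hf hJ
  have key : f = 0 := by
    have h_5_1_0 := ell_pow_zero_coeff (d := 2) (k := 3) (by norm_num) hJ 5 1 0 (by norm_num)
    have h_5_0_1 := ell_pow_zero_coeff (d := 2) (k := 3) (by norm_num) hJ 5 0 1 (by norm_num)
    have h_4_1_1 := ell_pow_zero_coeff (d := 2) (k := 3) (by norm_num) hJ 4 1 1 (by norm_num)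
    have h_3_3_0 := ell_pow_zero_coeff (d := 2) (k := 3) (by norm_num) hJ 3 3 0 (by norm_num)
    have h_3_2_1 := ell_pow_zero_coeff (d := 2) (k := 3) (by norm_num) hJ 3 2 1 (by norm_num)
    have h_3_1_2 := ell_pow_zero_coeff (d := 2) (k := 3) (by norm_num) hJ 3 1 2 (by norm_num)
    have h_3_0_3 := ell_pow_zero_coeff (d := 2) (k := 3) (by norm_num) hJ 3 0 3 (by norm_num)
    have h_2_3_1 := ell_pow_zero_coeff (d := 2) (k := 3) (by norm_num) hJ 2 3 1 (by norm_num)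
    have h_2_1_3 := ell_pow_zero_coeff (d := 2) (k := 3) (by norm_num) hJ 2 1 3 (by norm_num)
    have h_1_5_0 := ell_pow_zero_coeff (d := 2) (k := 3) (by norm_num) hJ 1 5 0 (by norm_num)
    have h_1_4_1 := ell_pow_zero_coeff (d := 2) (k := 3) (by norm_num) hJ 1 4 1 (by norm_num)
    have h_1_3_2 := ell_pow_zero_coeff (d := 2) (k := 3) (by norm_num) hJ 1 3 2 (by norm_num)
    have h_1_2_3 := ell_pow_zero_coeff (d := 2) (k := 3) (by norm_num) hJ 1 2 3 (by norm_num)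
    have h_1_1_4 := ell_pow_zero_coeff (d := 2) (k := 3) (by norm_num) hJ 1 1 4 (by norm_num)
    have h_1_0_5 := ell_pow_zero_coeff (d := 2) (k := 3) (by norm_num) hJ 1 0 5 (by norm_num)
    have h_0_5_1 := ell_pow_zero_coeff (d := 2) (k := 3) (by norm_num) hJ 0 5 1 (by norm_num)
    have h_0_3_3 := ell_pow_zero_coeff (d := 2) (k := 3) (by norm_num) hJ 0 3 3 (by norm_num)
    have h_0_1_5 := ell_pow_zero_coeff (d := 2) (k := 3) (by norm_num) hJ 0 1 5 (by norm_num)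
    simp only [pow_two, mul_assoc, coeff_ell3] at h_5_1_0 h_5_0_1 h_4_1_1 h_3_3_0 h_3_2_1 h_3_1_2 h_3_0_3 h_2_3_1 h_2_1_3 h_1_5_0 h_1_4_1 h_1_3_2 h_1_2_3 h_1_1_4 h_1_0_5 h_0_5_1 h_0_3_3 h_0_1_5
    norm_num at h_5_1_0 h_5_0_1 h_4_1_1 h_3_3_0 h_3_2_1 h_3_1_2 h_3_0_3 h_2_3_1 h_2_1_3 h_1_5_0 h_1_4_1 h_1_3_2 h_1_2_3 h_1_1_4 h_1_0_5 h_0_5_1 h_0_3_3 h_0_1_5
    have k_4_0_0 : coeff (mk3 4 0 0) f = 0 := by
      linear_combination (5/16) * h_5_1_0 + (5/16) * h_5_0_1 + (-1/8) * h_4_1_1 + (-1/16) * h_3_3_0 + (-1/16) * h_3_0_3 + (1/16) * h_2_3_1 + (1/16) * h_2_1_3 + (1/16) * h_1_5_0 + (-1/16) * h_1_4_1 + (-1/16) * h_1_2_3 + (1/16) * h_0_3_3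
    have k_3_1_0 : coeff (mk3 3 1 0) f = 0 := by
      linear_combination (3/8) * h_5_1_0 + (-5/8) * h_5_0_1 + (1/4) * h_4_1_1 + (1/8) * h_3_3_0 + (1/8) * h_3_0_3 + (-1/8) * h_2_3_1 + (-1/8) * h_2_1_3 + (-1/8) * h_1_5_0 + (1/8) * h_1_4_1 + (1/8) * h_1_2_3 + (-1/8) * h_0_3_3
    have k_3_0_1 : coeff (mk3 3 0 1) f = 0 := by
      linear_combination (-5/8) * h_5_1_0 + (3/8) * h_5_0_1 + (1/4) * h_4_1_1 + (1/8) * h_3_3_0 + (1/8) * h_3_0_3 + (-1/8) * h_2_3_1 + (-1/8) * h_2_1_3 + (-1/8) * h_1_5_0 + (1/8) * h_1_4_1 + (1/8) * h_1_2_3 + (-1/8) * h_0_3_3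
    have k_2_2_0 : coeff (mk3 2 2 0) f = 0 := by
      linear_combination (-1/8) * h_5_1_0 + (5/8) * h_5_0_1 + (-1/2) * h_4_1_1 + (3/8) * h_3_3_0 + (3/8) * h_3_2_1 + (-1/4) * h_2_3_1 + (-1/8) * h_1_5_0 + (1/8) * h_1_4_1
    have k_2_1_1 : coeff (mk3 2 1 1) f = 0 := by
      linear_combination (-1/8) * h_5_1_0 + (-1/8) * h_5_0_1 + (1/4) * h_4_1_1 + (-3/8) * h_3_3_0 + (-3/8) * h_3_0_3 + (3/8) * h_2_3_1 + (3/8) * h_2_1_3 + (3/8) * h_1_5_0 + (-3/8) * h_1_4_1 + (-3/8) * h_1_2_3 + (3/8) * h_0_3_3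
    have k_2_0_2 : coeff (mk3 2 0 2) f = 0 := by
      linear_combination (5/8) * h_5_1_0 + (-1/8) * h_5_0_1 + (-1/2) * h_4_1_1 + (3/8) * h_3_1_2 + (3/8) * h_3_0_3 + (-1/4) * h_2_1_3 + (-1/8) * h_1_5_0 + (1/8) * h_1_4_1 + (-1/8) * h_1_3_2 + (1/8) * h_1_2_3
    have k_1_3_0 : coeff (mk3 1 3 0) f = 0 := by
      linear_combination (-1/8) * h_5_1_0 + (-5/8) * h_5_0_1 + (3/4) * h_4_1_1 + (1/8) * h_3_3_0 + (-3/4) * h_3_2_1 + (-1/8) * h_3_0_3 + (5/8) * h_2_3_1 + (1/8) * h_2_1_3 + (3/8) * h_1_5_0 + (-3/8) * h_1_4_1 + (-1/8) * h_1_2_3 + (1/8) * h_0_3_3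
    have k_1_2_1 : coeff (mk3 1 2 1) f = 0 := by
      linear_combination (3/8) * h_5_1_0 + (-1/8) * h_5_0_1 + (-1/4) * h_4_1_1 + (-3/8) * h_3_3_0 + (1/4) * h_3_2_1 + (3/8) * h_3_0_3 + (1/8) * h_2_3_1 + (-3/8) * h_2_1_3 + (-1/8) * h_1_5_0 + (1/8) * h_1_4_1 + (3/8) * h_1_2_3 + (-3/8) * h_0_3_3
    have k_1_1_2 : coeff (mk3 1 1 2) f = 0 := by
      linear_combination (-1/8) * h_5_1_0 + (3/8) * h_5_0_1 + (-1/4) * h_4_1_1 + (3/8) * h_3_3_0 + (1/4) * h_3_1_2 + (-3/8) * h_3_0_3 + (-3/8) * h_2_3_1 + (1/8) * h_2_1_3 + (-1/8) * h_1_5_0 + (1/8) * h_1_4_1 + (1/4) * h_1_3_2 + (1/8) * h_1_2_3 + (-3/8) * h_0_3_3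
    have k_1_0_3 : coeff (mk3 1 0 3) f = 0 := by
      linear_combination (-5/8) * h_5_1_0 + (-1/8) * h_5_0_1 + (3/4) * h_4_1_1 + (-1/8) * h_3_3_0 + (-3/4) * h_3_1_2 + (1/8) * h_3_0_3 + (1/8) * h_2_3_1 + (5/8) * h_2_1_3 + (3/8) * h_1_5_0 + (-3/8) * h_1_4_1 + (1/4) * h_1_3_2 + (-3/8) * h_1_2_3 + (1/8) * h_0_3_3
    have k_0_4_0 : coeff (mk3 0 4 0) f = 0 := by
      linear_combination (1/16) * h_5_1_0 + (5/16) * h_5_0_1 + (-3/8) * h_4_1_1 + (-1/16) * h_3_3_0 + (3/8) * h_3_2_1 + (1/16) * h_3_0_3 + (-5/16) * h_2_3_1 + (-1/16) * h_2_1_3 + (5/16) * h_1_5_0 + (3/16) * h_1_4_1 + (1/16) * h_1_2_3 + (-1/16) * h_0_3_3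
    have k_0_3_1 : coeff (mk3 0 3 1) f = 0 := by
      linear_combination (-1/8) * h_5_1_0 + (3/8) * h_5_0_1 + (-1/4) * h_4_1_1 + (1/8) * h_3_3_0 + (1/4) * h_3_2_1 + (-1/8) * h_3_0_3 + (-3/8) * h_2_3_1 + (1/8) * h_2_1_3 + (-5/8) * h_1_5_0 + (5/8) * h_1_4_1 + (-1/8) * h_1_2_3 + (1/8) * h_0_3_3
    have k_0_2_2 : coeff (mk3 0 2 2) f = 0 := by
      linear_combination (-1/8) * h_5_1_0 + (-1/8) * h_5_0_1 + (1/4) * h_4_1_1 + (-1/8) * h_3_2_1 + (-1/8) * h_3_1_2 + (1/8) * h_2_3_1 + (1/8) * h_2_1_3 + (5/8) * h_1_5_0 + (-5/8) * h_1_4_1 + (3/8) * h_1_3_2 + (-1/4) * h_1_2_3 + (3/8) * h_0_3_3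
    have k_0_1_3 : coeff (mk3 0 1 3) f = 0 := by
      linear_combination (3/8) * h_5_1_0 + (-1/8) * h_5_0_1 + (-1/4) * h_4_1_1 + (-1/8) * h_3_3_0 + (1/4) * h_3_1_2 + (1/8) * h_3_0_3 + (1/8) * h_2_3_1 + (-3/8) * h_2_1_3 + (-5/8) * h_1_5_0 + (5/8) * h_1_4_1 + (-3/4) * h_1_3_2 + (5/8) * h_1_2_3 + (1/8) * h_0_3_3
    have k_0_0_4 : coeff (mk3 0 0 4) f = 0 := by
      linear_combination (5/16) * h_5_1_0 + (1/16) * h_5_0_1 + (-3/8) * h_4_1_1 + (1/16) * h_3_3_0 + (3/8) * h_3_1_2 + (-1/16) * h_3_0_3 + (-1/16) * h_2_3_1 + (-5/16) * h_2_1_3 + (5/16) * h_1_5_0 + (-5/16) * h_1_4_1 + (3/8) * h_1_3_2 + (-5/16) * h_1_2_3 + (1/2) * h_1_1_4 + (-1/16) * h_0_3_3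
    apply eq_zero_of_coeff3 hf
    intro a ha b hb c hc habc
    interval_cases a <;> interval_cases b <;> (first | (exfalso; omega) | (obtain ⟨t, rfl⟩ : ∃ t, c = t := ⟨c, rfl⟩; interval_cases c <;> first | (exfalso; omega) | assumption))
  rw [key]
  exact Ideal.zero_mem _

theorem inj32_4_3 : InjP (powI 3 3 2) (ell 3) 4 3 := by
  intro f hf hJ
  have key : f = 0 := by
    have h_5_2_0 := ell_pow_zero_coeff (d := 3) (k := 2) (by norm_num) hJ 5 2 0 (by norm_num)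
    have h_5_1_1 := ell_pow_zero_coeff (d := 3) (k := 2) (by norm_num) hJ 5 1 1 (by norm_num)
    have h_5_0_2 := ell_pow_zero_coeff (d := 3) (k := 2) (by norm_num) hJ 5 0 2 (by norm_num)
    have h_4_2_1 := ell_pow_zero_coeff (d := 3) (k := 2) (by norm_num) hJ 4 2 1 (by norm_num)
    have h_4_1_2 := ell_pow_zero_coeff (d := 3) (k := 2) (by norm_num) hJ 4 1 2 (by norm_num)
    have h_3_2_2 := ell_pow_zero_coeff (d := 3) (k := 2) (by norm_num) hJ 3 2 2 (by norm_num)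
    have h_2_5_0 := ell_pow_zero_coeff (d := 3) (k := 2) (by norm_num) hJ 2 5 0 (by norm_num)
    have h_2_4_1 := ell_pow_zero_coeff (d := 3) (k := 2) (by norm_num) hJ 2 4 1 (by norm_num)
    have h_2_3_2 := ell_pow_zero_coeff (d := 3) (k := 2) (by norm_num) hJ 2 3 2 (by norm_num)
    have h_2_2_3 := ell_pow_zero_coeff (d := 3) (k := 2) (by norm_num) hJ 2 2 3 (by norm_num)
    have h_2_1_4 := ell_pow_zero_coeff (d := 3) (k := 2) (by norm_num) hJ 2 1 4 (by norm_num)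
    have h_2_0_5 := ell_pow_zero_coeff (d := 3) (k := 2) (by norm_num) hJ 2 0 5 (by norm_num)
    have h_1_5_1 := ell_pow_zero_coeff (d := 3) (k := 2) (by norm_num) hJ 1 5 1 (by norm_num)
    have h_1_4_2 := ell_pow_zero_coeff (d := 3) (k := 2) (by norm_num) hJ 1 4 2 (by norm_num)
    have h_1_2_4 := ell_pow_zero_coeff (d := 3) (k := 2) (by norm_num) hJ 1 2 4 (by norm_num)
    have h_1_1_5 := ell_pow_zero_coeff (d := 3) (k := 2) (by norm_num) hJ 1 1 5 (by norm_num)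
    have h_0_5_2 := ell_pow_zero_coeff (d := 3) (k := 2) (by norm_num) hJ 0 5 2 (by norm_num)
    have h_0_2_5 := ell_pow_zero_coeff (d := 3) (k := 2) (by norm_num) hJ 0 2 5 (by norm_num)
    simp only [pow_succ, pow_zero, one_mul, mul_assoc, coeff_ell3] at h_5_2_0 h_5_1_1 h_5_0_2 h_4_2_1 h_4_1_2 h_3_2_2 h_2_5_0 h_2_4_1 h_2_3_2 h_2_2_3 h_2_1_4 h_2_0_5 h_1_5_1 h_1_4_2 h_1_2_4 h_1_1_5 h_0_5_2 h_0_2_5
    norm_num at h_5_2_0 h_5_1_1 h_5_0_2 h_4_2_1 h_4_1_2 h_3_2_2 h_2_5_0 h_2_4_1 h_2_3_2 h_2_2_3 h_2_1_4 h_2_0_5 h_1_5_1 h_1_4_2 h_1_2_4 h_1_1_5 h_0_5_2 h_0_2_5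
    have k_4_0_0 : coeff (mk3 4 0 0) f = 0 := by
      linear_combination (5/42) * h_5_2_0 + (5/21) * h_5_1_1 + (5/42) * h_5_0_2 + (-4/21) * h_4_2_1 + (-4/21) * h_4_1_2 + (3/14) * h_3_2_2 + (1/126) * h_2_5_0 + (2/63) * h_2_4_1 + (-1/14) * h_2_3_2 + (-5/63) * h_2_2_3 + (5/126) * h_2_1_4 + (-5/126) * h_1_5_1 + (5/126) * h_1_4_2 + (5/126) * h_1_2_4 + (-5/126) * h_1_1_5
    have k_3_1_0 : coeff (mk3 3 1 0) f = 0 := by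
      linear_combination (25/126) * h_5_2_0 + (-10/63) * h_5_1_1 + (-5/14) * h_5_0_2 + (8/63) * h_4_2_1 + (22/63) * h_4_1_2 + (-13/42) * h_3_2_2 + (-1/42) * h_2_5_0 + (-2/21) * h_2_4_1 + (3/14) * h_2_3_2 + (1/63) * h_2_2_3 + (-1/126) * h_2_1_4 + (5/42) * h_1_5_1 + (-5/42) * h_1_4_2 + (-1/126) * h_1_2_4 + (1/126) * h_1_1_5
    have k_3_0_1 : coeff (mk3 3 0 1) f = 0 := by
      linear_combination (-5/14) * h_5_2_0 + (-10/63) * h_5_1_1 + (25/126) * h_5_0_2 + (22/63) * h_4_2_1 + (8/63) * h_4_1_2 + (-13/42) * h_3_2_2 + (-1/42) * h_2_5_0 + (1/63) * h_2_4_1 + (-1/126) * h_2_3_2 + (5/21) * h_2_2_3 + (-5/42) * h_2_1_4 + (1/126) * h_1_5_1 + (-1/126) * h_1_4_2 + (-5/42) * h_1_2_4 + (5/42) * h_1_1_5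
    have k_2_2_0 : coeff (mk3 2 2 0) f = 0 := by
      linear_combination (1/21) * h_5_2_0 + (-5/21) * h_5_1_1 + (5/7) * h_5_0_2 + (4/21) * h_4_2_1 + (-10/21) * h_4_1_2 + (2/7) * h_3_2_2 + (1/21) * h_2_5_0 + (4/21) * h_2_4_1 + (-3/7) * h_2_3_2 + (4/21) * h_2_2_3 + (-2/21) * h_2_1_4 + (-5/21) * h_1_5_1 + (5/21) * h_1_4_2 + (-2/21) * h_1_2_4 + (2/21) * h_1_1_5
    have k_2_1_1 : coeff (mk3 2 1 1) f = 0 := by
      linear_combination (-5/21) * h_5_2_0 + (11/21) * h_5_1_1 + (-5/21) * h_5_0_2 + (-2/7) * h_4_2_1 + (-2/7) * h_4_1_2 + (4/7) * h_3_2_2 + (2/21) * h_2_5_0 + (1/21) * h_2_4_1 + (-4/21) * h_2_3_2 + (-2/7) * h_2_2_3 + (1/7) * h_2_1_4 + (-1/7) * h_1_5_1 + (1/7) * h_1_4_2 + (1/7) * h_1_2_4 + (-1/7) * h_1_1_5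
    have k_2_0_2 : coeff (mk3 2 0 2) f = 0 := by
      linear_combination (5/7) * h_5_2_0 + (-5/21) * h_5_1_1 + (1/21) * h_5_0_2 + (-10/21) * h_4_2_1 + (4/21) * h_4_1_2 + (2/7) * h_3_2_2 + (1/21) * h_2_5_0 + (-1/7) * h_2_4_1 + (5/21) * h_2_3_2 + (-10/21) * h_2_2_3 + (5/21) * h_2_1_4 + (2/21) * h_1_5_1 + (-2/21) * h_1_4_2 + (5/21) * h_1_2_4 + (-5/21) * h_1_1_5
    have k_1_3_0 : coeff (mk3 1 3 0) f = 0 := by
      linear_combination (-1/42) * h_5_2_0 + (5/42) * h_5_1_1 + (-5/14) * h_5_0_2 + (-2/21) * h_4_2_1 + (5/21) * h_4_1_2 + (-1/7) * h_3_2_2 + (25/126) * h_2_5_0 + (8/63) * h_2_4_1 + (1/21) * h_2_3_2 + (1/63) * h_2_2_3 + (-1/126) * h_2_1_4 + (-10/63) * h_1_5_1 + (-1/126) * h_1_4_2 + (-1/126) * h_1_2_4 + (1/126) * h_1_1_5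
    have k_1_2_1 : coeff (mk3 1 2 1) f = 0 := by
      linear_combination (2/21) * h_5_2_0 + (-1/7) * h_5_1_1 + (-5/21) * h_5_0_2 + (1/21) * h_4_2_1 + (8/21) * h_4_1_2 + (-3/7) * h_3_2_2 + (-5/21) * h_2_5_0 + (-2/7) * h_2_4_1 + (17/21) * h_2_3_2 + (-2/7) * h_2_2_3 + (1/7) * h_2_1_4 + (11/21) * h_1_5_1 + (-11/21) * h_1_4_2 + (1/7) * h_1_2_4 + (-1/7) * h_1_1_5
    have k_1_1_2 : coeff (mk3 1 1 2) f = 0 := by
      linear_combination (-5/21) * h_5_2_0 + (-1/7) * h_5_1_1 + (2/21) * h_5_0_2 + (8/21) * h_4_2_1 + (1/21) * h_4_1_2 + (-3/7) * h_3_2_2 + (-5/21) * h_2_5_0 + (8/21) * h_2_4_1 + (-11/21) * h_2_3_2 + (22/21) * h_2_2_3 + (-11/21) * h_2_1_4 + (-1/7) * h_1_5_1 + (1/7) * h_1_4_2 + (-11/21) * h_1_2_4 + (11/21) * h_1_1_5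
    have k_1_0_3 : coeff (mk3 1 0 3) f = 0 := by
      linear_combination (-5/14) * h_5_2_0 + (5/42) * h_5_1_1 + (-1/42) * h_5_0_2 + (5/21) * h_4_2_1 + (-2/21) * h_4_1_2 + (-1/7) * h_3_2_2 + (25/126) * h_2_5_0 + (-13/63) * h_2_4_1 + (3/14) * h_2_3_2 + (-19/126) * h_2_2_3 + (41/126) * h_2_1_4 + (1/126) * h_1_5_1 + (-1/126) * h_1_4_2 + (-1/126) * h_1_2_4 + (-10/63) * h_1_1_5
    have k_0_4_0 : coeff (mk3 0 4 0) f = 0 := by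
      linear_combination (1/126) * h_5_2_0 + (-5/126) * h_5_1_1 + (5/42) * h_5_0_2 + (2/63) * h_4_2_1 + (-5/63) * h_4_1_2 + (1/21) * h_3_2_2 + (5/42) * h_2_5_0 + (-4/21) * h_2_4_1 + (2/21) * h_2_3_2 + (-5/63) * h_2_2_3 + (5/126) * h_2_1_4 + (5/21) * h_1_5_1 + (-1/14) * h_1_4_2 + (5/126) * h_1_2_4 + (-5/126) * h_1_1_5
    have k_0_3_1 : coeff (mk3 0 3 1) f = 0 := by
      linear_combination (-1/42) * h_5_2_0 + (1/126) * h_5_1_1 + (25/126) * h_5_0_2 + (1/63) * h_4_2_1 + (-13/63) * h_4_1_2 + (4/21) * h_3_2_2 + (-5/14) * h_2_5_0 + (22/63) * h_2_4_1 + (-32/63) * h_2_3_2 + (5/21) * h_2_2_3 + (-5/42) * h_2_1_4 + (-10/63) * h_1_5_1 + (41/126) * h_1_4_2 + (-5/42) * h_1_2_4 + (5/42) * h_1_1_5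
    have k_0_2_2 : coeff (mk3 0 2 2) f = 0 := by
      linear_combination (1/21) * h_5_2_0 + (2/21) * h_5_1_1 + (1/21) * h_5_0_2 + (-1/7) * h_4_2_1 + (-1/7) * h_4_1_2 + (2/7) * h_3_2_2 + (5/7) * h_2_5_0 + (-10/21) * h_2_4_1 + (5/21) * h_2_3_2 + (-10/21) * h_2_2_3 + (5/21) * h_2_1_4 + (-5/21) * h_1_5_1 + (5/21) * h_1_4_2 + (5/21) * h_1_2_4 + (-5/21) * h_1_1_5
    have k_0_1_3 : coeff (mk3 0 1 3) f = 0 := by
      linear_combination (25/126) * h_5_2_0 + (1/126) * h_5_1_1 + (-1/42) * h_5_0_2 + (-13/63) * h_4_2_1 + (1/63) * h_4_1_2 + (4/21) * h_3_2_2 + (-5/14) * h_2_5_0 + (5/21) * h_2_4_1 + (-5/42) * h_2_3_2 + (-19/126) * h_2_2_3 + (-1/126) * h_2_1_4 + (5/42) * h_1_5_1 + (-5/42) * h_1_4_2 + (41/126) * h_1_2_4 + (-10/63) * h_1_1_5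
    have k_0_0_4 : coeff (mk3 0 0 4) f = 0 := by
      linear_combination (5/42) * h_5_2_0 + (-5/126) * h_5_1_1 + (1/126) * h_5_0_2 + (-5/63) * h_4_2_1 + (2/63) * h_4_1_2 + (1/21) * h_3_2_2 + (5/42) * h_2_5_0 + (-5/63) * h_2_4_1 + (5/126) * h_2_3_2 + (-1/42) * h_2_2_3 + (-1/14) * h_2_1_4 + (-5/126) * h_1_5_1 + (5/126) * h_1_4_2 + (-1/14) * h_1_2_4 + (5/21) * h_1_1_5
    apply eq_zero_of_coeff3 hf
    intro a ha b hb c hc habc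
    interval_cases a <;> interval_cases b <;> (first | (exfalso; omega) | (obtain ⟨t, rfl⟩ : ∃ t, c = t := ⟨c, rfl⟩; interval_cases c <;> first | (exfalso; omega) | assumption))
  rw [key]
  exact Ideal.zero_mem _

theorem inj32_5_1 : InjP (powI 3 3 2) (ell 3) 5 1 := by
  intro f hf hJ
  have key : f = 0 := by
    have h_5_1_0 := ell_pow_zero_coeff (d := 3) (k := 2) (by norm_num) hJ 5 1 0 (by norm_num)
    have h_5_0_1 := ell_pow_zero_coeff (d := 3) (k := 2) (by norm_num) hJ 5 0 1 (by norm_num)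
    have h_4_2_0 := ell_pow_zero_coeff (d := 3) (k := 2) (by norm_num) hJ 4 2 0 (by norm_num)
    have h_4_1_1 := ell_pow_zero_coeff (d := 3) (k := 2) (by norm_num) hJ 4 1 1 (by norm_num)
    have h_4_0_2 := ell_pow_zero_coeff (d := 3) (k := 2) (by norm_num) hJ 4 0 2 (by norm_num)
    have h_3_2_1 := ell_pow_zero_coeff (d := 3) (k := 2) (by norm_num) hJ 3 2 1 (by norm_num)
    have h_3_1_2 := ell_pow_zero_coeff (d := 3) (k := 2) (by norm_num) hJ 3 1 2 (by norm_num)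
    have h_2_4_0 := ell_pow_zero_coeff (d := 3) (k := 2) (by norm_num) hJ 2 4 0 (by norm_num)
    have h_2_3_1 := ell_pow_zero_coeff (d := 3) (k := 2) (by norm_num) hJ 2 3 1 (by norm_num)
    have h_2_2_2 := ell_pow_zero_coeff (d := 3) (k := 2) (by norm_num) hJ 2 2 2 (by norm_num)
    have h_2_1_3 := ell_pow_zero_coeff (d := 3) (k := 2) (by norm_num) hJ 2 1 3 (by norm_num)
    have h_2_0_4 := ell_pow_zero_coeff (d := 3) (k := 2) (by norm_num) hJ 2 0 4 (by norm_num)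
    have h_1_5_0 := ell_pow_zero_coeff (d := 3) (k := 2) (by norm_num) hJ 1 5 0 (by norm_num)
    have h_1_4_1 := ell_pow_zero_coeff (d := 3) (k := 2) (by norm_num) hJ 1 4 1 (by norm_num)
    have h_1_3_2 := ell_pow_zero_coeff (d := 3) (k := 2) (by norm_num) hJ 1 3 2 (by norm_num)
    have h_1_2_3 := ell_pow_zero_coeff (d := 3) (k := 2) (by norm_num) hJ 1 2 3 (by norm_num)
    have h_1_1_4 := ell_pow_zero_coeff (d := 3) (k := 2) (by norm_num) hJ 1 1 4 (by norm_num)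
    have h_1_0_5 := ell_pow_zero_coeff (d := 3) (k := 2) (by norm_num) hJ 1 0 5 (by norm_num)
    have h_0_5_1 := ell_pow_zero_coeff (d := 3) (k := 2) (by norm_num) hJ 0 5 1 (by norm_num)
    have h_0_4_2 := ell_pow_zero_coeff (d := 3) (k := 2) (by norm_num) hJ 0 4 2 (by norm_num)
    have h_0_2_4 := ell_pow_zero_coeff (d := 3) (k := 2) (by norm_num) hJ 0 2 4 (by norm_num)
    have h_0_1_5 := ell_pow_zero_coeff (d := 3) (k := 2) (by norm_num) hJ 0 1 5 (by norm_num)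
    simp only [pow_one, coeff_ell3] at h_5_1_0 h_5_0_1 h_4_2_0 h_4_1_1 h_4_0_2 h_3_2_1 h_3_1_2 h_2_4_0 h_2_3_1 h_2_2_2 h_2_1_3 h_2_0_4 h_1_5_0 h_1_4_1 h_1_3_2 h_1_2_3 h_1_1_4 h_1_0_5 h_0_5_1 h_0_4_2 h_0_2_4 h_0_1_5
    norm_num at h_5_1_0 h_5_0_1 h_4_2_0 h_4_1_1 h_4_0_2 h_3_2_1 h_3_1_2 h_2_4_0 h_2_3_1 h_2_2_2 h_2_1_3 h_2_0_4 h_1_5_0 h_1_4_1 h_1_3_2 h_1_2_3 h_1_1_4 h_1_0_5 h_0_5_1 h_0_4_2 h_0_2_4 h_0_1_5
    have k_5_0_0 : coeff (mk3 5 0 0) f = 0 := by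
      linear_combination (5/9) * h_5_1_0 + (4/9) * h_5_0_1 + (-2/9) * h_4_2_0 + (-1/3) * h_4_1_1 + (-1/9) * h_4_0_2 + (2/9) * h_3_2_1 + (1/9) * h_3_1_2 + (1/9) * h_2_4_0 + (-1/9) * h_2_3_1 + (-1/9) * h_2_2_2 + (-1/9) * h_1_5_0 + (1/9) * h_1_3_2 + (1/9) * h_0_5_1 + (-1/9) * h_0_4_2
    have k_4_1_0 : coeff (mk3 4 1 0) f = 0 := by
      linear_combination (4/9) * h_5_1_0 + (-4/9) * h_5_0_1 + (2/9) * h_4_2_0 + (1/3) * h_4_1_1 + (1/9) * h_4_0_2 + (-2/9) * h_3_2_1 + (-1/9) * h_3_1_2 + (-1/9) * h_2_4_0 + (1/9) * h_2_3_1 + (1/9) * h_2_2_2 + (1/9) * h_1_5_0 + (-1/9) * h_1_3_2 + (-1/9) * h_0_5_1 + (1/9) * h_0_4_2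
    have k_4_0_1 : coeff (mk3 4 0 1) f = 0 := by
      linear_combination (-5/9) * h_5_1_0 + (5/9) * h_5_0_1 + (2/9) * h_4_2_0 + (1/3) * h_4_1_1 + (1/9) * h_4_0_2 + (-2/9) * h_3_2_1 + (-1/9) * h_3_1_2 + (-1/9) * h_2_4_0 + (1/9) * h_2_3_1 + (1/9) * h_2_2_2 + (1/9) * h_1_5_0 + (-1/9) * h_1_3_2 + (-1/9) * h_0_5_1 + (1/9) * h_0_4_2
    have k_3_2_0 : coeff (mk3 3 2 0) f = 0 := by
      linear_combination (-4/9) * h_5_1_0 + (4/9) * h_5_0_1 + (7/9) * h_4_2_0 + (-1/3) * h_4_1_1 + (-1/9) * h_4_0_2 + (2/9) * h_3_2_1 + (1/9) * h_3_1_2 + (1/9) * h_2_4_0 + (-1/9) * h_2_3_1 + (-1/9) * h_2_2_2 + (-1/9) * h_1_5_0 + (1/9) * h_1_3_2 + (1/9) * h_0_5_1 + (-1/9) * h_0_4_2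
    have k_3_1_1 : coeff (mk3 3 1 1) f = 0 := by
      linear_combination (1/9) * h_5_1_0 + (-1/9) * h_5_0_1 + (-4/9) * h_4_2_0 + (1/3) * h_4_1_1 + (-2/9) * h_4_0_2 + (4/9) * h_3_2_1 + (2/9) * h_3_1_2 + (2/9) * h_2_4_0 + (-2/9) * h_2_3_1 + (-2/9) * h_2_2_2 + (-2/9) * h_1_5_0 + (2/9) * h_1_3_2 + (2/9) * h_0_5_1 + (-2/9) * h_0_4_2
    have k_3_0_2 : coeff (mk3 3 0 2) f = 0 := by
      linear_combination (5/9) * h_5_1_0 + (-5/9) * h_5_0_1 + (-2/9) * h_4_2_0 + (-1/3) * h_4_1_1 + (8/9) * h_4_0_2 + (2/9) * h_3_2_1 + (1/9) * h_3_1_2 + (1/9) * h_2_4_0 + (-1/9) * h_2_3_1 + (-1/9) * h_2_2_2 + (-1/9) * h_1_5_0 + (1/9) * h_1_3_2 + (1/9) * h_0_5_1 + (-1/9) * h_0_4_2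
    have k_2_3_0 : coeff (mk3 2 3 0) f = 0 := by
      linear_combination (-1/9) * h_5_1_0 + (1/9) * h_5_0_1 + (1/9) * h_4_2_0 + (-1/9) * h_4_0_2 + (-1/9) * h_3_2_1 + (1/9) * h_3_1_2 + (7/9) * h_2_4_0 + (2/9) * h_2_3_1 + (-1/9) * h_2_2_2 + (-4/9) * h_1_5_0 + (-1/3) * h_1_4_1 + (1/9) * h_1_3_2 + (4/9) * h_0_5_1 + (-1/9) * h_0_4_2
    have k_2_2_1 : coeff (mk3 2 2 1) f = 0 := by
      linear_combination (1/3) * h_5_1_0 + (-1/3) * h_5_0_1 + (-1/3) * h_4_2_0 + (1/3) * h_4_0_2 + (1/3) * h_3_2_1 + (-1/3) * h_3_1_2 + (-1/3) * h_2_4_0 + (1/3) * h_2_3_1 + (1/3) * h_2_2_2 + (1/3) * h_1_5_0 + (-1/3) * h_1_3_2 + (-1/3) * h_0_5_1 + (1/3) * h_0_4_2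
    have k_2_1_2 : coeff (mk3 2 1 2) f = 0 := by
      linear_combination (-2/3) * h_5_1_0 + (2/3) * h_5_0_1 + (2/3) * h_4_2_0 + (-2/3) * h_4_0_2 + (-2/3) * h_3_2_1 + (2/3) * h_3_1_2 + (-1/3) * h_2_4_0 + (1/3) * h_2_3_1 + (1/3) * h_2_2_2 + (1/3) * h_1_5_0 + (-1/3) * h_1_3_2 + (-1/3) * h_0_5_1 + (1/3) * h_0_4_2
    have k_2_0_3 : coeff (mk3 2 0 3) f = 0 := by
      linear_combination (5/9) * h_5_1_0 + (-5/9) * h_5_0_1 + (-5/9) * h_4_2_0 + (5/9) * h_4_0_2 + (5/9) * h_3_2_1 + (-5/9) * h_3_1_2 + (4/9) * h_2_4_0 + (-4/9) * h_2_3_1 + (-1/9) * h_2_2_2 + (2/3) * h_2_1_3 + (1/3) * h_2_0_4 + (-4/9) * h_1_5_0 + (4/9) * h_1_3_2 + (-1/3) * h_1_2_3 + (-1/3) * h_1_1_4 + (4/9) * h_0_5_1 + (-4/9) * h_0_4_2 + (1/3) * h_0_2_4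
    have k_1_4_0 : coeff (mk3 1 4 0) f = 0 := by
      linear_combination (1/9) * h_5_1_0 + (-1/9) * h_5_0_1 + (-1/9) * h_4_2_0 + (1/9) * h_4_0_2 + (1/9) * h_3_2_1 + (-1/9) * h_3_1_2 + (2/9) * h_2_4_0 + (-2/9) * h_2_3_1 + (1/9) * h_2_2_2 + (4/9) * h_1_5_0 + (1/3) * h_1_4_1 + (-1/9) * h_1_3_2 + (-4/9) * h_0_5_1 + (1/9) * h_0_4_2
    have k_1_3_1 : coeff (mk3 1 3 1) f = 0 := by
      linear_combination (-2/9) * h_5_1_0 + (2/9) * h_5_0_1 + (2/9) * h_4_2_0 + (-2/9) * h_4_0_2 + (-2/9) * h_3_2_1 + (2/9) * h_3_1_2 + (-4/9) * h_2_4_0 + (4/9) * h_2_3_1 + (-2/9) * h_2_2_2 + (1/9) * h_1_5_0 + (1/3) * h_1_4_1 + (2/9) * h_1_3_2 + (-1/9) * h_0_5_1 + (-2/9) * h_0_4_2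
    have k_1_2_2 : coeff (mk3 1 2 2) f = 0 := by
      linear_combination (1/3) * h_5_1_0 + (-1/3) * h_5_0_1 + (-1/3) * h_4_2_0 + (1/3) * h_4_0_2 + (1/3) * h_3_2_1 + (-1/3) * h_3_1_2 + (2/3) * h_2_4_0 + (-2/3) * h_2_3_1 + (1/3) * h_2_2_2 + (-2/3) * h_1_5_0 + (2/3) * h_1_3_2 + (2/3) * h_0_5_1 + (-2/3) * h_0_4_2
    have k_1_1_3 : coeff (mk3 1 1 3) f = 0 := by
      linear_combination (1/9) * h_5_1_0 + (-1/9) * h_5_0_1 + (-1/9) * h_4_2_0 + (1/9) * h_4_0_2 + (1/9) * h_3_2_1 + (-1/9) * h_3_1_2 + (-1/9) * h_2_4_0 + (1/9) * h_2_3_1 + (-2/9) * h_2_2_2 + (1/3) * h_2_1_3 + (-1/3) * h_2_0_4 + (1/9) * h_1_5_0 + (-1/9) * h_1_3_2 + (1/3) * h_1_2_3 + (1/3) * h_1_1_4 + (-1/9) * h_0_5_1 + (1/9) * h_0_4_2 + (-1/3) * h_0_2_4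
    have k_1_0_4 : coeff (mk3 1 0 4) f = 0 := by
      linear_combination (-5/9) * h_5_1_0 + (5/9) * h_5_0_1 + (5/9) * h_4_2_0 + (-5/9) * h_4_0_2 + (-5/9) * h_3_2_1 + (5/9) * h_3_1_2 + (-4/9) * h_2_4_0 + (4/9) * h_2_3_1 + (1/9) * h_2_2_2 + (-2/3) * h_2_1_3 + (2/3) * h_2_0_4 + (4/9) * h_1_5_0 + (-4/9) * h_1_3_2 + (1/3) * h_1_2_3 + (1/3) * h_1_1_4 + (-4/9) * h_0_5_1 + (4/9) * h_0_4_2 + (-1/3) * h_0_2_4
    have k_0_5_0 : coeff (mk3 0 5 0) f = 0 := by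
      linear_combination (-1/9) * h_5_1_0 + (1/9) * h_5_0_1 + (1/9) * h_4_2_0 + (-1/9) * h_4_0_2 + (-1/9) * h_3_2_1 + (1/9) * h_3_1_2 + (-2/9) * h_2_4_0 + (2/9) * h_2_3_1 + (-1/9) * h_2_2_2 + (5/9) * h_1_5_0 + (-1/3) * h_1_4_1 + (1/9) * h_1_3_2 + (4/9) * h_0_5_1 + (-1/9) * h_0_4_2
    have k_0_4_1 : coeff (mk3 0 4 1) f = 0 := by
      linear_combination (1/9) * h_5_1_0 + (-1/9) * h_5_0_1 + (-1/9) * h_4_2_0 + (1/9) * h_4_0_2 + (1/9) * h_3_2_1 + (-1/9) * h_3_1_2 + (2/9) * h_2_4_0 + (-2/9) * h_2_3_1 + (1/9) * h_2_2_2 + (-5/9) * h_1_5_0 + (1/3) * h_1_4_1 + (-1/9) * h_1_3_2 + (5/9) * h_0_5_1 + (1/9) * h_0_4_2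
    have k_0_3_2 : coeff (mk3 0 3 2) f = 0 := by
      linear_combination (-1/9) * h_5_1_0 + (1/9) * h_5_0_1 + (1/9) * h_4_2_0 + (-1/9) * h_4_0_2 + (-1/9) * h_3_2_1 + (1/9) * h_3_1_2 + (-2/9) * h_2_4_0 + (2/9) * h_2_3_1 + (-1/9) * h_2_2_2 + (5/9) * h_1_5_0 + (-1/3) * h_1_4_1 + (1/9) * h_1_3_2 + (-5/9) * h_0_5_1 + (8/9) * h_0_4_2
    have k_0_2_3 : coeff (mk3 0 2 3) f = 0 := by
      linear_combination (-4/9) * h_5_1_0 + (4/9) * h_5_0_1 + (4/9) * h_4_2_0 + (-4/9) * h_4_0_2 + (-4/9) * h_3_2_1 + (4/9) * h_3_1_2 + (-5/9) * h_2_4_0 + (5/9) * h_2_3_1 + (-1/9) * h_2_2_2 + (-1/3) * h_2_1_3 + (1/3) * h_2_0_4 + (5/9) * h_1_5_0 + (-5/9) * h_1_3_2 + (2/3) * h_1_2_3 + (-1/3) * h_1_1_4 + (-5/9) * h_0_5_1 + (5/9) * h_0_4_2 + (1/3) * h_0_2_4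
    have k_0_1_4 : coeff (mk3 0 1 4) f = 0 := by
      linear_combination (4/9) * h_5_1_0 + (-4/9) * h_5_0_1 + (-4/9) * h_4_2_0 + (4/9) * h_4_0_2 + (4/9) * h_3_2_1 + (-4/9) * h_3_1_2 + (5/9) * h_2_4_0 + (-5/9) * h_2_3_1 + (1/9) * h_2_2_2 + (1/3) * h_2_1_3 + (-1/3) * h_2_0_4 + (-5/9) * h_1_5_0 + (5/9) * h_1_3_2 + (-2/3) * h_1_2_3 + (1/3) * h_1_1_4 + (5/9) * h_0_5_1 + (-5/9) * h_0_4_2 + (2/3) * h_0_2_4
    have k_0_0_5 : coeff (mk3 0 0 5) f = 0 := by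
      linear_combination (5/9) * h_5_1_0 + (-5/9) * h_5_0_1 + (-5/9) * h_4_2_0 + (5/9) * h_4_0_2 + (5/9) * h_3_2_1 + (-5/9) * h_3_1_2 + (4/9) * h_2_4_0 + (-4/9) * h_2_3_1 + (-1/9) * h_2_2_2 + (2/3) * h_2_1_3 + (-2/3) * h_2_0_4 + (-4/9) * h_1_5_0 + (4/9) * h_1_3_2 + (-1/3) * h_1_2_3 + (-1/3) * h_1_1_4 + (1) * h_1_0_5 + (4/9) * h_0_5_1 + (-4/9) * h_0_4_2 + (1/3) * h_0_2_4
    apply eq_zero_of_coeff3 hf
    intro a ha b hb c hc habc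
    interval_cases a <;> interval_cases b <;> (first | (exfalso; omega) | (obtain ⟨t, rfl⟩ : ∃ t, c = t := ⟨c, rfl⟩; interval_cases c <;> first | (exfalso; omega) | assumption))
  rw [key]
  exact Ideal.zero_mem _

end Pool.Agent.Lib_MP_8b82cd_ag
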