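import Mathlib
import Pool.Agent.Lib_MP_8b82cd_ag.Sporadic

/-!
`T_{3,2,3}` and `T_{3,3,2}` have the strong Lefschetz property.
-/

namespace Pool.Agent.Lib_MP_8b82cd_ag

open MvPolynomial

theorem powI_le_ci {n d k : ℕ} (hd : 0 < d) (q : Fin n → ℕ) (hq : ∑ i, q i + 1 = k)
    {f : MvPolynomial (Fin n) ℂ} (hf : f ∈ powI n d k) : f ∈ ciI (fun i => d * (q i + 1)) := by
  rw [mem_ciI_iff]
  intro m hm
  have h1 := (mem_powI_iff hd k).mp hf m hm
  by_contra hne
  push Not at hne
  have h2 : ∑ i, m i / d ≤ ∑ i, q i := by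
    apply Finset.sum_le_sum
    intro i _
    have := (Nat.div_lt_iff_lt_mul hd).mpr (by rw [mul_comm]; exact hne i)
    omega
  omega

theorem inj_low {n d k i j : ℕ} (hn : 0 < n) (hd : 0 < d) (h : i + j < d * k) :
    InjP (powI n d k) (ell n) i j := by
  intro f hf hJ
  have h1 := powI_low hd h (ell_pow_mul_isHomogeneous hf j) hJ
  rcases mul_eq_zero.mp h1 with h2 | h2
  · exact absurd h2 (pow_ne_zero _ (ell_ne_zero hn))
  · rw [h2]; exact Ideal.zero_mem _

theorem inj_step {n d k i j t : ℕ} (hn : 0 < n) (hd : 0 < d) (h : i + t < d * k)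
    (hI : InjP (powI n d k) (ell n) (i + t) j) : InjP (powI n d k) (ell n) i (t + j) := by
  intro f hf hJ
  have e : ell n ^ (t + j) * f = ell n ^ j * (ell n ^ t * f) := by ring
  rw [e] at hJ
  exact inj_low hn hd h f hf (hI _ (ell_pow_mul_isHomogeneous hf t) hJ)

theorem surj_step {n d k i j t : ℕ} (hS : SurjP (powI n d k) (ell n) i (t + j)) :
    SurjP (powI n d k) (ell n) (i + t) j := by
  intro g hg
  obtain ⟨f, hf, hf2⟩ := hS g (by convert hg using 1; ring)
  refine ⟨ell n ^ t * f, ell_pow_mul_isHomogeneous hf t, ?_⟩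
  convert hf2 using 1
  ring

theorem surj_top {n d k i j : ℕ} (hd : 0 < d) (h : d * k + n * (d - 1) ≤ i + j + d - 1) :
    SurjP (powI n d k) (ell n) i j := by
  intro g hg
  refine ⟨0, isHomogeneous_zero _ _ _, ?_⟩
  rw [mul_zero, sub_zero, mem_powI_iff hd]
  intro m hm
  have h1 := isHomogeneous_iff.mp hg m (mem_support_iff.mp hm)
  have h2 : ∑ l, m l ≤ ∑ l, (d * (m l / d) + (d - 1)) := by
    apply Finset.sum_le_sum
    intro l _
    have h3 := Nat.div_add_mod (m l) d
    have h4 := Nat.mod_lt (m l) hd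
    omega
  rw [Finset.sum_add_distrib, ← Finset.mul_sum] at h2
  simp at h2
  by_contra hlt
  push Not at hlt
  obtain ⟨u, hu⟩ : ∃ u, k = u + 1 + ∑ l, m l / d := ⟨k - 1 - ∑ l, m l / d, by omega⟩
  have h5 : d * k = d * u + d + d * ∑ l, m l / d := by rw [hu]; ring
  have h6 : 0 ≤ d * u := Nat.zero_le _
  omega

theorem low3 {e : Fin 3 → ℕ} {f : MvPolynomial (Fin 3) ℂ} (h : lowF e f ∈ ciI e) (a b c : ℕ)
    (ha : a < e 0) (hb : b < e 1) (hc : c < e 2) :
    ((a : ℂ) + 1) * ((e 0 : ℂ) - 1 - a) * coeff (mk3 (a + 1) b c) f +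
      ((b : ℂ) + 1) * ((e 1 : ℂ) - 1 - b) * coeff (mk3 a (b + 1) c) f +
      ((c : ℂ) + 1) * ((e 2 : ℂ) - 1 - c) * coeff (mk3 a b (c + 1)) f = 0 := by
  have h1 : coeff (mk3 a b c) (lowF e f) = 0 := by
    by_contra hne
    obtain ⟨l, hl⟩ := (mem_ciI_iff _).mp h _ (mem_support_iff.mpr hne)
    fin_cases l
    · exact absurd hl (not_le.mpr ha)
    · exact absurd hl (not_le.mpr hb)
    · exact absurd hl (not_le.mpr hc)
  rw [coeff_lowF, Fin.sum_univ_three, mk3_add0, mk3_add1, mk3_add2, mk3_zero, mk3_one,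
    mk3_two] at h1
  exact h1

theorem inj23_1_6 : InjP (powI 3 2 3) (ell 3) 1 6 := by
  intro f hf hJ
  have hlow : ∀ q : Fin 3 → ℕ, ∑ i, q i + 1 = 3 → lowF (fun i => 2 * (q i + 1)) f ∈
      ciI (fun i => 2 * (q i + 1)) := by
    intro q hq
    have hs : 7 + 3 = ∑ i, 2 * (q i + 1) := by
      rw [← Finset.mul_sum, Finset.sum_add_distrib]
      simp
      omega
    exact (lowering_ci _ 7 hs).prim (i := 1) (s := 5) rfl hf (powI_le_ci two_pos q hq hJ)
  have h0 := low3 (hlow ![2, 0, 0] (by simp [Fin.sum_univ_three])) 0 0 0 (by simp) (by simp)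
    (by simp)
  have h1 := low3 (hlow ![0, 2, 0] (by simp [Fin.sum_univ_three])) 0 0 0 (by simp) (by simp)
    (by simp)
  have h2 := low3 (hlow ![0, 0, 2] (by simp [Fin.sum_univ_three])) 0 0 0 (by simp) (by simp)
    (by simp)
  simp at h0 h1 h2
  norm_num at h0 h1 h2
  have key : f = 0 := by
    have k0 : coeff (mk3 1 0 0) f = 0 := by
      linear_combination (3 / 14 : ℂ) * h0 - (1 / 28 : ℂ) * h1 - (1 / 28 : ℂ) * h2
    have k1 : coeff (mk3 0 1 0) f = 0 := by
      linear_combination (3 / 14 : ℂ) * h1 - (1 / 28 : ℂ) * h0 - (1 / 28 : ℂ) * h2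
    have k2 : coeff (mk3 0 0 1) f = 0 := by
      linear_combination (3 / 14 : ℂ) * h2 - (1 / 28 : ℂ) * h1 - (1 / 28 : ℂ) * h0
    apply eq_zero_of_coeff3 hf
    intro a ha b hb c hc habc
    interval_cases a <;> interval_cases b <;> interval_cases c <;>
      first | (exfalso; omega) | assumption
  rw [key]
  exact Ideal.zero_mem _

theorem hlow32 {i s : ℕ} (his : 2 * i + s = 9) {f : MvPolynomial (Fin 3) ℂ}
    (hf : f.IsHomogeneous i) (hJ : ell 3 ^ (s + 1) * f ∈ powI 3 3 2) :
    ∀ q : Fin 3 → ℕ, ∑ i, q i + 1 = 2 → lowF (fun i => 3 * (q i + 1)) f ∈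
      ciI (fun i => 3 * (q i + 1)) := by
  intro q hq
  have hs : 9 + 3 = ∑ i, 3 * (q i + 1) := by
    rw [← Finset.mul_sum, Finset.sum_add_distrib]
    simp
    omega
  exact (lowering_ci _ 9 hs).prim his hf (powI_le_ci (by norm_num) q hq hJ)

theorem inj32_1_8 : InjP (powI 3 3 2) (ell 3) 1 8 := by
  intro f hf hJ
  have hlow := hlow32 (i := 1) (s := 7) rfl hf hJ
  have h0 := low3 (hlow ![1, 0, 0] (by simp [Fin.sum_univ_three])) 0 0 0 (by simp) (by simp)
    (by simp)
  have h1 := low3 (hlow ![0, 1, 0] (by simp [Fin.sum_univ_three])) 0 0 0 (by simp) (by simp)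
    (by simp)
  have h2 := low3 (hlow ![0, 0, 1] (by simp [Fin.sum_univ_three])) 0 0 0 (by simp) (by simp)
    (by simp)
  simp at h0 h1 h2
  norm_num at h0 h1 h2
  have key : f = 0 := by
    have k0 : coeff (mk3 1 0 0) f = 0 := by
      linear_combination (7 / 27 : ℂ) * h0 - (2 / 27 : ℂ) * h1 - (2 / 27 : ℂ) * h2
    have k1 : coeff (mk3 0 1 0) f = 0 := by
      linear_combination (7 / 27 : ℂ) * h1 - (2 / 27 : ℂ) * h0 - (2 / 27 : ℂ) * h2
    have k2 : coeff (mk3 0 0 1) f = 0 := by
      linear_combination (7 / 27 : ℂ) * h2 - (2 / 27 : ℂ) * h1 - (2 / 27 : ℂ) * h0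
    apply eq_zero_of_coeff3 hf
    intro a ha b hb c hc habc
    interval_cases a <;> interval_cases b <;> interval_cases c <;>
      first | (exfalso; omega) | assumption
  rw [key]
  exact Ideal.zero_mem _

theorem inj32_2_6 : InjP (powI 3 3 2) (ell 3) 2 6 := by
  intro f hf hJ
  have hlow := hlow32 (i := 2) (s := 5) rfl hf hJ
  have h00 := low3 (hlow ![1, 0, 0] (by simp [Fin.sum_univ_three])) 1 0 0 (by simp) (by simp)
    (by simp)
  have h01 := low3 (hlow ![0, 1, 0] (by simp [Fin.sum_univ_three])) 1 0 0 (by simp) (by simp)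
    (by simp)
  have h02 := low3 (hlow ![0, 0, 1] (by simp [Fin.sum_univ_three])) 1 0 0 (by simp) (by simp)
    (by simp)
  have h10 := low3 (hlow ![1, 0, 0] (by simp [Fin.sum_univ_three])) 0 1 0 (by simp) (by simp)
    (by simp)
  have h11 := low3 (hlow ![0, 1, 0] (by simp [Fin.sum_univ_three])) 0 1 0 (by simp) (by simp)
    (by simp)
  have h12 := low3 (hlow ![0, 0, 1] (by simp [Fin.sum_univ_three])) 0 1 0 (by simp) (by simp)
    (by simp)
  have h20 := low3 (hlow ![1, 0, 0] (by simp [Fin.sum_univ_three])) 0 0 1 (by simp) (by simp)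
    (by simp)
  have h21 := low3 (hlow ![0, 1, 0] (by simp [Fin.sum_univ_three])) 0 0 1 (by simp) (by simp)
    (by simp)
  have h22 := low3 (hlow ![0, 0, 1] (by simp [Fin.sum_univ_three])) 0 0 1 (by simp) (by simp)
    (by simp)
  simp at h00 h01 h02 h10 h11 h12 h20 h21 h22
  norm_num at h00 h01 h02 h10 h11 h12 h20 h21 h22
  have key : f = 0 := by
    have k200 : coeff (mk3 2 0 0) f = 0 := by
      linear_combination (21 / 144 : ℂ) * h00 + (-6 / 144 : ℂ) * h01 + (-6 / 144 : ℂ) * h02
    have k110 : coeff (mk3 1 1 0) f = 0 := by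
      linear_combination (-6 / 144 : ℂ) * h00 + (36 / 144 : ℂ) * h01 + (-12 / 144 : ℂ) * h02
    have k101 : coeff (mk3 1 0 1) f = 0 := by
      linear_combination (-6 / 144 : ℂ) * h00 + (-12 / 144 : ℂ) * h01 + (36 / 144 : ℂ) * h02
    have k020 : coeff (mk3 0 2 0) f = 0 := by
      linear_combination (21 / 144 : ℂ) * h11 + (-6 / 144 : ℂ) * h10 + (-6 / 144 : ℂ) * h12
    have k011 : coeff (mk3 0 1 1) f = 0 := by
      linear_combination (-6 / 144 : ℂ) * h11 + (-12 / 144 : ℂ) * h10 + (36 / 144 : ℂ) * h12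
    have k002 : coeff (mk3 0 0 2) f = 0 := by
      linear_combination (21 / 144 : ℂ) * h22 + (-6 / 144 : ℂ) * h20 + (-6 / 144 : ℂ) * h21
    apply eq_zero_of_coeff3 hf
    intro a ha b hb c hc habc
    interval_cases a <;> interval_cases b <;> interval_cases c <;>
      first | (exfalso; omega) | assumption
  rw [key]
  exact Ideal.zero_mem _

/-- `T_{3,2,3}` -/
theorem t323 (i j : ℕ) (hj : 1 ≤ j) :
    InjP (powI 3 2 3) (ell 3) i j ∨ SurjP (powI 3 2 3) (ell 3) i j := by
  rcases Nat.lt_or_ge (i + j) 6 with h6 | h6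
  · exact Or.inl (inj_low (by norm_num) (by norm_num) (by omega))
  rcases Nat.lt_or_ge 7 (i + j) with h8 | h8
  · exact Or.inr (surj_top (by norm_num) (by omega))
  rcases Nat.lt_or_ge 6 (i + j) with h7 | h7
  · -- i + j = 7
    rcases Nat.lt_or_ge i 2 with hi | hi
    · left
      have h : InjP (powI 3 2 3) (ell 3) i ((1 - i) + 6) := by
        apply inj_step (by norm_num) (by norm_num) (by omega)
        have : i + (1 - i) = 1 := by omega
        rw [this]; exact inj23_1_6
      have e : (1 - i) + 6 = j := by omega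
      rwa [e] at h
    · right
      obtain ⟨t, rfl⟩ : ∃ t, i = 2 + t := ⟨i - 2, by omega⟩
      apply surj_step
      have e : t + j = 5 := by omega
      rw [e]; exact surj23_2_5
  · -- i + j = 6
    rcases Nat.lt_or_ge i 5 with hi | hi
    · left
      have h : InjP (powI 3 2 3) (ell 3) i ((4 - i) + 2) := by
        apply inj_step (by norm_num) (by norm_num) (by omega)
        have : i + (4 - i) = 4 := by omega
        rw [this]; exact inj23_4_2
      have e : (4 - i) + 2 = j := by omega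
      rwa [e] at h
    · right
      have e1 : i = 5 := by omega
      have e2 : j = 1 := by omega
      subst e1; subst e2
      exact surj23_5_1

/-- `T_{3,3,2}` -/
theorem t332 (i j : ℕ) (hj : 1 ≤ j) :
    InjP (powI 3 3 2) (ell 3) i j ∨ SurjP (powI 3 3 2) (ell 3) i j := by
  rcases Nat.lt_or_ge (i + j) 6 with h6 | h6
  · exact Or.inl (inj_low (by norm_num) (by norm_num) (by omega))
  rcases Nat.lt_or_ge 9 (i + j) with h10 | h10
  · exact Or.inr (surj_top (by norm_num) (by omega))
  have hcases : i + j = 6 ∨ i + j = 7 ∨ i + j = 8 ∨ i + j = 9 := by omega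
  rcases hcases with h | h | h | h
  · left
    have h' : InjP (powI 3 3 2) (ell 3) i ((5 - i) + 1) := by
      apply inj_step (by norm_num) (by norm_num) (by omega)
      have : i + (5 - i) = 5 := by omega
      rw [this]; exact inj32_5_1
    have e : (5 - i) + 1 = j := by omega
    rwa [e] at h'
  · rcases Nat.lt_or_ge i 5 with hi | hi
    · left
      have h' : InjP (powI 3 3 2) (ell 3) i ((4 - i) + 3) := by
        apply inj_step (by norm_num) (by norm_num) (by omega)
        have : i + (4 - i) = 4 := by omega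
        rw [this]; exact inj32_4_3
      have e : (4 - i) + 3 = j := by omega
      rwa [e] at h'
    · right
      obtain ⟨t, rfl⟩ : ∃ t, i = 5 + t := ⟨i - 5, by omega⟩
      apply surj_step
      have e : t + j = 2 := by omega
      rw [e]; exact surj32_5_2
  · rcases Nat.lt_or_ge i 3 with hi | hi
    · left
      have h' : InjP (powI 3 3 2) (ell 3) i ((2 - i) + 6) := by
        apply inj_step (by norm_num) (by norm_num) (by omega)
        have : i + (2 - i) = 2 := by omega
        rw [this]; exact inj32_2_6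
      have e : (2 - i) + 6 = j := by omega
      rwa [e] at h'
    · right
      obtain ⟨t, rfl⟩ : ∃ t, i = 3 + t := ⟨i - 3, by omega⟩
      apply surj_step
      have e : t + j = 5 := by omega
      rw [e]; exact surj32_3_5
  · rcases Nat.lt_or_ge i 1 with hi | hi
    · left
      have h' : InjP (powI 3 3 2) (ell 3) i ((1 - i) + 8) := by
        apply inj_step (by norm_num) (by norm_num) (by omega)
        have : i + (1 - i) = 1 := by omega
        rw [this]; exact inj32_1_8
      have e : (1 - i) + 8 = j := by omega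
      rwa [e] at h'
    · right
      obtain ⟨t, rfl⟩ : ∃ t, i = 1 + t := ⟨i - 1, by omega⟩
      apply surj_step
      have e : t + j = 8 := by omega
      rw [e]; exact surj32_1_8

end Pool.Agent.Lib_MP_8b82cd_ag
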