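import Mathlib
import Pool.Agent.Lib_MP_8b82cd_ag.Defs
import Pool.Agent.Lib_MP_8b82cd_ag.Basic

/-!
Reduction of the Lefschetz properties of `T_{n,d,k}` to statements on polynomials and to the sum of
the variables.
-/

namespace Pool.Agent.Lib_MP_8b82cd_ag

open MvPolynomial Lefschetz

variable {n : ℕ}

/-- the linear form with coefficients `a` -/
noncomputable def lin (a : Fin n → ℂ) : MvPolynomial (Fin n) ℂ := ∑ i, C (a i) * X i

theorem lin_one : lin (fun _ : Fin n => (1 : ℂ)) = ell n := by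
  simp [lin, ell]

/-- the scaling `x_i ↦ a_i x_i` -/
noncomputable def scale (a : Fin n → ℂ) :
    MvPolynomial (Fin n) ℂ →ₐ[ℂ] MvPolynomial (Fin n) ℂ :=
  aeval fun i => C (a i) * X i

theorem scale_X (a : Fin n → ℂ) (i : Fin n) : scale a (X i) = C (a i) * X i := by
  simp [scale]

theorem scale_lin (a b : Fin n → ℂ) : scale a (lin b) = lin (fun i => a i * b i) := by
  simp only [lin, map_sum, map_mul, scale_X]
  apply Finset.sum_congr rfl
  intro i _
  have : scale a (C (b i)) = C (b i) := by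
    rw [← algebraMap_eq]
    exact (scale a).commutes (b i)
  rw [this]
  ring

theorem scale_scale (a b : Fin n → ℂ) (h : ∀ i, a i * b i = 1) (f : MvPolynomial (Fin n) ℂ) :
    scale a (scale b f) = f := by
  have : (scale a).comp (scale b) = AlgHom.id ℂ _ := by
    apply MvPolynomial.algHom_ext
    intro i
    rw [AlgHom.comp_apply, scale_X, map_mul, scale_X]
    have : scale a (C (b i)) = C (b i) := by
      rw [← algebraMap_eq]
      exact (scale a).commutes (b i)
    rw [this, ← mul_assoc, ← map_mul, mul_comm (b i), h i]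
    simp
  exact DFunLike.congr_fun this f

theorem scale_hom (a : Fin n → ℂ) {f : MvPolynomial (Fin n) ℂ} {i : ℕ} (hf : f.IsHomogeneous i) :
    (scale a f).IsHomogeneous i := by
  have := hf.aeval (fun i => C (a i) * X i) (n := 1) (fun i => isHomogeneous_C_mul_X _ _)
  simpa [scale] using this

theorem scale_mem (a : Fin n → ℂ) {d k : ℕ} {f : MvPolynomial (Fin n) ℂ}
    (hf : f ∈ powI n d k) : scale a f ∈ powI n d k := by
  have h1 : Ideal.map (scale a : MvPolynomial (Fin n) ℂ →+* MvPolynomial (Fin n) ℂ)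
      (powI n d k) ≤ powI n d k := by
    unfold powI
    rw [Ideal.map_pow]
    apply Ideal.pow_right_mono
    rw [Ideal.map_span, Ideal.span_le]
    rintro _ ⟨_, ⟨i, rfl⟩, rfl⟩
    show scale a (X i ^ d) ∈ _
    rw [map_pow, scale_X, mul_pow]
    exact Ideal.mul_mem_left _ _ (Ideal.subset_span ⟨i, rfl⟩)
  exact h1 (Ideal.mem_map_of_mem _ hf)

theorem injP_scale {d k : ℕ} (a b : Fin n → ℂ) (ha : ∀ i, a i ≠ 0) {i j : ℕ}
    (h : InjP (powI n d k) (lin b) i j) :
    InjP (powI n d k) (lin (fun i => a i * b i)) i j := by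
  intro f hf hJ
  have h1 := scale_mem (fun i => (a i)⁻¹) hJ
  rw [map_mul, map_pow, scale_lin] at h1
  have e : (fun i => (a i)⁻¹ * (a i * b i)) = b := by
    ext i
    rw [← mul_assoc, inv_mul_cancel₀ (ha i), one_mul]
  rw [e] at h1
  have h2 := h _ (scale_hom _ hf) h1
  have h3 := scale_mem a h2
  rwa [scale_scale a _ (fun i => mul_inv_cancel₀ (ha i))] at h3

theorem surjP_scale {d k : ℕ} (a b : Fin n → ℂ) (ha : ∀ i, a i ≠ 0) {i j : ℕ}
    (h : SurjP (powI n d k) (lin b) i j) :
    SurjP (powI n d k) (lin (fun i => a i * b i)) i j := by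
  intro g hg
  obtain ⟨f, hf, hf2⟩ := h _ (scale_hom (fun i => (a i)⁻¹) hg)
  refine ⟨scale a f, scale_hom a hf, ?_⟩
  have h3 := scale_mem a hf2
  rwa [map_sub, map_mul, map_pow, scale_lin,
    scale_scale a _ (fun i => mul_inv_cancel₀ (ha i))] at h3

theorem maxRank_iff (n d k : ℕ) (a : Fin n → ℂ) (i j : ℕ) :
    MaxRank n d k (linForm n d k a) i j ↔
      InjP (powI n d k) (lin a) i j ∨ SurjP (powI n d k) (lin a) i j := by
  have hmk : ∀ f : MvPolynomial (Fin n) ℂ, f ∈ powI n d k ↔
      (Ideal.Quotient.mk (idealPow n d k) f = 0) := by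
    intro f
    exact Ideal.Quotient.eq_zero_iff_mem.symm
  have hlin : linForm n d k a = Ideal.Quotient.mk (idealPow n d k) (lin a) := rfl
  have hcomp : ∀ (l : ℕ) (x : T n d k), x ∈ component n d k l ↔
      ∃ f : MvPolynomial (Fin n) ℂ, f.IsHomogeneous l ∧ Ideal.Quotient.mk (idealPow n d k) f = x := by
    intro l x
    constructor
    · rintro ⟨f, hf, rfl⟩
      exact ⟨f, hf, rfl⟩
    · rintro ⟨f, hf, rfl⟩
      exact ⟨f, hf, rfl⟩
  unfold MaxRank
  apply or_congr
  · constructor
    · intro h f hf hJ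
      have h1 : Ideal.Quotient.mk (idealPow n d k) f ∈ component n d k i :=
        (hcomp i _).mpr ⟨f, hf, rfl⟩
      rw [hmk] at hJ ⊢
      apply h h1 (component n d k i).zero_mem
      show linForm n d k a ^ j * Ideal.Quotient.mk (idealPow n d k) f = linForm n d k a ^ j * 0
      rw [hlin, mul_zero, ← map_pow, ← map_mul, hJ]
    · intro h x hx y hy hxy
      obtain ⟨f, hf, rfl⟩ := (hcomp i x).mp hx
      obtain ⟨g, hg, rfl⟩ := (hcomp i y).mp hy
      have h1 : linForm n d k a ^ j * Ideal.Quotient.mk (idealPow n d k) f =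
        linForm n d k a ^ j * Ideal.Quotient.mk (idealPow n d k) g := hxy
      have h2 : lin a ^ j * (f - g) ∈ powI n d k := by
        rw [hmk, map_mul, map_pow, map_sub, mul_sub, ← hlin, h1, sub_self]
      have h3 := h _ (hf.sub hg) h2
      rw [hmk, map_sub] at h3
      exact sub_eq_zero.mp h3
  · constructor
    · intro h g hg
      obtain ⟨x, hx, hx2⟩ := h ((hcomp (i + j) _).mpr ⟨g, hg, rfl⟩)
      obtain ⟨f, hf, rfl⟩ := (hcomp i x).mp hx
      refine ⟨f, hf, ?_⟩
      have h1 : linForm n d k a ^ j * Ideal.Quotient.mk (idealPow n d k) f =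
        Ideal.Quotient.mk (idealPow n d k) g := hx2
      rw [hmk, map_sub, map_mul, map_pow, ← hlin, h1, sub_self]
    · intro h y hy
      obtain ⟨g, hg, rfl⟩ := (hcomp (i + j) y).mp hy
      obtain ⟨f, hf, hf2⟩ := h g hg
      refine ⟨Ideal.Quotient.mk (idealPow n d k) f, (hcomp i _).mpr ⟨f, hf, rfl⟩, ?_⟩
      show linForm n d k a ^ j * Ideal.Quotient.mk (idealPow n d k) f = _
      rw [hmk, map_sub, map_mul, map_pow] at hf2
      rw [hlin]
      exact (sub_eq_zero.mp hf2).symm

/-- a generic linear form may be replaced by the sum of the variables -/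
theorem generic_iff (n d k : ℕ) (S : ℕ → ℕ → Prop) :
    (ForGeneric n fun a => ∀ i j : ℕ, S i j → MaxRank n d k (linForm n d k a) i j) ↔
    ∀ i j : ℕ, S i j → InjP (powI n d k) (ell n) i j ∨ SurjP (powI n d k) (ell n) i j := by
  constructor
  · rintro ⟨g, hg, h⟩ i j hj
    have hne : g * ∏ i : Fin n, (X i : MvPolynomial (Fin n) ℂ) ≠ 0 :=
      mul_ne_zero hg (Finset.prod_ne_zero_iff.mpr fun i _ => X_ne_zero i)
    obtain ⟨a, ha⟩ : ∃ a : Fin n → ℂ,
        eval a (g * ∏ i : Fin n, (X i : MvPolynomial (Fin n) ℂ)) ≠ 0 := by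
      by_contra hcon
      push Not at hcon
      exact hne (MvPolynomial.funext fun a => by rw [hcon a, map_zero])
    rw [map_mul, map_prod] at ha
    have ha1 := left_ne_zero_of_mul ha
    have ha2 : ∀ i, a i ≠ 0 := by
      intro i
      have := Finset.prod_ne_zero_iff.mp (right_ne_zero_of_mul ha) i (Finset.mem_univ i)
      simpa using this
    have e : (fun i => (a i)⁻¹ * a i) = fun _ : Fin n => (1 : ℂ) := by
      ext i
      exact inv_mul_cancel₀ (ha2 i)
    rcases (maxRank_iff n d k a i j).mp (h a ha1 i j hj) with h1 | h1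
    · left
      have := injP_scale (fun i => (a i)⁻¹) a (fun i => inv_ne_zero (ha2 i)) h1
      rwa [e, lin_one] at this
    · right
      have := surjP_scale (fun i => (a i)⁻¹) a (fun i => inv_ne_zero (ha2 i)) h1
      rwa [e, lin_one] at this
  · intro h
    refine ⟨∏ i : Fin n, (X i : MvPolynomial (Fin n) ℂ),
      Finset.prod_ne_zero_iff.mpr fun i _ => X_ne_zero i, ?_⟩
    intro a ha i j hj
    rw [map_prod] at ha
    have ha2 : ∀ i, a i ≠ 0 := by
      intro i
      have := Finset.prod_ne_zero_iff.mp ha i (Finset.mem_univ i)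
      simpa using this
    rw [maxRank_iff]
    have e : (fun i => a i * 1) = a := by ext i; rw [mul_one]
    rcases h i j hj with h1 | h1
    · left
      rw [← lin_one] at h1
      have := injP_scale a _ ha2 h1
      rwa [e] at this
    · right
      rw [← lin_one] at h1
      have := surjP_scale a _ ha2 h1
      rwa [e] at this

theorem hasSLP_iff (n d k : ℕ) : HasSLP n d k ↔
    ∀ i j : ℕ, 1 ≤ j → InjP (powI n d k) (ell n) i j ∨ SurjP (powI n d k) (ell n) i j :=
  generic_iff n d k (fun _ j => 1 ≤ j)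

theorem hasWLP_iff (n d k : ℕ) : HasWLP n d k ↔
    ∀ i : ℕ, InjP (powI n d k) (ell n) i 1 ∨ SurjP (powI n d k) (ell n) i 1 := by
  have h := generic_iff n d k (fun _ j => j = 1)
  constructor
  · intro hW i
    apply h.mp _ i 1 rfl
    obtain ⟨g, hg, h1⟩ := hW
    refine ⟨g, hg, fun a ha i j hj => ?_⟩
    subst hj
    exact h1 a ha i
  · intro h1
    obtain ⟨g, hg, h2⟩ := h.mpr (fun i j hj => by subst hj; exact h1 i)
    exact ⟨g, hg, fun a ha i => h2 a ha i 1 rfl⟩

end Pool.Agent.Lib_MP_8b82cd_ag
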