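import Mathlib
import Pool.Agent.Lib_MP_8b82cd_ag.CI

/-!
`T_{n,2,2}` has the strong Lefschetz property.
-/

namespace Pool.Agent.Lib_MP_8b82cd_ag

open MvPolynomial

variable {n : ℕ}

/-- exponents of the component `(x_a^4, x_i^2 : i ≠ a)` of `(x_1^2, …, x_n^2)^2` -/
def ex4 (a : Fin n) : Fin n → ℕ := fun i => if i = a then 4 else 2

theorem ex4_sum (a : Fin n) : n + 2 + n = ∑ i, ex4 a i := by
  have h : ∀ i, ex4 a i = 2 + if i = a then 2 else 0 := by
    intro i; unfold ex4; split_ifs <;> rfl
  rw [Finset.sum_congr rfl fun i _ => h i, Finset.sum_add_distrib]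
  simp
  ring

theorem not_pow22 {m : Fin n →₀ ℕ} (h : ∑ i, m i / 2 < 2) (a : Fin n) (ha : 2 ≤ m a) :
    m a ≤ 3 ∧ ∀ l, l ≠ a → m l ≤ 1 := by
  have h1 : ∑ i, m i / 2 = m a / 2 + ∑ i ∈ Finset.univ.erase a, m i / 2 :=
    (Finset.add_sum_erase _ _ (Finset.mem_univ a)).symm
  refine ⟨by omega, ?_⟩
  intro l hl
  have h2 : m l / 2 ≤ ∑ i ∈ Finset.univ.erase a, m i / 2 :=
    Finset.single_le_sum (f := fun i => m i / 2) (fun i _ => Nat.zero_le _)
      (Finset.mem_erase.mpr ⟨hl, Finset.mem_univ l⟩)
  omega

theorem pow22_le (a : Fin n) {f : MvPolynomial (Fin n) ℂ} (hf : f ∈ powI n 2 2) :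
    f ∈ ciI (ex4 a) := by
  rw [mem_ciI_iff]
  rw [mem_powI_iff two_pos] at hf
  intro m hm
  have h := hf m hm
  by_contra hne
  push Not at hne
  have h1 : ∑ i, m i / 2 = m a / 2 + ∑ i ∈ Finset.univ.erase a, m i / 2 :=
    (Finset.add_sum_erase _ _ (Finset.mem_univ a)).symm
  have h2 : ∑ i ∈ Finset.univ.erase a, m i / 2 = 0 := by
    apply Finset.sum_eq_zero
    intro i hi
    have := hne i
    rw [ex4, if_neg (Finset.ne_of_mem_erase hi)] at this
    omega
  have h3 := hne a
  rw [ex4, if_pos rfl] at h3
  omega

theorem mem_pow22_of_forall (hn : 0 < n) {f : MvPolynomial (Fin n) ℂ}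
    (hf : ∀ a, f ∈ ciI (ex4 a)) : f ∈ powI n 2 2 := by
  rw [mem_powI_iff two_pos]
  intro m hm
  by_contra hlt
  push Not at hlt
  have key : ∀ a : Fin n, (m a ≤ 3 ∧ ∀ l, l ≠ a → m l ≤ 1) → False := by
    rintro a ⟨h1, h2⟩
    obtain ⟨l, hl⟩ := (mem_ciI_iff _).mp (hf a) m hm
    by_cases hla : l = a
    · subst hla
      rw [ex4, if_pos rfl] at hl
      omega
    · have := h2 l hla
      rw [ex4, if_neg hla] at hl
      omega
  by_cases hex : ∃ a, 2 ≤ m a
  · obtain ⟨a, ha⟩ := hex
    exact key a (not_pow22 hlt a ha)
  · push Not at hex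
    exact key ⟨0, hn⟩ ⟨by have := hex ⟨0, hn⟩; omega, fun l _ => by have := hex l; omega⟩

theorem pow22_injP_low (hn : 0 < n) {i j : ℕ} (hij : 2 * i + j ≤ n + 2) :
    InjP (powI n 2 2) (ell n) i j := by
  intro f hf hJ
  apply mem_pow22_of_forall hn
  intro a
  exact ci_injP (ex4 a) (n + 2) (ex4_sum a) hij f hf (pow22_le a hJ)

theorem low_coeff {f : MvPolynomial (Fin n) ℂ} (a : Fin n) (hlow : lowF (ex4 a) f ∈ ciI (ex4 a))
    (m : Fin n →₀ ℕ) (hma : m a ≤ 3) (hm : ∀ l, l ≠ a → m l ≤ 1) :
    ((m a : ℂ) + 1) * (3 - m a) * coeff (m + Finsupp.single a 1) f +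
      ∑ l ∈ Finset.univ.erase a, ((m l : ℂ) + 1) * (1 - m l) *
        coeff (m + Finsupp.single l 1) f = 0 := by
  have h1 : coeff m (lowF (ex4 a) f) = 0 := by
    by_contra hne
    obtain ⟨l, hl⟩ := (mem_ciI_iff _).mp hlow m (mem_support_iff.mpr hne)
    by_cases hla : l = a
    · subst hla
      rw [ex4, if_pos rfl] at hl
      omega
    · have := hm l hla
      rw [ex4, if_neg hla] at hl
      omega
  rw [coeff_lowF, ← Finset.add_sum_erase _ _ (Finset.mem_univ a)] at h1
  rw [← h1]
  congr 1
  · simp [ex4]
    left; left; ring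
  · apply Finset.sum_congr rfl
    intro l hl
    rw [ex4, if_neg (Finset.ne_of_mem_erase hl)]
    push_cast
    ring

theorem pow22_injP_mid {i : ℕ} (hi : 1 ≤ i) {s : ℕ} (hs : 2 * i + s = n + 2) :
    InjP (powI n 2 2) (ell n) i (s + 1) := by
  intro f hf hJ
  have hlow : ∀ a, lowF (ex4 a) f ∈ ciI (ex4 a) := by
    intro a
    exact (lowering_ci (ex4 a) (n + 2) (ex4_sum a)).prim hs hf (pow22_le a hJ)
  have hhom := isHomogeneous_iff.mp hf
  -- step 1: square free coefficients vanish
  have step1 : ∀ m : Fin n →₀ ℕ, (∀ l, m l ≤ 1) → coeff m f = 0 := by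
    intro m hm
    by_contra hne
    have hdeg := hhom m hne
    have hpos : 0 < ∑ l, m l := by omega
    obtain ⟨a, -, ha⟩ := Finset.exists_ne_zero_of_sum_ne_zero hpos.ne'
    have hma : m a = 1 := by have := hm a; omega
    set b : Fin n →₀ ℕ := m - Finsupp.single a 1 with hb
    have hmb : m = b + Finsupp.single a 1 := by
      rw [hb, tsub_add_cancel_of_le]
      intro l
      by_cases hl : l = a
      · subst hl; simp [hma]
      · simp [Ne.symm hl]
    have hb1 : ∀ l, b l ≤ 1 := by
      intro l
      have := hm l
      rw [hb]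
      simp
      omega
    have hba : b a = 0 := by rw [hb]; simp [hma]
    -- the key relation
    set Z := Finset.univ.filter (fun l => b l = 0) with hZ
    set u : ℂ := ∑ l ∈ Z, coeff (b + Finsupp.single l 1) f with hu
    have hrel : ∀ c ∈ Z, u + 2 * coeff (b + Finsupp.single c 1) f = 0 := by
      intro c hc
      have hbc : b c = 0 := (Finset.mem_filter.mp hc).2
      have h1 := low_coeff c (hlow c) b (by omega) (fun l _ => hb1 l)
      rw [hbc] at h1
      have h2 : ∑ l ∈ Finset.univ.erase c, ((b l : ℂ) + 1) * (1 - b l) *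
          coeff (b + Finsupp.single l 1) f = ∑ l ∈ Z.erase c, coeff (b + Finsupp.single l 1) f := by
        have hsub : Z.erase c ⊆ Finset.univ.erase c :=
          Finset.erase_subset_erase _ (Finset.subset_univ _)
        rw [← Finset.sum_subset hsub]
        · apply Finset.sum_congr rfl
          intro l hl
          have : b l = 0 := (Finset.mem_filter.mp (Finset.mem_of_mem_erase hl)).2
          rw [this]
          simp
        · intro l hl hl2
          have hlc := Finset.ne_of_mem_erase hl
          have : b l ≠ 0 := by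
            intro h0
            exact hl2 (Finset.mem_erase.mpr ⟨hlc, Finset.mem_filter.mpr ⟨Finset.mem_univ _, h0⟩⟩)
          have hbl : b l = 1 := by have := hb1 l; omega
          rw [hbl]
          simp
      rw [h2] at h1
      have h3 : u = coeff (b + Finsupp.single c 1) f +
          ∑ l ∈ Z.erase c, coeff (b + Finsupp.single l 1) f := by
        rw [hu]
        exact (Finset.add_sum_erase Z (fun l => coeff (b + Finsupp.single l 1) f) hc).symm
      rw [h3]
      have h4 : (((0 : ℕ) : ℂ) + 1) * (3 - ((0 : ℕ) : ℂ)) = 3 := by norm_num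
      rw [h4] at h1
      linear_combination h1
    have hu0 : u = 0 := by
      have h1 : u = ∑ l ∈ Z, (-u / 2) := by
        conv_lhs => rw [hu]
        apply Finset.sum_congr rfl
        intro l hl
        have := hrel l hl
        linear_combination this / 2
      rw [Finset.sum_const, nsmul_eq_mul] at h1
      have h2 : u * ((Z.card : ℂ) + 2) = 0 := by linear_combination 2 * h1
      rcases mul_eq_zero.mp h2 with h3 | h3
      · exact h3
      · exfalso
        have : ((Z.card + 2 : ℕ) : ℂ) = 0 := by push_cast; exact h3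
        exact absurd (Nat.cast_eq_zero.mp this) (by omega)
    have haZ : a ∈ Z := Finset.mem_filter.mpr ⟨Finset.mem_univ _, hba⟩
    have h5 := hrel a haZ
    rw [hu0, zero_add, ← hmb] at h5
    apply hne
    rcases mul_eq_zero.mp h5 with h6 | h6
    · norm_num at h6
    · exact h6
  -- step 2
  have step2 : ∀ (a : Fin n) (m : Fin n →₀ ℕ), m a = 1 → (∀ l, m l ≤ 1) →
      coeff (m + Finsupp.single a 1) f = 0 := by
    intro a m hma hm
    have h1 := low_coeff a (hlow a) m (by omega) (fun l _ => hm l)
    have h2 : ∑ l ∈ Finset.univ.erase a, ((m l : ℂ) + 1) * (1 - m l) *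
        coeff (m + Finsupp.single l 1) f = 0 := by
      apply Finset.sum_eq_zero
      intro l hl
      rcases Nat.lt_or_ge (m l) 1 with h3 | h3
      · have h4 : coeff (m + Finsupp.single l 1) f = 0 := by
          apply step1
          intro r
          by_cases hr : r = l
          · subst hr; simp; omega
          · have := hm r
            simpa [Finsupp.single_apply, Ne.symm hr] using this
        rw [h4, mul_zero]
      · have h4 : m l = 1 := by have := hm l; omega
        rw [h4]; simp
    rw [h2, add_zero, hma] at h1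
    rcases mul_eq_zero.mp h1 with h6 | h6
    · norm_num at h6
    · exact h6
  -- step 3
  have step3 : ∀ (a : Fin n) (m : Fin n →₀ ℕ), m a = 2 → (∀ l, l ≠ a → m l ≤ 1) →
      coeff (m + Finsupp.single a 1) f = 0 := by
    intro a m hma hm
    have h1 := low_coeff a (hlow a) m (by omega) hm
    have h2 : ∑ l ∈ Finset.univ.erase a, ((m l : ℂ) + 1) * (1 - m l) *
        coeff (m + Finsupp.single l 1) f = 0 := by
      apply Finset.sum_eq_zero
      intro l hl
      have hla := Finset.ne_of_mem_erase hl
      rcases Nat.lt_or_ge (m l) 1 with h3 | h3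
      · have h4 : coeff (m + Finsupp.single l 1) f = 0 := by
          have e : m + Finsupp.single l 1 = ((m - Finsupp.single a 1) + Finsupp.single l 1) +
              Finsupp.single a 1 := by
            ext r
            by_cases hr : r = a
            · subst hr; simp [hla, hma]
            · simp [Ne.symm hr]
          rw [e]
          apply step2
          · simp [hla, hma]
          · intro r
            by_cases hr : r = a
            · subst hr; simp [hla, hma]
            · by_cases hrl : r = l
              · subst hrl; simp [Ne.symm hr]; omega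
              · have := hm r hr
                simpa [Ne.symm hr, Ne.symm hrl] using this
        rw [h4, mul_zero]
      · have h4 : m l = 1 := by have := hm l hla; omega
        rw [h4]; simp
    rw [h2, add_zero, hma] at h1
    rcases mul_eq_zero.mp h1 with h6 | h6
    · norm_num at h6
    · exact h6
  rw [mem_powI_iff two_pos]
  intro m hm
  have hmne := mem_support_iff.mp hm
  by_contra hlt
  push Not at hlt
  by_cases hex : ∃ a, 2 ≤ m a
  · obtain ⟨a, ha⟩ := hex
    obtain ⟨h1, h2⟩ := not_pow22 hlt a ha
    have hma : m = (m - Finsupp.single a 1) + Finsupp.single a 1 := by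
      rw [tsub_add_cancel_of_le]
      intro l
      by_cases hl : l = a
      · subst hl; simp; omega
      · simp [Ne.symm hl]
    apply hmne
    rw [hma]
    rcases Nat.lt_or_ge (m a) 3 with h3 | h3
    · apply step2
      · simp; omega
      · intro l
        by_cases hl : l = a
        · subst hl; simp; omega
        · have := h2 l hl
          simpa [Ne.symm hl] using this
    · apply step3
      · simp; omega
      · intro l hl
        have := h2 l hl
        simpa [Ne.symm hl] using this
  · push Not at hex
    exact hmne (step1 m fun l => by have := hex l; omega)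

theorem pow22_surjP {i j : ℕ} (hij : n + 4 ≤ 2 * i + j) : SurjP (powI n 2 2) (ell n) i j := by
  rcases Nat.lt_or_ge i 2 with hi | hi
  · -- everything in degree `≥ n + 3` is in the ideal
    intro g hg
    refine ⟨0, isHomogeneous_zero _ _ _, ?_⟩
    rw [mul_zero, sub_zero, mem_powI_iff two_pos]
    intro m hm
    have h1 := (isHomogeneous_iff.mp hg) m (mem_support_iff.mp hm)
    have h2 : ∑ l, m l ≤ ∑ l, (2 * (m l / 2) + 1) := Finset.sum_le_sum fun l _ => by omega
    rw [Finset.sum_add_distrib, ← Finset.mul_sum] at h2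
    simp at h2
    omega
  · have hs1 : (n : ℕ) + n = ∑ _i : Fin n, 2 := by simp; ring
    intro g hg
    obtain ⟨f1, hf1, hf1'⟩ := ci_surjP (fun _ => 2) n hs1 (i := i) (j := j) (by omega) g hg
    set r := g - ell n ^ j * f1 with hr
    have hrhom : r.IsHomogeneous (i + j) := hg.sub (ell_pow_mul_isHomogeneous hf1 j)
    have hrmem : r ∈ Img (powI n 2 2) (ell n) i j := by
      rw [r.as_sum]
      apply Submodule.sum_mem
      intro m hm
      have h1 : monomial m (coeff m r) = (coeff m r) • monomial m (1 : ℂ) := by
        rw [smul_monomial, smul_eq_mul, mul_one]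
      rw [h1]
      apply Submodule.smul_mem
      have hdeg := (isHomogeneous_iff.mp hrhom) m (mem_support_iff.mp hm)
      obtain ⟨a, ha⟩ := (mem_ciI_iff _).mp hf1' m hm
      have hma : m = Finsupp.single a 2 + (m - Finsupp.single a 2) := by
        rw [add_tsub_cancel_of_le]
        intro l
        by_cases hl : l = a
        · subst hl; simpa using ha
        · simp [Ne.symm hl]
      set m' := m - Finsupp.single a 2 with hm'
      have hdeg' : ∑ l, m' l = (i - 2) + j := by
        rw [hma] at hdeg
        simp [Finset.sum_add_distrib] at hdeg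
        omega
      obtain ⟨f2, hf2, hf2'⟩ := ci_surjP (fun _ => 2) n hs1 (i := i - 2) (j := j) (by omega)
        (monomial m' 1) (isHomogeneous_iff.mpr (by
          intro m'' hm''
          rw [coeff_monomial] at hm''
          have : m' = m'' := by
            by_contra hne
            simp [hne] at hm''
          rw [← this]; exact hdeg'))
      refine ⟨X a ^ 2 * f2, ?_, ?_⟩
      · have := ((isHomogeneous_X ℂ a).pow 2).mul hf2
        convert this using 1
        omega
      · have e : monomial m (1 : ℂ) - ell n ^ j * (X a ^ 2 * f2) =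
            (monomial m' 1 - ell n ^ j * f2) * X a ^ 2 := by
          have : monomial m (1 : ℂ) = X a ^ 2 * monomial m' 1 := by
            rw [X_pow_eq_monomial, monomial_mul, one_mul, ← hma]
          rw [this]; ring
        rw [e]
        have : powI n 2 2 = ciI (fun _ : Fin n => 2) * ciI (fun _ : Fin n => 2) := by
          unfold powI ciI; rw [sq]
        rw [this]
        exact Ideal.mul_mem_mul hf2' (Ideal.subset_span ⟨a, rfl⟩)
    obtain ⟨f2, hf2, hf2'⟩ := hrmem
    refine ⟨f1 + f2, hf1.add hf2, ?_⟩
    convert hf2' using 1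
    rw [hr]; ring

/-- `T_{n,2,2}` has the strong Lefschetz property (with respect to the sum of the variables). -/
theorem pow22 (hn : 0 < n) (i j : ℕ) (hj : 1 ≤ j) :
    InjP (powI n 2 2) (ell n) i j ∨ SurjP (powI n 2 2) (ell n) i j := by
  rcases Nat.lt_or_ge (n + 3) (2 * i + j) with h | h
  · right; exact pow22_surjP (by omega)
  · rcases Nat.lt_or_ge (2 * i + j) (n + 3) with h2 | h2
    · left; exact pow22_injP_low hn (by omega)
    · rcases Nat.eq_zero_or_pos i with h3 | h3
      · right
        subst h3
        intro g hg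
        refine ⟨0, isHomogeneous_zero _ _ _, ?_⟩
        rw [mul_zero, sub_zero, mem_powI_iff two_pos]
        intro m hm
        have h1 := (isHomogeneous_iff.mp hg) m (mem_support_iff.mp hm)
        have h2 : ∑ l, m l ≤ ∑ l, (2 * (m l / 2) + 1) := Finset.sum_le_sum fun l _ => by omega
        rw [Finset.sum_add_distrib, ← Finset.mul_sum] at h2
        simp at h2
        omega
      · left
        obtain ⟨s, rfl⟩ : ∃ s, j = s + 1 := ⟨j - 1, by omega⟩
        exact pow22_injP_mid h3 (by omega)

end Pool.Agent.Lib_MP_8b82cd_ag
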